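import Pool.Agent.Lib.MP_da270e_gt.Bridge

/-!
Working definitions for the sharp angle `4π/5` between segments on a sphere.
-/

set_option autoImplicit false
set_option maxSynthPendingDepth 3

namespace Pool.Agent.Lib.MP_da270e_gt.SA

open Set Real
open scoped ContDiff

/-- fields of bilinear forms -/
abbrev Met : Type := E → E →L[ℝ] E →L[ℝ] ℝ

/-- the angle between two tangent vectors -/
noncomputable def angB (g : Met) (p v w : E) : ℝ := arccos (g p v w / (√(g p v v) * √(g p w w)))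

/-- the metric at `z`, extended to a positive definite form on the whole space -/
noncomputable def GG (g : Met) (z v w : E) : ℝ :=
  g z (v - inner ℝ z v • z) (w - inner ℝ z w • z) + inner ℝ z v * inner ℝ z w

/-- the norm of the extended form -/
noncomputable def NG (g : Met) (z w : E) : ℝ := √(GG g z w w)

/-- bounds for the norms `NG g z` -/
structure Bd (g : Met) (m M C : ℝ) : Prop where
  pos : 0 < m
  C0 : 0 ≤ C
  lo : ∀ z w : E, ‖z‖ = 1 → m * ‖w‖ ≤ NG g z w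
  hi : ∀ z w : E, ‖z‖ = 1 → NG g z w ≤ M * ‖w‖
  lip : ∀ z z' w : E, ‖z‖ = 1 → ‖z'‖ = 1 → |NG g z w - NG g z' w| ≤ C * ‖z - z'‖ * ‖w‖

/-- comparison of the distance with the frozen norms -/
structure Cmp (g : Met) (m M C : ℝ) : Prop where
  pos : 0 < m
  C0 : 0 ≤ C
  lo : ∀ z w : E, ‖z‖ = 1 → m * ‖w‖ ≤ NG g z w
  hi : ∀ z w : E, ‖z‖ = 1 → NG g z w ≤ M * ‖w‖
  rlo : ∀ p q : E, ‖p‖ = 1 → ‖q‖ = 1 → m * ‖q - p‖ ≤ rho g p q
  rhi : ∀ p q : E, ‖p‖ = 1 → ‖q‖ = 1 → rho g p q ≤ M * ‖q - p‖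
  cmp : ∀ (z p q : E) (r : ℝ), ‖z‖ = 1 → ‖p‖ = 1 → ‖q‖ = 1 → ‖p - z‖ ≤ r → ‖q - z‖ ≤ r →
    |rho g p q - NG g z (q - p)| ≤ C * r * ‖q - p‖

/-- a curve from `y` to `x` on the sphere that is `η`-Lipschitz for the distance -/
structure AG (g : Met) (η : ℝ) (γ : ℝ → E) (y x : E) : Prop where
  src : γ 0 = y
  tgt : γ 1 = x
  unit : ∀ t ∈ Icc (0 : ℝ) 1, ‖γ t‖ = 1
  lip : ∀ s t : ℝ, 0 ≤ s → s ≤ t → t ≤ 1 → rho g (γ s) (γ t) ≤ (t - s) * η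

/-- metric geodesics are `C¹`, with a uniform first order estimate at the starting point -/
def Reg (g : Met) (K : ℝ) : Prop :=
  ∀ (γ : ℝ → E) (y x : E), AG g (rho g y x) γ y x →
    ∃ c : ℝ → E, ContDiff ℝ 1 c ∧ (∀ t ∈ Icc (0 : ℝ) 1, c t = γ t) ∧ ∀ t ∈ Icc (0 : ℝ) 1,
      ‖γ t - y - t • deriv c 0‖ ≤ K * (rho g y x * √(rho g y x)) * (t * √t)

/-- initial velocities of metric geodesics from `y` to `x` -/
def Dir (g : Met) (K : ℝ) (x y : E) : Set E :=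
  {v | ∃ γ : ℝ → E, AG g (rho g y x) γ y x ∧ ∀ t ∈ Icc (0 : ℝ) 1,
    ‖γ t - y - t • v‖ ≤ K * (rho g y x * √(rho g y x)) * (t * √t)}

/-- product of three linear forms -/
noncomputable def cub (α : Fin 3 → E) (v : E) : ℝ :=
  inner ℝ (α 0) v * inner ℝ (α 1) v * inner ℝ (α 2) v

/-- the integral of `h` along a great circle -/
noncomputable def PhiH (h : E → ℝ) (y u : E) (σ : ℝ) : ℝ := ∫ r in (0 : ℝ)..σ, h (arc y u r)

/-- admissible perturbation functions -/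
structure Adm (h : E → ℝ) : Prop where
  smooth : ContDiff ℝ ∞ h
  bd : ∀ p : E, ‖p‖ ≤ 1 → |h p| ≤ 2
  der : ∀ p : E, ‖p‖ ≤ 1 → ‖fderiv ℝ h p‖ ≤ 8

/-- the conformal metric `(1 + ε h)² · round` -/
noncomputable def gH (h : E → ℝ) (ε : ℝ) (p : E) : E →L[ℝ] E →L[ℝ] ℝ := (1 + ε * h p) ^ 2 • ip

/-- what is used of a metric near `gH h ε` -/
structure Close (h : E → ℝ) (ε : ℝ) (g : Met) : Prop where
  c0 : ∀ p v w : E, ‖p‖ = 1 → inner ℝ p v = 0 → inner ℝ p w = 0 →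
    |g p v w - inner ℝ v w| ≤ 21 * ε * ‖v‖ * ‖w‖
  c1 : ∀ p u v w : E, ‖p‖ = 1 → inner ℝ p u = 0 → inner ℝ p v = 0 → inner ℝ p w = 0 →
    |cov g p u v w| ≤ 21 * ε * ‖u‖ * ‖v‖ * ‖w‖
  lo : ∀ p w : E, ‖p‖ = 1 → inner ℝ p w = 0 →
    (1 - 2 * ε ^ 2) * ((1 + ε * h p) * ‖w‖) ≤ √(g p w w)
  hi : ∀ p w : E, ‖p‖ = 1 → inner ℝ p w = 0 →
    √(g p w w) ≤ (1 + 2 * ε ^ 2) * ((1 + ε * h p) * ‖w‖)

/-- `u` minimises `e ↦ PhiH h y e π - ⟪e, ξ⟫` on the unit tangent circle up to `γ` -/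
def AMin (h : E → ℝ) (γ : ℝ) (y ξ u : E) : Prop :=
  ‖u‖ = 1 ∧ inner ℝ y u = 0 ∧ ∀ e : E, ‖e‖ = 1 → inner ℝ y e = 0 →
    PhiH h y u π - inner ℝ u ξ ≤ PhiH h y e π - inner ℝ e ξ + γ

/-- approximate minimisers make an angle at most `θ` -/
def Pent (θ γ : ℝ) (h : E → ℝ) : Prop :=
  ∀ y ξ u₁ u₂ : E, ‖y‖ = 1 → AMin h γ y ξ u₁ → AMin h γ y ξ u₂ → cos θ ≤ inner ℝ u₁ u₂

/-- odd trigonometric polynomials of degree three -/
def Trig3 (T : ℝ → ℝ) : Prop :=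
  ∃ A B C D : ℝ, ∀ φ, T φ = A * cos φ + B * sin φ + C * cos (3 * φ) + D * sin (3 * φ)

end Pool.Agent.Lib.MP_da270e_gt.SA
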