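import Pool.Agent.Shared.SingHom.Main

/-! The mapping degree of a power map (copied from the library of MP_1ba768_gt). -/

set_option autoImplicit false

open Set MvPolynomial Pool.Agent.Shared.SingHom

noncomputable section

namespace Pool.Agent.Lib.MP_da270e_gt.SA

namespace Bez

section Top

variable {V : Type} [NormedAddCommGroup V] [NormedSpace ℂ V]

/-- `F` multiplies all homology classes of the punctured space by `n` -/
def Deg (F : C(V, V)) (n : ℕ) : Prop :=
  ∀ m, ∀ x ∈ Z ({0}ᶜ : Set V) m, push F x - (n : ℤ) • x ∈ B ({0}ᶜ : Set V) m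

omit [NormedSpace ℂ V] in
theorem Deg.comp {F F' : C(V, V)} {n n' : ℕ} (h : Deg F n) (h' : Deg F' n')
    (hF' : MapsTo F' {0}ᶜ {0}ᶜ) : Deg (F'.comp F) (n * n') := fun m x hx => by
  have h1 := push_mem_B F' hF' (h m x hx)
  have h2 := (B _ m).smul_mem (n : ℤ) (h' m x hx)
  rw [map_sub, push_push, map_smul] at h1
  convert (B _ m).add_mem h1 h2 using 1
  push_cast
  module

theorem Deg.unique [FiniteDimensional ℝ V] {F F' : C(V, V)} {n n' : ℕ} (h : Deg F n)
    (h' : Deg F' n')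
    (hF : ∀ m, ∀ x ∈ Z ({0}ᶜ : Set V) m, push F' x - push F x ∈ B ({0}ᶜ : Set V) m) : n = n' := by
  obtain ⟨e⟩ := (conc_compl_point (0 : V)).2
  obtain ⟨x, hx, hxe⟩ := Hq.mk_surj (e.symm fun _ => 1)
  have h1 : ((n : ℤ) - n') • x ∈ B ({0}ᶜ : Set V) (Module.finrank ℝ V) := by
    convert (B _ _).sub_mem ((B _ _).sub_mem (h' _ x hx) (h _ x hx)) (hF _ x hx) using 1
    module
  have h2 : ((n : ℤ) - n') • e.symm (fun _ => 1) = 0 := by
    rw [← hxe, Hq.mk_smul]
    exact Hq.mk_eq_zero.2 h1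
  have h3 := congrFun (congrArg e h2) 0
  rw [map_smul, e.apply_symm_apply, map_zero] at h3
  have h4 : (n : ℤ) - n' = 0 := by simpa using h3
  omega

/-- two maps in a pencil with finitely many degenerate members are homotopic -/
theorem pencil {F F' : C(V, V)} (T : Set ℂ) (hT : T.Finite) (h0 : (0 : ℂ) ∉ T) (h1 : (1 : ℂ) ∉ T)
    (h : ∀ t ∉ T, ∀ z, z ≠ 0 → (1 - t) • F z + t • F' z ≠ 0) {m : ℕ} {x : Ch V}
    (hx : x ∈ Z ({0}ᶜ : Set V) m) : push F' x - push F x ∈ B ({0}ᶜ : Set V) m := by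
  have hj := (hT.countable.isPathConnected_compl_of_one_lt_rank
    (by rw [Complex.rank_real_complex]; norm_num)).joinedIn 0 h0 1 h1
  refine push_sub_mem_B (fun y : ℝ × V => (1 - hj.somePath.extend y.1) • F y.2 +
    hj.somePath.extend y.1 • F' y.2) (Continuous.continuousOn (by fun_prop))
    (fun t ht z hz => h _ ?_ z hz) (fun z _ => by simp) (fun z _ => by simp) hx
  rw [Path.extend_apply _ ht]
  exact hj.somePath_mem _

theorem finite_bad {W : Type} [AddCommGroup W] [Module ℂ W] [FiniteDimensional ℂ W]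
    (L : Module.End ℂ W) : {t : ℂ | ∃ v, v ≠ 0 ∧ (1 - t) • v + t • L v = 0}.Finite := by
  refine (L.finite_hasEigenvalue.image fun c => (1 - c)⁻¹).subset ?_
  rintro t ⟨v, hv, h⟩
  have ht : t ≠ 0 := by
    rintro rfl
    exact hv (by simpa using h)
  refine ⟨1 - t⁻¹, Module.End.hasEigenvalue_of_hasEigenvector (x := v)
    ⟨Module.End.mem_eigenspace_iff.2 ?_, hv⟩, by simp⟩
  have h2 : L v = t⁻¹ • (t • L v) := by rw [smul_smul, inv_mul_cancel₀ ht, one_smul]
  rw [h2, eq_neg_of_add_eq_zero_right h, smul_neg, smul_smul, ← neg_smul]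
  congr 1
  field_simp
  ring

theorem linear [FiniteDimensional ℂ V] (A : V →L[ℂ] V) (hA : ∀ z, A z = 0 → z = 0) {m : ℕ}
    {x : Ch V} (hx : x ∈ Z ({0}ᶜ : Set V) m) :
    push ⟨A, A.continuous⟩ x - x ∈ B ({0}ᶜ : Set V) m := by
  have h := pencil (F := ContinuousMap.id V) (F' := ⟨A, A.continuous⟩) _ (finite_bad A.toLinearMap)
    (by rintro ⟨v, hv, h⟩; exact hv (by simpa using h))
    (by rintro ⟨v, hv, h⟩; exact hv (hA v (by simpa using h)))
    (fun t ht z hz h => ht ⟨z, hz, h⟩) hx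
  rwa [push_id] at h

theorem mem_B_compl (P : Finset V) {m : ℕ} {x : Ch V} (hx : x ∈ Z ((P : Set V)ᶜ) m)
    (h : ∀ p ∈ P, x ∈ B ({p}ᶜ : Set V) m) : x ∈ B ((P : Set V)ᶜ) m := by
  classical
  have hu : Acyc (univ : Set V) := acyc_of_starConvex (mem_univ 0) (starConvex_univ 0)
  induction P using Finset.induction_on with
  | empty => simpa using hu m (by simpa using hx)
  | insert p P hp ih =>
    refine (exc_of_open (A := univ) (U₁ := {p}ᶜ) (U₂ := (P : Set V)ᶜ) isOpen_compl_singleton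
      P.finite_toSet.isClosed.isOpen_compl (fun z _ => ?_) (univ_inter _).symm (univ_inter _).symm
      ?_).mem_B (hu _) hx (h p (Finset.mem_insert_self _ _))
      (ih (Z_mono (compl_subset_compl.2 (by simp)) m hx) fun q hq => h q
        (Finset.mem_insert_of_mem hq))
    · by_cases hz : z = p
      · exact Or.inr (hz ▸ hp)
      · exact Or.inl hz
    · rw [Finset.coe_insert, insert_eq, compl_union]

/-- the homothety with centre `p` -/
def hom (p : V) (r : ℝ) : C(V, V) := ⟨fun z => p + r • z, by fun_prop⟩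

theorem split (P : Finset V) {K : Set V} {r : ℝ} (hr : 0 < r) (hK : ∀ z ∈ K, ∀ p ∈ P, ‖p‖ < ‖z‖)
    (hK' : ∀ z ∈ K, ∀ p ∈ P, ∀ q ∈ P, p ≠ q → r * ‖z‖ < ‖p - q‖) {m : ℕ} {x : Ch V}
    (hx : x ∈ Z K m) : ∑ p ∈ P, push (hom p r) x - x ∈ B ((P : Set V)ᶜ) m := by
  have hb : ∀ p ∈ P, ∀ q ∈ P, p ≠ q → MapsTo (hom q r) K (Metric.ball q ‖p - q‖) := by
    intro p hp q hq hpq z hz
    rw [mem_ball_iff_norm]
    simpa [hom, norm_smul, abs_of_pos hr] using hK' z hz p hp q hq hpq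
  have hb' : ∀ p q : V, Metric.ball q ‖p - q‖ ⊆ {p}ᶜ := by
    rintro p q z hz rfl
    exact lt_irrefl _ (mem_ball_iff_norm.1 hz)
  have hz0 : ∀ z ∈ K, ∀ p ∈ P, p + r • z ≠ p := fun z hz p hp h => by
    have h1 := hK z hz p hp
    have h2 : z = 0 := by simpa [hr.ne'] using h
    rw [h2, norm_zero] at h1
    exact absurd h1 (norm_nonneg _).not_gt
  refine mem_B_compl P (sub_mem (Submodule.sum_mem _ fun q hq => push_mem_Z _ ?_ hx)
    (Z_mono (fun z hz hzP => lt_irrefl _ (hK z hz z hzP)) m hx)) fun p hp => ?_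
  · intro z hz hzP
    by_cases h : hom q r z = q
    · exact hz0 z hz q hq h
    · exact hb' _ _ (hb _ hzP q hq h hz) rfl
  · classical
    rw [← Finset.add_sum_erase _ _ hp, add_sub_right_comm]
    refine add_mem ?_ (Submodule.sum_mem _ fun q hq => ?_)
    · have h1 := push_sub_mem_B (g₀ := ContinuousMap.id V) (g₁ := hom p r) (A' := {p}ᶜ)
        (fun y : ℝ × V => y.1 • p + (1 - y.1 + y.1 * r) • y.2)
        (Continuous.continuousOn (by fun_prop)) (fun t ht z hz h => ?_) (fun z _ => by simp)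
        (fun z _ => by simp [hom]) hx
      · rwa [push_id] at h1
      · have h2 : (1 - t + t * r) • z = (1 - t) • p := by
          rw [sub_smul, one_smul, eq_sub_iff_add_eq, add_comm]; exact h
        have h3 := congrArg norm h2
        have h4 := hK z hz p hp
        have h5 : 0 ≤ t * r := mul_nonneg ht.1 hr.le
        have h6 := norm_nonneg p
        rw [norm_smul, norm_smul, Real.norm_of_nonneg (by linarith [ht.2]),
          Real.norm_of_nonneg (by linarith [ht.2])] at h3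
        rcases ht.2.eq_or_lt with rfl | h7
        · nlinarith
        · nlinarith
    · have hq' := Finset.mem_erase.1 hq
      have h1 : 0 < ‖p - q‖ := norm_pos_iff.2 (sub_ne_zero.2 hq'.1.symm)
      exact B_mono (hb' p q) m (acyc_of_starConvex (Metric.mem_ball_self h1)
        ((convex_ball q _).starConvex (Metric.mem_ball_self h1)) m
        (push_mem_Z _ (hb p hp q hq'.2 hq'.1.symm) hx))

theorem loc [FiniteDimensional ℂ V] (F : C(V, V)) (p : V) (A : V →L[ℂ] V) (hp : F p = 0)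
    (hF : HasFDerivAt F A p) (hA : ∀ z, A z = 0 → z = 0) {K : Set V} (hK : IsCompact K)
    (h0 : K ⊆ {0}ᶜ) : ∀ᶠ r in nhdsWithin (0 : ℝ) (Ioi 0), ∀ m, ∀ x ∈ Z K m,
      push F (push (hom p r) x) - x ∈ B ({0}ᶜ : Set V) m := by
  obtain ⟨c, hc, hA'⟩ := A.toLinearMap.exists_antilipschitzWith
    (LinearMap.ker_eq_bot'.2 hA)
  have hc' : (0 : ℝ) < c := hc
  have h1 := (hasFDerivAt_iff_isLittleO_nhds_zero.1 hF).bound (c := (2 * c)⁻¹) (by positivity)
  obtain ⟨δ, hδ, h2⟩ := Metric.eventually_nhds_iff_ball.1 h1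
  obtain ⟨M, hM, hKM⟩ := hK.isBounded.exists_pos_norm_le
  filter_upwards [Ioo_mem_nhdsGT (div_pos hδ hM)] with r hr m x hx
  have h3 := push_sub_mem_B (g₀ := ⟨(r : ℂ) • A, ((r : ℂ) • A).continuous⟩)
    (g₁ := F.comp (hom p r)) (A' := {0}ᶜ)
    (fun y : ℝ × V => A (r • y.2) + y.1 • (F (p + r • y.2) - A (r • y.2)))
    (Continuous.continuousOn (by fun_prop)) (fun t ht z hz h => ?_)
    (fun z _ => by simp [← Complex.coe_smul]) (fun z _ => by simp [hom]) hx
  · have h4 := linear ((r : ℂ) • A) (fun z hz => hA z (by simpa [hr.1.ne'] using hz))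
      (Z_mono h0 m hx)
    rw [push_push]
    convert add_mem h3 h4 using 1
    abel
  · have h4 := h2 (r • z) (by
      rw [mem_ball_zero_iff, norm_smul, Real.norm_of_nonneg hr.1.le]
      calc r * ‖z‖ ≤ r * M := mul_le_mul_of_nonneg_left (hKM z hz) hr.1.le
        _ < δ := (lt_div_iff₀ hM).1 hr.2)
    rw [hp, sub_zero] at h4
    have h5 : ‖r • z‖ ≤ c * ‖A (r • z)‖ := ZeroHomClass.bound_of_antilipschitz _ hA' _
    have h6 : 0 < ‖r • z‖ := norm_pos_iff.2 (smul_ne_zero hr.1.ne' (h0 hz))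
    have h7 := congrArg norm (eq_neg_of_add_eq_zero_left h)
    rw [norm_neg, norm_smul, Real.norm_of_nonneg ht.1] at h7
    have h8 : ‖A (r • z)‖ ≤ (2 * (c : ℝ))⁻¹ * ‖r • z‖ :=
      h7.le.trans ((mul_le_of_le_one_left (norm_nonneg _) ht.2).trans h4)
    have h9 := mul_le_mul_of_nonneg_left h8 hc'.le
    have h10 : (c : ℝ) * ((2 * (c : ℝ))⁻¹ * ‖r • z‖) = ‖r • z‖ / 2 := by field_simp
    linarith

theorem count_far [FiniteDimensional ℂ V] (F : C(V, V)) (P : Finset V) (A : V → V →L[ℂ] V)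
    (hP : ∀ z, z ∈ P ↔ F z = 0) (hF : ∀ p ∈ P, HasFDerivAt F (A p) p)
    (hA : ∀ p ∈ P, ∀ z, A p z = 0 → z = 0) {K : Set V} (hK : IsCompact K) (h0 : K ⊆ {0}ᶜ)
    (hKP : ∀ z ∈ K, ∀ p ∈ P, ‖p‖ < ‖z‖) {m : ℕ} {x : Ch V} (hx : x ∈ Z K m) :
    push F x - (P.card : ℤ) • x ∈ B ({0}ᶜ : Set V) m := by
  obtain ⟨M, hM, hKM⟩ := hK.isBounded.exists_pos_norm_le
  have h1 := (P.eventually_all.2 fun p hp => loc F p (A p) ((hP p).1 hp) (hF p hp) (hA p hp) hK h0)
  have h2 : ∀ᶠ r in nhdsWithin (0 : ℝ) (Ioi 0), ∀ p ∈ P, ∀ q ∈ P, p ≠ q → r * M < ‖p - q‖ := by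
    refine P.eventually_all.2 fun p _ => P.eventually_all.2 fun q _ => ?_
    by_cases hpq : p = q
    · exact Filter.Eventually.of_forall fun _ h => absurd hpq h
    · filter_upwards [Ioo_mem_nhdsGT (div_pos (norm_pos_iff.2 (sub_ne_zero.2 hpq)) hM)] with r hr _
      exact (lt_div_iff₀ hM).1 hr.2
  obtain ⟨r, ⟨h3, h4⟩, hr⟩ := ((h1.and h2).and self_mem_nhdsWithin).exists
  have h5 := push_mem_B F (A := (P : Set V)ᶜ) (A' := {0}ᶜ) (fun z hz h => hz ((hP z).2 h))
    (split P hr hKP (fun z hz p hp q hq hpq => (mul_le_mul_of_nonneg_left (hKM z hz)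
      (le_of_lt hr)).trans_lt (h4 p hp q hq hpq)) hx)
  have h6 := Submodule.sum_mem _ fun p hp => h3 p hp m x hx
  rw [map_sub, map_sum] at h5
  rw [Finset.sum_sub_distrib, Finset.sum_const] at h6
  convert sub_mem h6 h5 using 1
  rw [natCast_zsmul]
  abel

end Top

variable {ι : Type} [Fintype ι] [DecidableEq ι]

omit [DecidableEq ι] in
/-- weighted homogeneity in the form of a scaling identity -/
theorem eval_scale {w : ι → ℕ} {d : ℕ} {f : MvPolynomial ι ℂ} (hf : IsWeightedHomogeneous w f d)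
    (c : ℂ) (z : ι → ℂ) : eval (fun i => c ^ w i * z i) f = c ^ d * eval z f := by
  rw [eval_eq', eval_eq', Finset.mul_sum]
  refine Finset.sum_congr rfl fun m hm => ?_
  have h := hf (mem_support_iff.1 hm)
  rw [Finsupp.weight_apply, Finsupp.sum_fintype _ _ (by simp)] at h
  simp only [mul_pow, Finset.prod_mul_distrib, ← pow_mul]
  rw [Finset.prod_pow_eq_pow_sum, ← h]
  simp only [smul_eq_mul, mul_comm (w _)]
  ring

/-- the map given by a family of polynomials -/
def ev (G : ι → MvPolynomial ι ℂ) : C(ι → ℂ, ι → ℂ) :=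
  ⟨fun z i => eval z (G i), continuous_pi fun i => (G i).continuous_eval⟩

theorem hasFDerivAt_eval (g : MvPolynomial ι ℂ) (p : ι → ℂ) :
    HasFDerivAt (fun z : ι → ℂ => eval z g)
      (∑ j, eval p (pderiv j g) • (ContinuousLinearMap.proj j : (ι → ℂ) →L[ℂ] ℂ)) p := by
  induction g using MvPolynomial.induction_on with
  | C c =>
    simp only [eval_C]
    exact (hasFDerivAt_const c p).congr_fderiv (ContinuousLinearMap.ext fun v => by simp)
  | add f g hf hg =>
    simp only [map_add]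
    exact (hf.add hg).congr_fderiv (by ext v; simp [add_mul, Finset.sum_add_distrib])
  | mul_X f i hf =>
    simp only [map_mul, eval_X]
    refine (hf.mul (ContinuousLinearMap.proj i : (ι → ℂ) →L[ℂ] ℂ).hasFDerivAt).congr_fderiv
      (ContinuousLinearMap.ext fun v => ?_)
    simp [pderiv_X, Pi.single_apply, add_mul, Finset.sum_add_distrib, Finset.mul_sum, mul_assoc,
      apply_ite (eval p)]

theorem count (w e : ι → ℕ) (G : ι → MvPolynomial ι ℂ) (hw : ∀ i, 0 < w i)
    (he : ∀ i, 0 < e i) (hG : ∀ i, IsWeightedHomogeneous w (G i) (e i))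
    (hiso : ∀ z : ι → ℂ, (∀ i, eval z (G i) = 0) → z = 0) (a : ι → ℂ) (P : Finset (ι → ℂ))
    (hP : ∀ z, z ∈ P ↔ ∀ i, eval z (G i) = a i)
    (hreg : ∀ p ∈ P, (Matrix.of fun i j => eval p (pderiv j (G i))).det ≠ 0) :
    Deg (ev G) P.card := by
  intro m x hx
  obtain ⟨K, hK, h0, hxK⟩ := exists_compact hx.1
  have hG0 : MapsTo (ev G) {0}ᶜ {0}ᶜ := fun z hz h => hz (hiso z (congrFun h))
  -- a continuous function without zero is bounded below on `K`
  have hlow : ∀ F : C(ι → ℂ, ι → ℂ), MapsTo F {0}ᶜ {0}ᶜ → ∀ b : ℝ,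
      ∀ᶠ R in Filter.atTop, ∀ z ∈ K, b < R * ‖F z‖ := by
    intro F hF b
    obtain ⟨c, hc, hc'⟩ := hK.exists_forall_le' (f := fun z => ‖F z‖) (a := 0)
      (by fun_prop) fun z hz => norm_pos_iff.2 (hF (h0 hz))
    filter_upwards [Filter.eventually_gt_atTop (b / c), Filter.eventually_ge_atTop 0]
      with R h1 h2 z hz
    exact ((div_lt_iff₀ hc).1 h1).trans_le (mul_le_mul_of_nonneg_left (hc' z hz) h2)
  have hdil : ∀ (u : ι → ℕ), (∀ i, 0 < u i) → ∀ R : ℝ, 1 ≤ R → ∀ z : ι → ℂ,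
      R * ‖z‖ ≤ ‖fun i => (R : ℂ) ^ u i * z i‖ := by
    intro u hu R hR z
    have hR0 : 0 < R := by linarith
    rw [mul_comm, ← le_div_iff₀ hR0, pi_norm_le_iff_of_nonneg (by positivity)]
    intro i
    rw [le_div_iff₀ hR0]
    refine le_trans ?_ (norm_le_pi_norm _ i)
    rw [norm_mul, norm_pow, Complex.norm_of_nonneg hR0.le, mul_comm]
    exact mul_le_mul_of_nonneg_right (le_self_pow₀ hR (hu i).ne') (norm_nonneg _)
  obtain ⟨R, ⟨h1, h2⟩, hR⟩ := (((hlow _ hG0 ‖a‖).and (P.eventually_all.2 fun p _ =>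
    hlow (ContinuousMap.id _) (mapsTo_id _) ‖p‖)).and (Filter.eventually_ge_atTop 1)).exists
  let δ : C(ι → ℂ, ι → ℂ) := ⟨fun z i => (R : ℂ) ^ w i * z i, by fun_prop⟩
  have hy : push δ x ∈ Z (δ '' K) m := push_mem_Z δ (mapsTo_image _ _) ⟨hxK, hx.2⟩
  have h3 : push δ x - x ∈ B ({0}ᶜ : Set (ι → ℂ)) m := by
    have h := push_sub_mem_B (g₀ := ContinuousMap.id _) (g₁ := δ) (A' := {0}ᶜ)
      (fun (y : ℝ × (ι → ℂ)) i => ((1 + y.1 * (R - 1) : ℝ) : ℂ) ^ w i * y.2 i)
      (Continuous.continuousOn (by fun_prop)) (fun t ht z hz h => ?_) (fun z _ => by simp)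
      (fun z _ => by simp [δ]) hx
    · rwa [push_id] at h
    · have h4 : 1 ≤ 1 + t * (R - 1) := by nlinarith [ht.1]
      have h5 := (hdil w hw _ h4 z).trans_eq ((congrArg norm h).trans norm_zero)
      have h6 : 0 < ‖z‖ := norm_pos_iff.2 hz
      nlinarith
  have hδK : ∀ z ∈ K, ‖a‖ < ‖ev G (δ z)‖ := fun z hz => by
    refine ((h1 z hz).trans_le (hdil e he R hR _)).trans_eq (congrArg norm (funext fun i => ?_))
    exact (eval_scale (hG i) _ _).symm
  have h4 := push_sub_mem_B (g₀ := ev G - ContinuousMap.const _ a) (g₁ := ev G) (A' := {0}ᶜ)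
    (fun y : ℝ × (ι → ℂ) => ev G y.2 - (1 - y.1) • a)
    (Continuous.continuousOn (by fun_prop)) (by
      rintro t ht _ ⟨z, hz, rfl⟩ h
      have h5 := hδK z hz
      rw [sub_eq_zero.1 h, norm_smul, Real.norm_of_nonneg (by linarith [ht.2])] at h5
      nlinarith [ht.1, norm_nonneg a]) (fun z _ => by simp) (fun z _ => by simp) hy
  have h5 := count_far (ev G - ContinuousMap.const _ a) P
    (fun p => ContinuousLinearMap.pi fun i =>
      ∑ j, eval p (pderiv j (G i)) • (ContinuousLinearMap.proj j : (ι → ℂ) →L[ℂ] ℂ))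
    (fun z => (hP z).trans ⟨fun h => funext fun i => sub_eq_zero.2 (h i),
      fun h i => sub_eq_zero.1 (congrFun h i)⟩)
    (fun p _ => (hasFDerivAt_pi.2 fun i => hasFDerivAt_eval (G i) p).sub_const a)
    (fun p hp z hz => Matrix.eq_zero_of_mulVec_eq_zero (hreg p hp) (funext fun i => by
      simpa [Matrix.mulVec, dotProduct] using congrFun hz i))
    (hK.image δ.continuous) (by
      rintro _ ⟨z, hz, rfl⟩ h
      have h5 := (hdil w hw R hR z).trans_eq ((congrArg norm h).trans norm_zero)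
      have h6 : 0 < ‖z‖ := norm_pos_iff.2 (h0 hz)
      nlinarith)
    (by
      rintro _ ⟨z, hz, rfl⟩ p hp
      exact (h2 p hp z hz).trans_le (hdil w hw R hR z)) hy
  have h6 := push_mem_B _ hG0 h3
  rw [map_sub] at h6
  convert add_mem (sub_mem (add_mem h4 h5) h6) ((B _ m).smul_mem (P.card : ℤ) h3) using 1
  module

theorem deg_pow (u : ι → ℕ) (hu : ∀ i, 0 < u i) :
    Deg (ev fun i => (X i : MvPolynomial ι ℂ) ^ u i) (∏ i, u i) := by
  have h := count (fun _ => 1) u (fun i => X i ^ u i) (fun _ => one_pos) hu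
    (fun i => by
      have h := (isWeightedHomogeneous_X ℂ (fun _ : ι => (1 : ℕ)) i).pow (u i)
      rwa [smul_eq_mul, mul_one] at h)
    (fun z hz => funext fun i => pow_eq_zero_iff (hu i).ne' |>.1 (by simpa using hz i))
    (fun _ => 1) (Fintype.piFinset fun i => Polynomial.nthRootsFinset (u i) 1)
    (fun z => by simp [Polynomial.mem_nthRootsFinset (hu _)]) (fun p hp => by
      have h1 : (Matrix.of fun i j => eval p (pderiv j (X i ^ u i : MvPolynomial ι ℂ))) =
          Matrix.diagonal fun i => (u i : ℂ) * p i ^ (u i - 1) := by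
        ext i j
        by_cases hij : i = j
        · subst hij; simp
        · simp [hij]
      rw [h1, Matrix.det_diagonal]
      refine Finset.prod_ne_zero_iff.2 fun i _ => mul_ne_zero (by exact_mod_cast (hu i).ne')
        (pow_ne_zero _ (Polynomial.ne_zero_of_mem_nthRootsFinset one_ne_zero
          (Fintype.mem_piFinset.1 hp i))))
  rw [Fintype.card_piFinset] at h
  convert h using 2 with i
  exact ((Complex.isPrimitiveRoot_exp _ (hu i).ne').card_nthRootsFinset).symm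

end Bez

end Pool.Agent.Lib.MP_da270e_gt.SA
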