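import Pool.Agent.Lib.MP_da270e_gt.SA.Base

/-!
A curve with small deviation from its chords is `C¹`.
-/

set_option autoImplicit false
set_option maxSynthPendingDepth 3

namespace Pool.Agent.Lib.MP_da270e_gt.SA

open Set Real Filter Topology

/-- the difference quotient -/
noncomputable def QQ (f : ℝ → E) (s t : ℝ) : E := (t - s)⁻¹ • (f t - f s)

/-- the three point condition -/
def Dev (f : ℝ → E) (K : ℝ) : Prop := ∀ s u t : ℝ, 0 ≤ s → s ≤ u → u ≤ t → t ≤ 1 →
  ‖(t - s) • (f u - f s) - (u - s) • (f t - f s)‖ ≤ K * ((t - s) ^ 2 * √(t - s))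

variable {f : ℝ → E} {K : ℝ}

theorem Dev.half (h : Dev f K) (hK : 0 ≤ K) {s u t : ℝ} (hs : 0 ≤ s) (hsu : s < u) (hut : u ≤ t)
    (ht : t ≤ 1) (h2 : t - s ≤ 2 * (u - s)) : ‖QQ f s u - QQ f s t‖ ≤ 2 * K * √(t - s) := by
  have h1 := h s u t hs hsu.le hut ht
  have hu : 0 < u - s := sub_pos.2 hsu
  have hv : 0 < t - s := by linarith
  have e : ((u - s) * (t - s)) • (QQ f s u - QQ f s t) =
      (t - s) • (f u - f s) - (u - s) • (f t - f s) := by
    unfold QQ
    rw [smul_sub, smul_smul, smul_smul]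
    congr 2 <;> field_simp
  rw [← e, norm_smul, Real.norm_of_nonneg (mul_pos hu hv).le] at h1
  have h3 : 0 ≤ K * √(t - s) := mul_nonneg hK (Real.sqrt_nonneg _)
  refine le_of_mul_le_mul_left (h1.trans ?_) (mul_pos hu hv)
  have h4 : (t - s) * (t - s) * (K * √(t - s)) ≤ (2 * (u - s)) * (t - s) * (K * √(t - s)) :=
    mul_le_mul_of_nonneg_right (mul_le_mul_of_nonneg_right h2 hv.le) h3
  nlinarith

/-- If `u - s ≥ (t - s) / 2` the bound is `2 K √(t - s)`. Induction on `k` with
`(t - s) / 2 ^ k ≤ u - s`, for all `t`: pass to the midpoint, `7 / √2 + 2 ≤ 7`. -/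
theorem Dev.right (h : Dev f K) (hK : 0 ≤ K) {s u t : ℝ} (hs : 0 ≤ s) (hsu : s < u) (hut : u ≤ t)
    (ht : t ≤ 1) : ‖QQ f s u - QQ f s t‖ ≤ 7 * K * √(t - s) := by
  have hu : 0 < u - s := sub_pos.2 hsu
  have key : ∀ k : ℕ, ∀ t : ℝ, u ≤ t → t ≤ 1 → t - s ≤ 2 ^ k * (u - s) →
      ‖QQ f s u - QQ f s t‖ ≤ 7 * K * √(t - s) := by
    intro k
    induction k with
    | zero =>
      intro t hut ht h2
      have h3 : 0 ≤ K * √(t - s) := mul_nonneg hK (Real.sqrt_nonneg _)
      have := h.half hK hs hsu hut ht (by rw [pow_zero] at h2; linarith)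
      linarith
    | succ k ih =>
      intro t hut ht h2
      have h3 : 0 ≤ K * √(t - s) := mul_nonneg hK (Real.sqrt_nonneg _)
      by_cases hc : t - s ≤ 2 * (u - s)
      · have := h.half hK hs hsu hut ht hc
        linarith
      · have hc := not_le.1 hc
        have i1 := ih ((s + t) / 2) (by linarith) (by linarith) (by rw [pow_succ] at h2; linarith)
        have i2 := h.half hK hs (show s < (s + t) / 2 by linarith) (by linarith) ht (by linarith)
        have i3 : √((s + t) / 2 - s) ≤ 5 / 7 * √(t - s) := by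
          rw [Real.sqrt_le_left (by positivity), mul_pow, Real.sq_sqrt (by linarith)]
          linarith
        have i4 := mul_le_mul_of_nonneg_left i3 hK
        have i5 := norm_sub_le_norm_sub_add_norm_sub (QQ f s u) (QQ f s ((s + t) / 2)) (QQ f s t)
        linarith
  obtain ⟨k, hk⟩ := pow_unbounded_of_one_lt ((t - s) / (u - s)) (show (1 : ℝ) < 2 by norm_num)
  exact key k t hut ht ((div_le_iff₀ hu).1 hk.le)

/-- the curve `t ↦ f (1 - t)` satisfies the same condition -/
theorem Dev.rev (h : Dev f K) : Dev (fun t => f (1 - t)) K := by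
  intro s u t hs hsu hut ht
  have h1 := h (1 - t) (1 - u) (1 - s) (by linarith) (by linarith) (by linarith) (by linarith)
  have e1 : 1 - s - (1 - t) = t - s := by ring
  rw [e1] at h1
  have e2 : (t - s) • (f (1 - u) - f (1 - s)) - (u - s) • (f (1 - t) - f (1 - s)) =
      (t - s) • (f (1 - u) - f (1 - t)) - (1 - u - (1 - t)) • (f (1 - s) - f (1 - t)) := by
    module
  show ‖(t - s) • (f (1 - u) - f (1 - s)) - (u - s) • (f (1 - t) - f (1 - s))‖ ≤ _
  rw [e2]
  exact h1

theorem Dev.nest (h : Dev f K) (hK : 0 ≤ K) {s s' t' t : ℝ} (hs : 0 ≤ s) (h1 : s ≤ s')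
    (h2 : s' < t') (h3 : t' ≤ t) (ht : t ≤ 1) : ‖QQ f s' t' - QQ f s t‖ ≤ 14 * K * √(t - s) := by
  have i1 := h.right hK (hs.trans h1) h2 h3 ht
  have i2 := h.rev.right hK (s := 1 - t) (u := 1 - s') (t := 1 - s) (by linarith) (by linarith)
    (by linarith) (by linarith)
  have e : ∀ r : ℝ, QQ (fun t => f (1 - t)) (1 - t) (1 - r) = -QQ f r t := fun r => by
    unfold QQ
    have e1 : 1 - r - (1 - t) = t - r := by ring
    simp only [e1, sub_sub_cancel]
    rw [← smul_neg, neg_sub]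
  have e1 : 1 - s - (1 - t) = t - s := by ring
  rw [e, e, e1, neg_sub_neg, norm_sub_rev] at i2
  have i3 : √(t - s') ≤ √(t - s) := Real.sqrt_le_sqrt (by linarith)
  have i4 := mul_le_mul_of_nonneg_left i3 hK
  have i5 := norm_sub_le_norm_sub_add_norm_sub (QQ f s' t') (QQ f s' t) (QQ f s t)
  linarith

theorem Dev.limit63 (h : Dev f K) (hK : 0 ≤ K) {s : ℝ} (hs : s ∈ Icc (0 : ℝ) 1) :
    ∃ v : E, ∀ a b : ℝ, 0 ≤ a → a ≤ s → s ≤ b → b ≤ 1 → a < b →
      ‖QQ f a b - v‖ ≤ 14 * K * √(b - a) := by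
  let e : ℕ → ℝ := fun n => 1 / ((n : ℝ) + 1)
  have he : ∀ n, 0 < e n := fun n => Nat.one_div_pos_of_nat
  have hea : Antitone e := fun n m hnm => Nat.one_div_le_one_div hnm
  let A : ℕ → ℝ := fun n => max 0 (s - e n)
  let B : ℕ → ℝ := fun n => min 1 (s + e n)
  have hAB : ∀ n, A n < B n := fun n =>
    max_lt (lt_min one_pos (by linarith [hs.1, he n]))
      (lt_min (by linarith [hs.2, he n]) (by linarith [he n]))
  have hle : ∀ n, 14 * K * √(B n - A n) ≤ 14 * K * √(2 * e n) := fun n => by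
    have a : s - e n ≤ A n := le_max_right _ _
    have b : B n ≤ s + e n := min_le_right _ _
    exact mul_le_mul_of_nonneg_left (sqrt_le_sqrt (by linarith)) (by positivity)
  have h0 : Tendsto (fun n => 14 * K * √(2 * e n)) atTop (𝓝 0) := by
    simpa only [mul_zero, sqrt_zero] using
      ((tendsto_one_div_add_atTop_nhds_zero_nat (𝕜 := ℝ)).const_mul 2).sqrt.const_mul (14 * K)
  obtain ⟨v, hv⟩ := cauchySeq_tendsto_of_complete
    (cauchySeq_of_le_tendsto_0' (s := fun n => QQ f (A n) (B n)) _ (fun n m hnm => by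
      rw [dist_comm, dist_eq_norm]
      have := hea hnm
      exact (h.nest hK (le_max_left _ _) (max_le_max le_rfl (by linarith)) (hAB m)
        (min_le_min le_rfl (by linarith)) (min_le_left _ _)).trans (hle n)) h0)
  refine ⟨v, fun a b ha has hsb hb hab => ?_⟩
  have h1 := h0.const_add (14 * K * √(b - a))
  rw [add_zero] at h1
  refine le_of_tendsto_of_tendsto' (hv.const_sub (QQ f a b)).norm h1 fun n => ?_
  have hlt : max a (A n) < min b (B n) :=
    max_lt (lt_min hab (lt_min (by linarith) (by linarith [he n])))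
      (lt_min (max_lt (by linarith) (by linarith [he n])) (hAB n))
  have a1 := h.nest hK ha (le_max_left a (A n)) hlt (min_le_left _ _) hb
  have a2 := (h.nest hK (le_max_left _ _) (le_max_right a (A n)) hlt (min_le_right _ _)
    (min_le_left _ _)).trans (hle n)
  rw [norm_sub_rev] at a1
  exact (norm_sub_le_norm_sub_add_norm_sub _ _ _).trans (add_le_add a1 a2)

/-- `D s` is the limit of `QQ f (max 0 (s - 1 / (n + 1))) (min 1 (s + 1 / (n + 1)))` (Cauchy by
`nest`); compare `QQ f s t` with it through a short interval that has `s` as an end point -/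
theorem Dev.exists_D (h : Dev f K) (hK : 0 ≤ K) : ∃ D : ℝ → E, ∀ s ∈ Icc (0 : ℝ) 1,
    ∀ t ∈ Icc (0 : ℝ) 1, ‖f t - f s - (t - s) • D s‖ ≤ 14 * K * (|t - s| * √|t - s|) := by
  choose! D hD using fun s (hs : s ∈ Icc (0 : ℝ) 1) => h.limit63 hK hs
  refine ⟨D, fun s hs t ht => ?_⟩
  rcases lt_trichotomy s t with hst | rfl | hst
  · have e : f t - f s - (t - s) • D s = (t - s) • (QQ f s t - D s) := by
      rw [smul_sub, QQ, smul_inv_smul₀ (sub_pos.2 hst).ne']
    rw [e, norm_smul, norm_eq_abs, abs_of_pos (sub_pos.2 hst), mul_left_comm]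
    exact mul_le_mul_of_nonneg_left (hD s hs s t hs.1 le_rfl hst.le ht.2 hst) (sub_pos.2 hst).le
  · simp
  · have e : f t - f s - (t - s) • D s = -((s - t) • (QQ f t s - D s)) := by
      rw [smul_sub, QQ, smul_inv_smul₀ (sub_pos.2 hst).ne', ← neg_sub s t, neg_smul]
      abel
    rw [e, norm_neg, norm_smul, norm_eq_abs, abs_sub_comm t s, abs_of_pos (sub_pos.2 hst),
      mul_left_comm]
    exact mul_le_mul_of_nonneg_left (hD s hs t s ht.1 hst.le le_rfl hs.2 hst) (sub_pos.2 hst).le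

/-- `‖D s - D t‖ ≤ 28 K √|t - s|`, so `D` is continuous on `[0, 1]`; put
`c t = f 0 + ∫ 0..t D (projIcc r)` as in `rho_le`; `c - f` has right derivative zero -/
theorem c_one_of_D {D : ℝ → E} (hK : 0 ≤ K) (h : ∀ s ∈ Icc (0 : ℝ) 1, ∀ t ∈ Icc (0 : ℝ) 1,
    ‖f t - f s - (t - s) • D s‖ ≤ K * (|t - s| * √|t - s|)) :
    ∃ c : ℝ → E, ContDiff ℝ 1 c ∧ ∀ t ∈ Icc (0 : ℝ) 1, c t = f t ∧ deriv c t = D t := by
  have hlim : ∀ (L s : ℝ), Tendsto (fun t => L * √|t - s|) (𝓝[Icc (0 : ℝ) 1] s) (𝓝 0) :=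
    fun L s => by
      have : Continuous fun t : ℝ => L * √|t - s| := by fun_prop
      simpa using (this.tendsto s).mono_left nhdsWithin_le_nhds
  have hD : ∀ s ∈ Icc (0 : ℝ) 1, ∀ t ∈ Icc (0 : ℝ) 1, ‖D t - D s‖ ≤ 2 * K * √|t - s| := by
    intro s hs t ht
    rcases eq_or_ne t s with rfl | hne
    · simp
    have hp : 0 < |t - s| := abs_pos.2 (sub_ne_zero.2 hne)
    have a := h s hs t ht
    have b := h t ht s hs
    rw [abs_sub_comm s t] at b
    have e : (t - s) • (D t - D s) =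
        (f t - f s - (t - s) • D s) + (f s - f t - (s - t) • D t) := by
      rw [← neg_sub t s, neg_smul, smul_sub]
      abel
    have c := (congrArg norm e).trans_le ((norm_add_le _ _).trans (add_le_add a b))
    rw [norm_smul, norm_eq_abs] at c
    refine le_of_mul_le_mul_left (c.trans_eq ?_) hp
    ring
  have hc : ContinuousOn D (Icc (0 : ℝ) 1) := fun s hs =>
    tendsto_iff_norm_sub_tendsto_zero.2 (squeeze_zero' (.of_forall fun _ => norm_nonneg _)
      (eventually_nhdsWithin_of_forall (hD s hs)) (hlim _ s))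
  have hf : ∀ s ∈ Icc (0 : ℝ) 1, HasDerivWithinAt f (D s) (Icc (0 : ℝ) 1) s := fun s hs => by
    rw [hasDerivWithinAt_iff_isLittleO, Asymptotics.isLittleO_iff]
    intro ε hε
    filter_upwards [self_mem_nhdsWithin, (hlim K s).eventually (gt_mem_nhds hε)] with t ht h2
    refine (h s hs t ht).trans ?_
    rw [norm_eq_abs, mul_comm |t - s|, ← mul_assoc]
    exact mul_le_mul_of_nonneg_right h2.le (abs_nonneg _)
  let D' : ℝ → E := fun r => D (projIcc 0 1 zero_le_one r)
  have hD' : Continuous D' :=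
    hc.comp_continuous (continuous_subtype_val.comp continuous_projIcc) fun r => Subtype.prop _
  have hDe : ∀ t ∈ Icc (0 : ℝ) 1, D' t = D t := fun t ht => by
    simp only [D', projIcc_of_mem zero_le_one ht]
  have hd : ∀ t, HasDerivAt (fun t => f 0 + ∫ r in (0 : ℝ)..t, D' r) (D' t) t := fun t =>
    (hD'.integral_hasStrictDerivAt 0 t).hasDerivAt.const_add (f 0)
  have hder : deriv (fun t => f 0 + ∫ r in (0 : ℝ)..t, D' r) = D' := funext fun t => (hd t).deriv
  refine ⟨fun t => f 0 + ∫ r in (0 : ℝ)..t, D' r, contDiff_one_iff_deriv.2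
    ⟨fun t => (hd t).differentiableAt, hder.symm ▸ hD'⟩, fun t ht => ⟨?_, hder.symm ▸ hDe t ht⟩⟩
  refine eq_of_has_deriv_right_eq (f' := D) (fun x hx => ?_) (fun x hx => ?_)
    (fun x _ => (hd x).continuousAt.continuousWithinAt)
    (fun x hx => (hf x hx).continuousWithinAt) (by simp) t ht
  · exact hDe x (Ico_subset_Icc_self hx) ▸ (hd x).hasDerivWithinAt
  · exact (hf x (Ico_subset_Icc_self hx)).mono_of_mem_nhdsWithin (Icc_mem_nhdsGE_of_mem hx)

end Pool.Agent.Lib.MP_da270e_gt.SA
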