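import Pool.Agent.Lib.MP_da270e_gt.SA.Quad

/-!
A set of directions of diameter less than `4π/5` lies where a product of three linear forms is positive.
-/

set_option autoImplicit false
set_option maxSynthPendingDepth 3

namespace Pool.Agent.Lib.MP_da270e_gt.SA

open Set Real
open scoped ContDiff

theorem inf_sep59 {A : Set ℝ} (hA : A.Nonempty) (hb : A ⊆ Icc 0 π) {x δ : ℝ}
    (h : ∀ a ∈ A, δ ≤ |x - a|) : δ ≤ |x - sInf A| :=
  closure_minimal (t := {a | δ ≤ |x - a|}) h (isClosed_le continuous_const (by fun_prop))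
    (csInf_mem_closure hA ⟨0, fun _ ha => (hb ha).1⟩)

theorem sin_eq59 {x : ℝ} (h1 : -π < x) (h2 : x < π) : ∃ c, 0 < c ∧ sin x = c * x := by
  rcases lt_trichotomy x 0 with h | rfl | h
  · exact ⟨sin x / x, div_pos_of_neg_of_neg (sin_neg_of_neg_of_neg_pi_lt h h1) h,
      (div_mul_cancel₀ _ h.ne).symm⟩
  · exact ⟨1, one_pos, by simp⟩
  · exact ⟨sin x / x, div_pos (sin_pos_of_pos_of_lt_pi h h2) h, (div_mul_cancel₀ _ h.ne').symm⟩

/-- `b₁ = inf N ≥ δ`, `s₁ = b₁ - δ / 2`. If no point of `P` is above `b₁` take `s₁` three times.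
Else `b₂ = inf (P above b₁) ≥ b₁ + δ`, `b₃ = inf (N above b₂) ≥ b₂ + δ`, `sᵢ = bᵢ - δ / 2`; a point
of `P` above `b₃` would be `≥ 4 δ` and `≤ π - δ`. (A point of `P` is at distance `≥ δ` from an
infimum of points of `N`, and conversely.) -/
theorem line3 {P N : Set ℝ} {δ : ℝ} (hδ : π / 5 < δ) (hP : P ⊆ Icc 0 π) (hN : N ⊆ Icc 0 π)
    (h0 : (0 : ℝ) ∈ P) (h1 : π ∈ N) (h : ∀ p ∈ P, ∀ n ∈ N, δ ≤ |p - n|) :
    ∃ s₁ s₂ s₃ : ℝ, s₁ ∈ Ioo 0 π ∧ s₂ ∈ Ioo 0 π ∧ s₃ ∈ Ioo 0 π ∧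
      (∀ p ∈ P, 0 < (s₁ - p) * (s₂ - p) * (s₃ - p)) ∧
      ∀ n ∈ N, (s₁ - n) * (s₂ - n) * (s₃ - n) < 0 := by
  have hπ := pi_pos
  have bdd : ∀ {A : Set ℝ}, A ⊆ Icc 0 π → BddBelow A := fun hA => ⟨0, fun _ ha => (hA ha).1⟩
  have a1 : ∀ p ∈ P, δ ≤ |p - sInf N| := fun p hp => inf_sep59 ⟨π, h1⟩ hN (h p hp)
  have a2 : ∀ n ∈ N, sInf N ≤ n := fun n hn => csInf_le (bdd hN) hn
  have a3 : 0 ≤ sInf N := le_csInf ⟨π, h1⟩ fun n hn => (hN hn).1
  have a4 : δ ≤ sInf N := by simpa [abs_of_nonneg a3] using a1 0 h0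
  have a5 := a2 π h1
  set b₁ := sInf N
  by_cases hc : ∃ p ∈ P, b₁ < p
  · have hne : (P ∩ Ioi b₁).Nonempty := hc
    have hs : P ∩ Ioi b₁ ⊆ Icc 0 π := inter_subset_left.trans hP
    have c1 : ∀ n ∈ N, δ ≤ |n - sInf (P ∩ Ioi b₁)| := fun n hn =>
      inf_sep59 hne hs fun p hp => abs_sub_comm p n ▸ h p hp.1 n hn
    have c2 : ∀ p ∈ P, b₁ < p → sInf (P ∩ Ioi b₁) ≤ p := fun p hp hp' => csInf_le (bdd hs) ⟨hp, hp'⟩
    have c3 : b₁ + δ ≤ sInf (P ∩ Ioi b₁) := le_csInf hne fun p hp => by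
      have := a1 p hp.1
      rw [abs_of_pos (sub_pos.2 hp.2)] at this
      linarith
    have c4 : sInf (P ∩ Ioi b₁) ≤ π := by
      obtain ⟨p, hp, hp'⟩ := hc
      exact (c2 p hp hp').trans (hP hp).2
    set b₂ := sInf (P ∩ Ioi b₁)
    have c5 : b₂ ≤ π - δ := by
      have := c1 π h1
      rw [abs_of_nonneg (sub_nonneg.2 c4)] at this
      linarith
    have hπ' : π ∈ N ∩ Ioi b₂ := ⟨h1, show b₂ < π by linarith⟩
    have hs' : N ∩ Ioi b₂ ⊆ Icc 0 π := inter_subset_left.trans hN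
    have d1 : ∀ p ∈ P, δ ≤ |p - sInf (N ∩ Ioi b₂)| := fun p hp =>
      inf_sep59 ⟨π, hπ'⟩ hs' fun n hn => h p hp n hn.1
    have d2 : ∀ n ∈ N, b₂ < n → sInf (N ∩ Ioi b₂) ≤ n := fun n hn hn' =>
      csInf_le (bdd hs') ⟨hn, hn'⟩
    have d3 : b₂ + δ ≤ sInf (N ∩ Ioi b₂) := le_csInf ⟨π, hπ'⟩ fun n hn => by
      have := c1 n hn.1
      rw [abs_of_pos (sub_pos.2 hn.2)] at this
      linarith
    have d4 := d2 π h1 hπ'.2
    set b₃ := sInf (N ∩ Ioi b₂)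
    refine ⟨b₁ - δ / 2, b₂ - δ / 2, b₃ - δ / 2, ⟨by linarith, by linarith⟩,
      ⟨by linarith, by linarith⟩, ⟨by linarith, by linarith⟩, fun p hp => ?_, fun n hn => ?_⟩
    · rcases le_abs'.1 (a1 p hp) with e | e
      · exact mul_pos (mul_pos (by linarith) (by linarith)) (by linarith)
      · have e2 := c2 p hp (by linarith)
        rcases le_abs'.1 (d1 p hp) with e3 | e3
        · exact mul_pos (mul_pos_of_neg_of_neg (by linarith) (by linarith)) (by linarith)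
        · rcases le_abs'.1 (h p hp π h1) with e4 | e4
          · linarith
          · linarith [(hP hp).2]
    · have e1 := a2 n hn
      rcases le_abs'.1 (c1 n hn) with e | e
      · exact mul_neg_of_neg_of_pos (mul_neg_of_neg_of_pos (by linarith) (by linarith))
          (by linarith)
      · have e2 := d2 n hn (by linarith)
        exact mul_neg_of_pos_of_neg (mul_pos_of_neg_of_neg (by linarith) (by linarith))
          (by linarith)
  · push Not at hc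
    refine ⟨b₁ - δ / 2, b₁ - δ / 2, b₁ - δ / 2, ⟨by linarith, by linarith⟩,
      ⟨by linarith, by linarith⟩, ⟨by linarith, by linarith⟩, fun p hp => ?_, fun n hn => ?_⟩
    · have e1 := hc p hp
      rcases le_abs'.1 (a1 p hp) with e | e
      · exact mul_pos (mul_pos (by linarith) (by linarith)) (by linarith)
      · linarith
    · have e1 := a2 n hn
      exact mul_neg_of_pos_of_neg (mul_pos_of_neg_of_neg (by linarith) (by linarith))
        (by linarith)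

/-- `P = {t ∈ [0, π] | (cos t, sin t) = (cos φ, sin φ) for some φ ∈ S}`, `N` the same with the
opposite point, `δ = π - arccos μ`; every `φ` has `(cos φ, sin φ) = ± (cos t, sin t)` with
`t ∈ [0, π]`; `sin (s - t)` has the sign of `s - t` for `|s - t| < π` -/
theorem circle3 {S : Set ℝ} {μ : ℝ} (hμ : cos (4 * π / 5) < μ) (h0 : (0 : ℝ) ∈ S)
    (h : ∀ φ ∈ S, ∀ ψ ∈ S, μ ≤ cos (φ - ψ)) :
    ∃ s₁ s₂ s₃ : ℝ, ∀ φ ∈ S, 0 < sin (s₁ - φ) * sin (s₂ - φ) * sin (s₃ - φ) := by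
  have hπ := pi_pos
  have hμ1 : μ ≤ 1 := by simpa using h 0 h0 0 h0
  have hμ0 : -1 ≤ μ := (neg_one_le_cos _).trans hμ.le
  have ha : arccos μ < 4 * π / 5 := by
    have := arccos_lt_arccos (neg_one_le_cos _) hμ hμ1
    rwa [arccos_cos (by linarith) (by linarith)] at this
  obtain ⟨s₁, s₂, s₃, m1, m2, m3, hP, hN⟩ := line3 (δ := π - arccos μ)
    (P := {t | t ∈ Icc 0 π ∧ ∃ φ ∈ S, cos t = cos φ ∧ sin t = sin φ})
    (N := {t | t ∈ Icc 0 π ∧ ∃ φ ∈ S, cos t = -cos φ ∧ sin t = -sin φ}) (by linarith)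
    (fun _ ht => ht.1) (fun _ ht => ht.1) ⟨⟨le_rfl, hπ.le⟩, 0, h0, rfl, rfl⟩
    ⟨⟨hπ.le, le_rfl⟩, 0, h0, by simp, by simp⟩ (by
      rintro p ⟨hp, φ, hφ, p1, p2⟩ n ⟨hn, ψ, hψ, n1, n2⟩
      by_contra hlt
      have e1 := cos_lt_cos_of_nonneg_of_le_pi (abs_nonneg (p - n))
        (by linarith [arccos_nonneg μ]) (not_le.1 hlt)
      have e2 := h φ hφ ψ hψ
      rw [cos_pi_sub, cos_arccos hμ0 hμ1, cos_abs, cos_sub, p1, p2, n1, n2] at e1
      rw [cos_sub] at e2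
      linarith)
  have key : ∀ t ∈ Icc 0 π, ∃ c, 0 < c ∧ sin (s₁ - t) * sin (s₂ - t) * sin (s₃ - t) =
      c * ((s₁ - t) * (s₂ - t) * (s₃ - t)) := by
    intro t ht
    obtain ⟨c1, p1, e1⟩ := sin_eq59 (x := s₁ - t) (by linarith [m1.1, ht.2]) (by linarith [m1.2, ht.1])
    obtain ⟨c2, p2, e2⟩ := sin_eq59 (x := s₂ - t) (by linarith [m2.1, ht.2]) (by linarith [m2.2, ht.1])
    obtain ⟨c3, p3, e3⟩ := sin_eq59 (x := s₃ - t) (by linarith [m3.1, ht.2]) (by linarith [m3.2, ht.1])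
    exact ⟨c1 * c2 * c3, by positivity, by rw [e1, e2, e3]; ring⟩
  refine ⟨s₁, s₂, s₃, fun φ hφ => ?_⟩
  have hsq : √(1 - cos φ ^ 2) = |sin φ| := by rw [← sin_sq, sqrt_sq_eq_abs]
  rcases le_total 0 (sin φ) with hs | hs
  · have ht : arccos (cos φ) ∈ Icc 0 π := ⟨arccos_nonneg _, arccos_le_pi _⟩
    have t1 := cos_arccos (neg_one_le_cos φ) (cos_le_one φ)
    have t2 : sin (arccos (cos φ)) = sin φ := by rw [sin_arccos, hsq, abs_of_nonneg hs]
    obtain ⟨c, hc, e⟩ := key _ ht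
    have := mul_pos hc (hP _ ⟨ht, φ, hφ, t1, t2⟩)
    rw [← e] at this
    simpa only [sin_sub, t1, t2] using this
  · have ht : arccos (-cos φ) ∈ Icc 0 π := ⟨arccos_nonneg _, arccos_le_pi _⟩
    have t1 := cos_arccos (x := -cos φ) (by linarith [cos_le_one φ]) (by linarith [neg_one_le_cos φ])
    have t2 : sin (arccos (-cos φ)) = -sin φ := by
      rw [sin_arccos, neg_sq, hsq, abs_of_nonpos hs]
    obtain ⟨c, hc, e⟩ := key _ ht
    have := mul_neg_of_pos_of_neg hc (hN _ ⟨ht, φ, hφ, t1, t2⟩)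
    rw [← e] at this
    simp only [sin_sub, t1, t2] at this ⊢
    linarith

/-- a basis of the tangent plane that is orthonormal for `g y` -/
theorem gbasis_p3 {g : Met} (hg : IsMetric g) {y : E} (hy : ‖y‖ = 1) :
    ∃ a b : E, g y a a = 1 ∧ g y b b = 1 ∧ g y a b = 0 ∧
      ∀ u : E, inner ℝ y u = 0 → ∃ x z : ℝ, u = x • a + z • b := by
  have hk : ∃ k : Fin 3, y k ^ 2 < 1 := by
    have h2 : inner ℝ y y = (1 : ℝ) := by rw [real_inner_self_eq_norm_sq, hy]; norm_num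
    rw [inner_coord] at h2
    by_cases h0 : y 0 ^ 2 < 1
    · exact ⟨0, h0⟩
    · exact ⟨1, by nlinarith [sq_nonneg (y 2)]⟩
  obtain ⟨k, hk⟩ := hk
  obtain ⟨f₁, f₂, n₁, n₂, t₁, t₂, o, -, -⟩ := frame hy k hk
  have hA : 0 < g y f₁ f₁ := hg.2.2 y f₁ hy t₁ (by rintro rfl; simp at n₁)
  set r := √(g y f₁ f₁) with hr
  have r0 : 0 < r := Real.sqrt_pos.2 hA
  have r2 : r * r = g y f₁ f₁ := Real.mul_self_sqrt hA.le
  set a : E := r⁻¹ • f₁ with ha
  have haa : g y a a = 1 := by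
    simp only [ha, map_smul, smul_apply, smul_eq_mul, ← r2]
    field_simp
  set c := g y a f₂ with hc
  set b' : E := f₂ - c • a with hb'
  have tb : inner ℝ y b' = 0 := by
    rw [hb', ha, inner_sub_right, inner_smul_right, inner_smul_right, t₁, t₂]; simp
  have nb : b' ≠ 0 := by
    intro h0
    have h1 : inner ℝ b' f₂ = (1 : ℝ) := by
      rw [hb', ha, inner_sub_left, real_inner_smul_left, real_inner_smul_left, o,
        real_inner_self_eq_norm_sq, n₂]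
      simp
    rw [h0] at h1
    simp at h1
  have hB : 0 < g y b' b' := hg.2.2 y b' hy tb nb
  set q := √(g y b' b') with hq
  have q0 : 0 < q := Real.sqrt_pos.2 hB
  have q2 : q * q = g y b' b' := Real.mul_self_sqrt hB.le
  have hab : g y a b' = 0 := by
    rw [hb', map_sub, (g y a).map_smul, haa, ← hc]; simp
  refine ⟨a, q⁻¹ • b', haa, ?_, ?_, fun u hu => ?_⟩
  · simp only [map_smul, smul_apply, smul_eq_mul, ← q2]
    field_simp
  · rw [(g y a).map_smul, hab]; simp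
  · refine ⟨inner ℝ f₁ u * r + inner ℝ f₂ u * c, inner ℝ f₂ u * q, ?_⟩
    have e₁ : f₁ = r • a := by rw [ha, smul_smul, mul_inv_cancel₀ r0.ne', one_smul]
    have e₂ : f₂ = b' + c • a := by rw [hb']; simp
    have e₃ : (inner ℝ f₂ u * q) • q⁻¹ • b' = inner ℝ f₂ u • b' := by
      rw [smul_smul, mul_assoc, mul_inv_cancel₀ q0.ne', mul_one]
    have e := span3 hy n₁ n₂ t₁ t₂ o hu
    rw [e₃]
    generalize inner ℝ f₁ u = x at e ⊢
    generalize inner ℝ f₂ u = z at e ⊢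
    rw [e]
    conv_lhs => rw [e₁, e₂]
    module

theorem polar_p3 {x z L : ℝ} (hL : 0 < L) (h : x ^ 2 + z ^ 2 = L ^ 2) :
    ∃ φ : ℝ, x = L * cos φ ∧ z = L * sin φ := by
  have hn : ‖(⟨x, z⟩ : ℂ)‖ = L := by
    rw [Complex.norm_eq_sqrt_sq_add_sq]
    simp only
    rw [h, Real.sqrt_sq hL.le]
  refine ⟨Complex.arg ⟨x, z⟩, ?_, ?_⟩
  · have := Complex.norm_mul_cos_arg (⟨x, z⟩ : ℂ)
    rw [hn] at this
    exact this.symm
  · have := Complex.norm_mul_sin_arg (⟨x, z⟩ : ℂ)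
    rw [hn] at this
    exact this.symm

/-- A basis `a = v₀ / L`, `b` of the tangent plane, orthonormal for `g y` (Gram-Schmidt from
`y × v₀`, or from `frame`/`span3`); every `v ∈ D` is `L (cos φ a + sin φ b)`; the form
`v ↦ g y (sin s a - cos s b) v = L sin (s - φ)` is an inner product with a vector
(`InnerProductSpace.toDual` or `rz`, `inner_rz`). -/
theorem plane3 {g : Met} (hg : IsMetric g) {y : E} (hy : ‖y‖ = 1) {D : Set E} {L μ : ℝ}
    (hL : 0 < L) (hne : D.Nonempty) (ht : ∀ v ∈ D, inner ℝ y v = 0)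
    (hn : ∀ v ∈ D, g y v v = L ^ 2) (hμ : cos (4 * π / 5) < μ)
    (h : ∀ v ∈ D, ∀ w ∈ D, μ * L ^ 2 ≤ g y v w) : ∃ α : Fin 3 → E, ∀ v ∈ D, 0 < cub α v := by
  obtain ⟨a, b, haa, hbb, hab, hsp⟩ := gbasis_p3 hg hy
  have hba : g y b a = 0 := by rw [hg.2.1, hab]
  have hgg : ∀ x z x' z' : ℝ, g y (x • a + z • b) (x' • a + z' • b) = x * x' + z * z' := by
    intro x z x' z'
    simp only [map_add, map_smul, add_apply, smul_apply,
      smul_eq_mul, haa, hbb, hab, hba]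
    ring
  have hpol : ∀ v ∈ D, ∃ φ : ℝ, v = (L * cos φ) • a + (L * sin φ) • b := by
    intro v hv
    obtain ⟨x, z, rfl⟩ := hsp v (ht v hv)
    have h1 := hn _ hv
    rw [hgg] at h1
    obtain ⟨φ, h2, h3⟩ := polar_p3 (x := x) (z := z) hL (by rw [← h1]; ring)
    exact ⟨φ, by rw [← h2, ← h3]⟩
  obtain ⟨v₀, hv₀⟩ := hne
  obtain ⟨φ₀, e₀⟩ := hpol v₀ hv₀
  have L2 : 0 < L ^ 2 := by positivity
  obtain ⟨s₁, s₂, s₃, hs⟩ := circle3
    (S := {φ | (L * cos (φ + φ₀)) • a + (L * sin (φ + φ₀)) • b ∈ D}) hμ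
    (by simp only [mem_ofPred_eq, zero_add]; rw [← e₀]; exact hv₀) (by
      intro φ hφ ψ hψ
      have h1 := h _ hφ _ hψ
      rw [hgg] at h1
      have e : φ - ψ = (φ + φ₀) - (ψ + φ₀) := by ring
      rw [e, cos_sub]
      refine le_of_mul_le_mul_right ?_ L2
      linarith)
  have hform : ∀ s : ℝ, ∃ α : E, ∀ φ : ℝ,
      inner ℝ α ((L * cos φ) • a + (L * sin φ) • b) = L * sin (s - (φ - φ₀)) := by
    intro s
    refine ⟨rz ((g y (sin (s + φ₀) • a + (-cos (s + φ₀)) • b) : E →L[ℝ] ℝ) : E →ₗ[ℝ] ℝ),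
      fun φ => ?_⟩
    rw [inner_rz, ContinuousLinearMap.coe_coe, hgg]
    have e : s - (φ - φ₀) = (s + φ₀) - φ := by ring
    rw [e, sin_sub]
    ring
  obtain ⟨α₁, h₁⟩ := hform s₁
  obtain ⟨α₂, h₂⟩ := hform s₂
  obtain ⟨α₃, h₃⟩ := hform s₃
  refine ⟨![α₁, α₂, α₃], fun v hv => ?_⟩
  obtain ⟨φ, e⟩ := hpol v hv
  have h1 := hs (φ - φ₀) (by simp only [mem_ofPred_eq, sub_add_cancel]; rw [← e]; exact hv)
  have e2 : cub ![α₁, α₂, α₃] v =
      L ^ 3 * (sin (s₁ - (φ - φ₀)) * sin (s₂ - (φ - φ₀)) * sin (s₃ - (φ - φ₀))) := by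
    change inner ℝ α₁ v * inner ℝ α₂ v * inner ℝ α₃ v = _
    rw [e, h₁, h₂, h₃]
    ring
  rw [e2]
  positivity

end Pool.Agent.Lib.MP_da270e_gt.SA
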