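import Pool.Agent.Lib.MP_da270e_gt.SA.Base

/-!
Paths, lengths and the triangle inequality.
-/

set_option autoImplicit false
set_option maxSynthPendingDepth 3

namespace Pool.Agent.Lib.MP_da270e_gt.SA

open Set Real
open scoped ContDiff

variable {g : Met}

theorem len_nonneg_p61 (g : Met) (c : ℝ → E) : 0 ≤ len g c :=
  intervalIntegral.integral_nonneg zero_le_one fun _ _ => sqrt_nonneg _

theorem rho_nonneg (g : Met) (a b : E) : 0 ≤ rho g a b := by
  refine Real.sInf_nonneg ?_
  rintro L ⟨c, -, rfl⟩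
  exact len_nonneg_p61 g c

theorem rho_le_len {c : ℝ → E} {a b : E} (h : IsPath c a b) : rho g a b ≤ len g c := by
  refine csInf_le ⟨0, ?_⟩ ⟨c, h, rfl⟩
  rintro L ⟨c, -, rfl⟩
  exact len_nonneg_p61 g c

/-- any two points lie on a great circle arc of angle at most `π` (`exists_arc`; for `q = ± a`
take `b` from `frame`, one of the coordinates of `a` has square `< 1`); chord `= 2 sin (α / 2)` -/
theorem exists_arc' {a q : E} (ha : ‖a‖ = 1) (hq : ‖q‖ = 1) :
    ∃ (b : E) (α : ℝ), ‖b‖ = 1 ∧ inner ℝ a b = 0 ∧ 0 ≤ α ∧ α ≤ π ∧ arc a b α = q ∧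
      α ≤ 2 * ‖q - a‖ := by
  have hz : |inner ℝ a q| ≤ 1 := by
    have := abs_real_inner_le_norm a q
    rwa [ha, hq, mul_one] at this
  obtain ⟨hz1, hz2⟩ := abs_le.1 hz
  have h1 := one_sub_inner ha hq
  have hb : ∃ b : E, ‖b‖ = 1 ∧ inner ℝ a b = 0 ∧ arc a b (arccos (inner ℝ a q)) = q := by
    rcases lt_or_ge (inner ℝ a q ^ 2) (1 : ℝ) with h | h
    · obtain ⟨b, b1, b2, b3, -⟩ := exists_arc ha hq h
      exact ⟨b, b1, b2, b3⟩
    · have ha2 : inner ℝ a a = (1 : ℝ) := by rw [real_inner_self_eq_norm_sq, ha]; norm_num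
      rw [inner_coord] at ha2
      have hk : ∃ k : Fin 3, a k ^ 2 < 1 := by
        by_contra hn
        push Not at hn
        nlinarith [hn 0, hn 1, hn 2]
      obtain ⟨k, hk⟩ := hk
      obtain ⟨b, -, b1, -, b2, -⟩ := frame ha k hk
      refine ⟨b, b1, b2, ?_⟩
      have hs : 1 - inner ℝ a q ^ 2 = (0 : ℝ) := by nlinarith
      rw [arc, cos_arccos hz1 hz2, sin_arccos, hs, sqrt_zero, zero_smul, add_zero, eq_comm,
        ← sub_eq_zero, ← norm_eq_zero, ← pow_eq_zero_iff two_ne_zero, norm_sub_sq_real, hq,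
        inner_smul_right, real_inner_comm a q, norm_smul, ha, mul_one, Real.norm_eq_abs, sq_abs]
      linarith
  obtain ⟨b, b1, b2, b3⟩ := hb
  refine ⟨b, _, b1, b2, arccos_nonneg _, arccos_le_pi _, b3, ?_⟩
  have h2 := Real.cos_le_one_sub_mul_cos_sq (x := arccos (inner ℝ a q))
    (by rw [abs_of_nonneg (arccos_nonneg _)]; exact arccos_le_pi _)
  rw [cos_arccos hz1 hz2] at h2
  have h3 : (1 : ℝ) / 8 ≤ 2 / π ^ 2 := by
    rw [div_le_div_iff₀ (by norm_num) (by positivity)]
    nlinarith [pi_le_four, pi_pos]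
  have h4 := mul_le_mul_of_nonneg_right h3 (sq_nonneg (arccos (inner ℝ a q)))
  rw [norm_sub_rev] at h1
  refine abs_le_of_sq_le_sq' ?_ (by positivity) |>.2
  nlinarith

theorem exists_path {a q : E} (ha : ‖a‖ = 1) (hq : ‖q‖ = 1) : ∃ c, IsPath c a q := by
  obtain ⟨b, α, b1, b2, h0, -, h, -⟩ := exists_arc' ha hq
  exact ⟨_, h ▸ (arc_path 0 ha b1 b2 h0).1⟩

theorem exists_near (g : Met) {a q : E} (ha : ‖a‖ = 1) (hq : ‖q‖ = 1) {ε : ℝ} (hε : 0 < ε) :
    ∃ c, IsPath c a q ∧ len g c ≤ rho g a q + ε := by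
  obtain ⟨c, hc⟩ := exists_path ha hq
  obtain ⟨L, ⟨c', h1, rfl⟩, h2⟩ := Real.lt_sInf_add_pos
    (s := {L | ∃ c, IsPath c a q ∧ len g c = L}) ⟨_, c, hc, rfl⟩ hε
  exact ⟨c', h1, h2.le⟩

theorem pth_sqrt_smul (g : Met) (p w : E) {a : ℝ} (ha : 0 ≤ a) :
    √(g p (a • w) (a • w)) = a * √(g p w w) := by
  have e : g p (a • w) (a • w) = a * a * g p w w := by
    simp only [map_smul, ContinuousLinearMap.smul_apply, smul_eq_mul]; ring
  rw [e, sqrt_mul (mul_self_nonneg a), sqrt_mul_self ha]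

/-- copy the proof of `concat` in `Diam.lean`; `√(g p (a • w) (a • w)) = a * √(g p w w)` for
`0 ≤ a` -/
theorem concat_len (hg : IsMetric g) {c₁ c₂ : ℝ → E} {p m q : E} (h₁ : IsPath c₁ p m)
    (h₂ : IsPath c₂ m q) : ∃ c, IsPath c p q ∧ len g c = len g c₁ + len g c₂ := by
  obtain ⟨s₁, u₁, a₁, b₁⟩ := h₁
  obtain ⟨s₂, u₂, a₂, b₂⟩ := h₂
  have hσ : ContDiff ℝ 1 smoothTransition := smoothTransition.contDiff
  have hσd : ∀ x, HasDerivAt smoothTransition (deriv smoothTransition x) x := fun x =>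
    (hσ.differentiable one_ne_zero x).hasDerivAt
  have hσc : Continuous (deriv smoothTransition) := hσ.continuous_deriv le_rfl
  have hmem : ∀ x, smoothTransition x ∈ Icc (0 : ℝ) 1 := fun x =>
    ⟨smoothTransition.nonneg x, smoothTransition.le_one x⟩
  have d₁ : ∀ x, HasDerivAt c₁ (deriv c₁ x) x := fun x =>
    (s₁.differentiable one_ne_zero x).hasDerivAt
  have d₂ : ∀ x, HasDerivAt c₂ (deriv c₂ x) x := fun x =>
    (s₂.differentiable one_ne_zero x).hasDerivAt
  have t₁ : ∀ t, HasDerivAt (fun t => smoothTransition (2 * t))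
      (deriv smoothTransition (2 * t) * 2) t := fun t => by
    exact ((hσd (2 * t)).comp t ((hasDerivAt_id t).const_mul 2)).congr_deriv (by simp)
  have t₂ : ∀ t, HasDerivAt (fun t => smoothTransition (2 * t - 1))
      (deriv smoothTransition (2 * t - 1) * 2) t := fun t => by
    have := (hσd (2 * t - 1)).comp t (((hasDerivAt_id t).const_mul 2).sub_const 1)
    exact this.congr_deriv (by simp)
  set c : ℝ → E := fun t => c₁ (smoothTransition (2 * t)) + c₂ (smoothTransition (2 * t - 1)) - m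
    with hc
  have hcd : ∀ t, deriv c t =
      (deriv smoothTransition (2 * t) * 2) • deriv c₁ (smoothTransition (2 * t)) +
      (deriv smoothTransition (2 * t - 1) * 2) • deriv c₂ (smoothTransition (2 * t - 1)) :=
    fun t => ((((d₁ _).scomp t (t₁ t)).add ((d₂ _).scomp t (t₂ t))).sub_const m).deriv
  have l₁ : ∀ t, t ≤ 1 / 2 → c t = c₁ (smoothTransition (2 * t)) := fun t ht => by
    simp only [hc]
    rw [smoothTransition.zero_of_nonpos (by linarith : 2 * t - 1 ≤ 0), a₂]; abel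
  have l₂ : ∀ t, 1 / 2 ≤ t → c t = c₂ (smoothTransition (2 * t - 1)) := fun t ht => by
    simp only [hc]
    rw [smoothTransition.one_of_one_le (by linarith : 1 ≤ 2 * t), b₁]; abel
  have hsm : ContDiff ℝ 1 c := by
    refine ContDiff.sub (ContDiff.add (s₁.comp (hσ.comp ?_)) (s₂.comp (hσ.comp ?_))) contDiff_const
    · fun_prop
    · fun_prop
  refine ⟨c, ⟨hsm, fun t _ => ?_, ?_, ?_⟩, ?_⟩
  · rcases le_total t (1 / 2) with h | h
    · rw [l₁ t h]; exact u₁ _ (hmem _)
    · rw [l₂ t h]; exact u₂ _ (hmem _)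
  · rw [l₁ 0 (by norm_num)]; simpa using a₁
  · rw [l₂ 1 (by norm_num)]; norm_num; exact b₂
  · have hf : ∀ {c : ℝ → E}, ContDiff ℝ 1 c →
        Continuous fun t => √(g (c t) (deriv c t) (deriv c t)) := fun {c} h =>
      (((hg.1.continuous.comp h.continuous).clm_apply (h.continuous_deriv le_rfl)).clm_apply
        (h.continuous_deriv le_rfl)).sqrt
    unfold len
    rw [← intervalIntegral.integral_add_adjacent_intervals (b := 1 / 2)
      ((hf hsm).intervalIntegrable _ _) ((hf hsm).intervalIntegrable _ _)]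
    congr 1
    · have := intervalIntegral.integral_comp_mul_deriv (a := 0) (b := 1 / 2)
        (fun t _ => t₁ t) (by fun_prop) (hf s₁)
      norm_num at this
      rw [← this]
      refine intervalIntegral.integral_congr fun t ht => ?_
      have ht' : t ≤ 1 / 2 := by
        rw [uIcc_of_le (by norm_num)] at ht; exact ht.2
      rw [hcd t, l₁ t ht', deriv_st_left (by linarith : 2 * t - 1 ≤ 0), zero_mul, zero_smul,
        add_zero, pth_sqrt_smul g _ _ (mul_nonneg (deriv_st_nonneg _) zero_le_two)]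
      ring
    · have := intervalIntegral.integral_comp_mul_deriv (a := 1 / 2) (b := 1)
        (fun t _ => t₂ t) (by fun_prop) (hf s₂)
      norm_num at this
      rw [← this]
      norm_num
      refine intervalIntegral.integral_congr fun t ht => ?_
      have ht' : 1 / 2 ≤ t := by
        rw [uIcc_of_le (by norm_num)] at ht; exact ht.1
      rw [hcd t, l₂ t ht', deriv_st_right (by linarith : 1 ≤ 2 * t), zero_mul, zero_smul,
        zero_add, pth_sqrt_smul g _ _ (mul_nonneg (deriv_st_nonneg _) zero_le_two)]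
      ring

theorem rho_tri (hg : IsMetric g) {p q r : E} (hp : ‖p‖ = 1) (hq : ‖q‖ = 1) (hr : ‖r‖ = 1) :
    rho g p r ≤ rho g p q + rho g q r := by
  refine le_of_forall_pos_le_add fun ε hε => ?_
  obtain ⟨c₁, h₁, l₁⟩ := exists_near g hp hq (half_pos hε)
  obtain ⟨c₂, h₂, l₂⟩ := exists_near g hq hr (half_pos hε)
  obtain ⟨c, hc, l⟩ := concat_len hg h₁ h₂
  have := rho_le_len (g := g) hc
  linarith

/-- `rho_le` for `τ ↦ c (s + τ (t - s))`, then the affine substitution -/
theorem rho_sub (hg : IsMetric g) {c : ℝ → E} (hc : ContDiff ℝ 1 c) {s t : ℝ} (hst : s ≤ t)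
    (hu : ∀ r ∈ Icc s t, ‖c r‖ = 1) :
    rho g (c s) (c t) ≤ ∫ r in s..t, √(g (c r) (deriv c r) (deriv c r)) := by
  have _ := hg
  have h0 : 0 ≤ t - s := sub_nonneg.2 hst
  have hd : ∀ τ, HasDerivAt (fun τ => c (s + (t - s) * τ))
      ((t - s) • deriv c (s + (t - s) * τ)) τ := fun τ => by
    have := (hc.differentiable one_ne_zero (s + (t - s) * τ)).hasDerivAt.scomp τ
      (((hasDerivAt_id τ).const_mul (t - s)).const_add s)
    exact this.congr_deriv (by simp)
  have hcd : Continuous (deriv c) := hc.continuous_deriv le_rfl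
  have h := rho_le g (fun τ _ => hd τ) (by fun_prop) fun τ hτ =>
    hu _ ⟨by nlinarith [hτ.1], by nlinarith [hτ.2]⟩
  have e : ∀ p w : E, √(g p ((t - s) • w) ((t - s) • w)) = (t - s) * √(g p w w) := fun p w => by
    rw [map_smul, map_smul, smul_apply, smul_eq_mul, smul_eq_mul, ← mul_assoc,
      Real.sqrt_mul (mul_self_nonneg _), sqrt_mul_self h0]
  simp only [e, mul_zero, add_zero, mul_one, add_sub_cancel] at h
  rw [intervalIntegral.integral_const_mul, intervalIntegral.mul_integral_comp_add_mul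
    (f := fun r => √(g (c r) (deriv c r) (deriv c r)))] at h
  simpa using h

theorem rho_arc (hg : IsMetric g) {a b : E} (ha : ‖a‖ = 1) (hb : ‖b‖ = 1) (hab : inner ℝ a b = 0)
    {α : ℝ} (hα : 0 ≤ α) : rho g a (arc a b α) ≤
      ∫ r in (0 : ℝ)..α, √(g (arc a b r) (arc b (-a) r) (arc b (-a) r)) := by
  have hc : ContDiff ℝ 1 (arc a b) := by unfold arc; fun_prop
  have h := rho_sub hg hc hα fun r _ => norm_arc ha hb hab r
  have e : ∀ r, deriv (arc a b) r = arc b (-a) r := fun r => by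
    rw [(hasDerivAt_arc a b r).deriv, arc, neg_smul, smul_neg, add_comm]
  have e0 : arc a b 0 = a := by simp [arc]
  simpa only [e, e0] using h

end Pool.Agent.Lib.MP_da270e_gt.SA
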