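import Pool.Agent.Lib.MP_da270e_gt.SA.Quad
import Pool.Agent.Lib.MP_da270e_gt.SA.Path

/-!
The distance is close to the frozen norm at small scales.
-/

set_option autoImplicit false
set_option maxSynthPendingDepth 3

namespace Pool.Agent.Lib.MP_da270e_gt.SA

open Set Real
open scoped ContDiff

variable {g : Met} {m M C : ℝ}

theorem Bd.le_cmpa (hb : Bd g m M C) {z : E} (hz : ‖z‖ = 1) : m ≤ M := by
  have := (hb.lo z z hz).trans (hb.hi z z hz)
  rwa [hz, mul_one, mul_one] at this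

theorem le_rho_cmpa {p q : E} (hp : ‖p‖ = 1) (hq : ‖q‖ = 1) {a : ℝ}
    (h : ∀ c, IsPath c p q → a ≤ len g c) : a ≤ rho g p q := by
  obtain ⟨c, hc⟩ := exists_path hp hq
  refine le_csInf ⟨_, c, hc, rfl⟩ ?_
  rintro _ ⟨c', hc', rfl⟩
  exact h c' hc'

theorem len_nonneg_cmpa (g : Met) (c : ℝ → E) : 0 ≤ len g c :=
  intervalIntegral.integral_nonneg zero_le_one fun _ _ => sqrt_nonneg _

theorem speed_cmpa {c : ℝ → E} {p q : E} (h : IsPath c p q) {t : ℝ} (ht : t ∈ Icc (0 : ℝ) 1) :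
    √(g (c t) (deriv c t) (deriv c t)) = NG g (c t) (deriv c t) :=
  (NG_tang (h.tang ht)).symm

/-- a linear form bounded by the speed is bounded by the length -/
theorem form_le_cmpa (hg : IsMetric g) {c : ℝ → E} {p q : E} (h : IsPath c p q)
    (l : E →L[ℝ] ℝ) {K : ℝ} (hK : 0 ≤ K)
    (hl : ∀ r ∈ Icc (0 : ℝ) 1, l (deriv c r) ≤ K * NG g (c r) (deriv c r))
    {t : ℝ} (ht : t ∈ Icc (0 : ℝ) 1) : l (c t - p) ≤ K * len g c := by
  have hc : Continuous c := h.1.continuous
  have hd : Continuous (deriv c) := h.1.continuous_deriv le_rfl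
  have hs : Continuous fun r => K * √(g (c r) (deriv c r) (deriv c r)) :=
    continuous_const.mul
      ((((hg.1.continuous.comp hc).clm_apply hd).clm_apply hd).sqrt)
  have h1 : ∫ r in (0 : ℝ)..t, l (deriv c r) = l (c t) - l (c 0) :=
    intervalIntegral.integral_eq_sub_of_hasDerivAt (f := fun r => l (c r))
      (fun r _ => l.hasFDerivAt.comp_hasDerivAt r (h.1.differentiable one_ne_zero r).hasDerivAt)
      ((l.continuous.comp hd).intervalIntegrable _ _)
  rw [map_sub, ← h.2.2.1, ← h1, len, ← intervalIntegral.integral_const_mul]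
  refine (intervalIntegral.integral_mono_on ht.1 ((l.continuous.comp hd).intervalIntegrable _ _)
    (hs.intervalIntegrable _ _) fun r hr => ?_).trans
    (intervalIntegral.integral_mono_interval le_rfl ht.1 ht.2
      (Filter.Eventually.of_forall fun r => mul_nonneg hK (sqrt_nonneg _))
      (hs.intervalIntegrable _ _))
  have hr' : r ∈ Icc (0 : ℝ) 1 := ⟨hr.1, hr.2.trans ht.2⟩
  rw [speed_cmpa h hr']
  exact hl r hr'

/-- speed `= NG g (c t) (c' t) ≥ m ‖c' t‖` (`IsPath.tang`, `NG_tang`), and the norm of the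
integral of `c'` is at most the integral of the norm -/
theorem len_lo (hg : IsMetric g) (hb : Bd g m M C) {c : ℝ → E} {p q : E} (h : IsPath c p q)
    {t : ℝ} (ht : t ∈ Icc (0 : ℝ) 1) : m * ‖c t - p‖ ≤ len g c := by
  have hm := hb.pos
  have h1 := form_le_cmpa hg h (innerSL ℝ (m • (c t - p))) (norm_nonneg (c t - p))
    (fun r hr => ?_) ht
  · rw [innerSL_apply_apply, real_inner_smul_left, real_inner_self_eq_norm_sq] at h1
    rcases (norm_nonneg (c t - p)).eq_or_lt with h0 | h0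
    · rw [← h0, mul_zero]
      exact len_nonneg_cmpa g c
    · refine le_of_mul_le_mul_left ?_ h0
      linarith
  · rw [innerSL_apply_apply, real_inner_smul_left]
    have h2 := real_inner_le_norm (c t - p) (deriv c r)
    have h3 := hb.lo (c r) (deriv c r) (h.2.1 r hr)
    calc m * inner ℝ (c t - p) (deriv c r) ≤ m * (‖c t - p‖ * ‖deriv c r‖) :=
          mul_le_mul_of_nonneg_left h2 hm.le
      _ = ‖c t - p‖ * (m * ‖deriv c r‖) := by ring
      _ ≤ _ := mul_le_mul_of_nonneg_left h3 (norm_nonneg _)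

theorem rho_lo (hg : IsMetric g) (hb : Bd g m M C) {p q : E} (hp : ‖p‖ = 1) (hq : ‖q‖ = 1) :
    m * ‖q - p‖ ≤ rho g p q := by
  refine le_rho_cmpa hp hq fun c hc => ?_
  have := len_lo hg hb hc (t := 1) ⟨zero_le_one, le_rfl⟩
  rwa [hc.2.2.2] at this

/-- `exists_arc'`, `rho_arc` -/
theorem rho_hi (hg : IsMetric g) (hb : Bd g m M C) {p q : E} (hp : ‖p‖ = 1) (hq : ‖q‖ = 1) :
    rho g p q ≤ 2 * M * ‖q - p‖ := by
  obtain ⟨b, α, hb1, hpb, hα, -, hq', hle⟩ := exists_arc' hp hq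
  have hM : 0 ≤ M := hb.pos.le.trans (hb.le_cmpa hp)
  have h1 := rho_arc hg hp hb1 hpb hα
  rw [hq'] at h1
  have hbp : inner ℝ b p = 0 := by rw [real_inner_comm, hpb]
  have h2 : ‖∫ r in (0 : ℝ)..α, √(g (arc p b r) (arc b (-p) r) (arc b (-p) r))‖ ≤
      M * |α - 0| := by
    refine intervalIntegral.norm_integral_le_of_norm_le_const fun r _ => ?_
    have e1 : inner ℝ (arc p b r) (arc b (-p) r) = 0 := by
      simp only [arc, inner_add_left, inner_add_right, real_inner_smul_left,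
        real_inner_smul_right, inner_neg_right, real_inner_self_eq_norm_sq, hp, hb1, hpb, hbp]
      ring
    have e2 : ‖arc b (-p) r‖ = 1 :=
      norm_arc hb1 (by rw [norm_neg, hp]) (by rw [inner_neg_right, hbp, neg_zero]) r
    have e3 := hb.hi _ (arc b (-p) r) (norm_arc hp hb1 hpb r)
    rw [e2, mul_one, NG_tang e1] at e3
    rwa [Real.norm_eq_abs, abs_of_nonneg (sqrt_nonneg _)]
  rw [sub_zero, abs_of_nonneg hα, Real.norm_eq_abs] at h2
  have h3 := mul_le_mul_of_nonneg_left hle hM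
  linarith [le_abs_self (∫ r in (0 : ℝ)..α, √(g (arc p b r) (arc b (-p) r) (arc b (-p) r)))]

theorem chord_hi24 {p b : E} (hp : ‖p‖ = 1) (hb : ‖b‖ = 1) (hpb : inner ℝ p b = 0) {α s : ℝ}
    (hs : s ∈ Icc 0 α) : ‖α • arc b (-p) s - (arc p b α - p)‖ ≤ α * α := by
  have hn : ‖-p‖ = 1 := by rw [norm_neg, hp]
  have hbp : inner ℝ b (-p) = 0 := by rw [inner_neg_right, real_inner_comm, hpb, neg_zero]
  have hd : ∀ t, HasDerivAt (fun t : ℝ => t • arc b (-p) s - arc p b t)
      (arc b (-p) s - arc b (-p) t) t := fun t => by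
    have h1 := ((hasDerivAt_id t).smul_const (arc b (-p) s)).sub (hasDerivAt_arc p b t)
    have h2 : (-sin t) • p + cos t • b = arc b (-p) t := by
      simp only [arc, smul_neg, neg_smul]
      abel
    rw [one_smul, h2] at h1
    exact h1
  have h := norm_image_sub_le_of_norm_deriv_le_segment' (a := 0) (b := α) (C := α)
    (fun t _ => (hd t).hasDerivWithinAt) (fun t ht => (norm_arc_sub hb hn hbp s t).trans
      (abs_le.2 ⟨by linarith [hs.1, ht.2], by linarith [hs.2, ht.1]⟩)) α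
      ⟨hs.1.trans hs.2, le_rfl⟩
  have h0 : arc p b 0 = p := by simp [arc]
  rw [h0, zero_smul, sub_zero] at h
  have h3 : α • arc b (-p) s - (arc p b α - p) = α • arc b (-p) s - arc p b α - (0 - p) := by
    abel
  rw [h3]
  exact h

/-- Along the arc of `exists_arc'` (angle `α ≤ 2 ‖q - p‖ ≤ 4 r`, velocity `e r = arc b (-p) r`):
`NG (arc r) e ≤ NG z e + C (r + α)` and `‖α • e - (q - p)‖ ≤ 3 α ^ 2`, so
`α * NG z e ≤ NG z (q - p) + 3 M α ^ 2`; bound the integral of `rho_arc` by `α * sup`. -/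
theorem cmp_hi (hg : IsMetric g) (hb : Bd g m M C) {z p q : E} {r : ℝ} (hz : ‖z‖ = 1)
    (hp : ‖p‖ = 1) (hq : ‖q‖ = 1) (h1 : ‖p - z‖ ≤ r) (h2 : ‖q - z‖ ≤ r) :
    rho g p q ≤ NG g z (q - p) + (24 * M + 10 * C) * r * ‖q - p‖ := by
  obtain ⟨b, α, hb1, hpb, hα, -, hq', hα2⟩ := exists_arc' hp hq
  have hr : 0 ≤ r := (norm_nonneg _).trans h1
  have hM : 0 ≤ M := by
    have h3 := (NG_nonneg g z z).trans (hb.hi z z hz)
    rwa [hz, mul_one] at h3
  have hC := hb.C0
  have hd0 := norm_nonneg (q - p)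
  have hd : ‖q - p‖ ≤ 2 * r := by
    have h3 := norm_sub_le (q - z) (p - z)
    rw [sub_sub_sub_cancel_right] at h3
    linarith
  have hN := NG_nonneg g z (q - p)
  have hrho := rho_arc hg hp hb1 hpb hα
  rw [hq'] at hrho
  rcases hα.eq_or_lt with h0 | h0
  · rw [← h0, intervalIntegral.integral_same] at hrho
    have : 0 ≤ (24 * M + 10 * C) * r * ‖q - p‖ := by positivity
    linarith
  have hn : ‖-p‖ = 1 := by rw [norm_neg, hp]
  have hbp : inner ℝ b (-p) = 0 := by rw [inner_neg_right, real_inner_comm, hpb, neg_zero]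
  have key : ∀ s ∈ uIoc (0 : ℝ) α, ‖√(g (arc p b s) (arc b (-p) s) (arc b (-p) s))‖ ≤
      (NG g z (q - p) + M * (α * α)) / α + C * (5 * r) := by
    intro s hs
    rw [uIoc_of_le hα] at hs
    have hx := norm_arc hp hb1 hpb s
    have he := norm_arc hb1 hn hbp s
    have hxe : inner ℝ (arc p b s) (arc b (-p) s) = 0 := by
      have h3 : arc b (-p) s = arc p b (s + π / 2) := by
        simp only [arc, cos_add_pi_div_two, sin_add_pi_div_two, smul_neg, neg_smul]
        abel
      rw [h3, inner_arc_arc hp hb1 hpb, show s - (s + π / 2) = -(π / 2) by ring, cos_neg,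
        cos_pi_div_two]
    rw [Real.norm_of_nonneg (sqrt_nonneg _), ← NG_tang hxe]
    have h3 := (abs_le.1 (hb.lip _ z (arc b (-p) s) hx hz)).2
    rw [he, mul_one] at h3
    have h4 : ‖arc p b s - z‖ ≤ 5 * r := by
      have h5 := norm_arc_sub hp hb1 hpb s 0
      rw [show arc p b 0 = p by simp [arc], sub_zero, abs_of_pos hs.1] at h5
      have h6 := norm_add_le (arc p b s - p) (p - z)
      rw [sub_add_sub_cancel] at h6
      linarith [hs.2]
    have h5 : NG g z (arc b (-p) s) ≤ (NG g z (q - p) + M * (α * α)) / α := by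
      rw [le_div_iff₀ h0]
      have h6 := NG_add_le hg hz (q - p) (α • arc b (-p) s - (q - p))
      rw [add_sub_cancel, NG_smul, abs_of_pos h0] at h6
      have h7 := chord_hi24 hp hb1 hpb (⟨hs.1.le, hs.2⟩ : s ∈ Icc 0 α)
      rw [hq'] at h7
      have h8 := (hb.hi z (α • arc b (-p) s - (q - p)) hz).trans (mul_le_mul_of_nonneg_left h7 hM)
      linarith
    have h6 := mul_le_mul_of_nonneg_left h4 hC
    linarith
  have h3 := (le_abs_self _).trans (intervalIntegral.norm_integral_le_of_norm_le_const key)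
  rw [sub_zero, abs_of_pos h0, add_mul, div_mul_cancel₀ _ h0.ne'] at h3
  have h4 : α * α ≤ 8 * (r * ‖q - p‖) := by nlinarith
  have h5 := mul_le_mul_of_nonneg_left h4 hM
  have h6 := mul_le_mul_of_nonneg_left hα2 (mul_nonneg hC hr)
  have h7 : 0 ≤ M * (r * ‖q - p‖) := by positivity
  nlinarith

/-- For a path `c` with `len ≤ NG z (q - p) ≤ 2 M r` (else nothing to prove) `len_lo` gives
`‖c t - z‖ ≤ R = r (1 + 2 M / m)`, so the speed `s t` satisfies
`NG z c' ≤ s + C R ‖c'‖ ≤ (1 + C R / m) s`; with `l = GG g z (q - p)`, `GG_le` gives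
`NG z (q - p) ^ 2 = l (q - p) = ∫ l c' ≤ NG z (q - p) * (1 + C R / m) * len`. -/
theorem cmp_lo (hg : IsMetric g) (hb : Bd g m M C) {z p q : E} {r : ℝ} (hz : ‖z‖ = 1)
    (hp : ‖p‖ = 1) (hq : ‖q‖ = 1) (h1 : ‖p - z‖ ≤ r) (h2 : ‖q - z‖ ≤ r) :
    NG g z (q - p) ≤ rho g p q + C * (1 + 2 * M / m) * (M / m) * r * ‖q - p‖ := by
  have hm := hb.pos
  have hC := hb.C0
  have hM : 0 ≤ M := hm.le.trans (hb.le_cmpa hp)
  have hr : 0 ≤ r := (norm_nonneg _).trans h1
  have hn := norm_nonneg (q - p)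
  have hN := NG_nonneg g z (q - p)
  have hNM := hb.hi z (q - p) hz
  have hqp : ‖q - p‖ ≤ 2 * r := by
    have := norm_sub_le_norm_sub_add_norm_sub q z p
    rw [norm_sub_rev z p] at this
    linarith
  rw [← sub_le_iff_le_add]
  refine le_rho_cmpa hp hq fun c hc => ?_
  have hL := len_nonneg_cmpa g c
  obtain ⟨κ, hκ⟩ : ∃ κ, κ = C * (r * (1 + 2 * M / m)) / m := ⟨_, rfl⟩
  have hκ0 : 0 ≤ κ := by rw [hκ]; positivity
  have e0 : C * (1 + 2 * M / m) * (M / m) * r * ‖q - p‖ = κ * (M * ‖q - p‖) := by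
    rw [hκ]; ring
  rw [e0, sub_le_iff_le_add]
  have hpos : 0 ≤ κ * (M * ‖q - p‖) := by positivity
  rcases le_total (NG g z (q - p)) (len g c) with hle | hle
  · linarith
  rcases hN.eq_or_lt with h0 | h0
  · linarith
  obtain ⟨l, hl⟩ := exists_GG_form g z (q - p)
  have h3 := form_le_cmpa hg hc l (K := NG g z (q - p) * (1 + κ)) (by positivity)
    (fun t ht => ?_) (t := 1) ⟨zero_le_one, le_rfl⟩
  · rw [hc.2.2.2, hl, ← NG_sq hg hz, sq, mul_assoc] at h3
    have h4 := le_of_mul_le_mul_left h3 h0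
    have h5 := mul_le_mul_of_nonneg_left (hle.trans hNM) hκ0
    linarith
  · have hu := hc.2.1 t ht
    have h4 : ‖c t - p‖ ≤ r * (2 * M / m) := by
      have h5 := len_lo hg hb hc ht
      have h6 := mul_le_mul_of_nonneg_left hqp hM
      rw [← mul_div_assoc, le_div_iff₀ hm]
      linarith
    have h5 : ‖z - c t‖ ≤ r * (1 + 2 * M / m) := by
      have := norm_sub_le_norm_sub_add_norm_sub z p (c t)
      rw [norm_sub_rev z p, norm_sub_rev p (c t)] at this
      linarith
    have h6 := (abs_le.1 (hb.lip z (c t) (deriv c t) hz hu)).2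
    have h7 : ‖deriv c t‖ ≤ NG g (c t) (deriv c t) / m := by
      rw [le_div_iff₀ hm, mul_comm]
      exact hb.lo _ _ hu
    have h8 : C * ‖z - c t‖ * ‖deriv c t‖ ≤
        C * (r * (1 + 2 * M / m)) * (NG g (c t) (deriv c t) / m) :=
      mul_le_mul (mul_le_mul_of_nonneg_left h5 hC) h7 (norm_nonneg _) (by positivity)
    have h9 : C * (r * (1 + 2 * M / m)) * (NG g (c t) (deriv c t) / m) =
        κ * NG g (c t) (deriv c t) := by rw [hκ]; ring
    rw [hl, mul_assoc]
    refine (GG_le hg hz _ _).trans (mul_le_mul_of_nonneg_left ?_ hN)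
    linarith

theorem exists_cmp (hg : IsMetric g) : ∃ m M C, Cmp g m M C := by
  obtain ⟨m, M, C, hb⟩ := exists_bd hg
  have hm := hb.pos
  have hC := hb.C0
  have hM : 0 ≤ M := hm.le.trans (hb.le_cmpa (z := EuclideanSpace.single 0 1) (by simp))
  have hA : 0 ≤ 24 * M + 10 * C := by positivity
  have hB : 0 ≤ C * (1 + 2 * M / m) * (M / m) := by positivity
  refine ⟨m, 2 * M, 24 * M + 10 * C + C * (1 + 2 * M / m) * (M / m), hm, add_nonneg hA hB, hb.lo,
    fun z w hz => ?_, fun p q hp hq => rho_lo hg hb hp hq, fun p q hp hq => rho_hi hg hb hp hq,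
    fun z p q r hz hp hq h1 h2 => ?_⟩
  · have := hb.hi z w hz
    have := mul_nonneg hM (norm_nonneg w)
    linarith
  · have h3 := cmp_hi hg hb hz hp hq h1 h2
    have h4 := cmp_lo hg hb hz hp hq h1 h2
    have hr : 0 ≤ r * ‖q - p‖ := mul_nonneg ((norm_nonneg _).trans h1) (norm_nonneg _)
    have h5 := mul_nonneg hA hr
    have h6 := mul_nonneg hB hr
    rw [abs_le]
    constructor <;> linarith

end Pool.Agent.Lib.MP_da270e_gt.SA
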