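import Pool.Agent.Lib.MP_da270e_gt.SA.Bez

/-!
An equivariant map from complex 3-space to complex 2-space has a nontrivial zero.
-/

set_option autoImplicit false
set_option maxSynthPendingDepth 3

namespace Pool.Agent.Lib.MP_da270e_gt.SA

open Set Pool.Agent.Shared.SingHom

/-- the power map `(z₀ ^ 6, z₁)` is not homotopic to a constant in the punctured space
(`Bez.deg_pow`, `Bez.Deg.unique`, `push_sub_mem_B`, `acyc_singleton`) -/
theorem not_null (H : ℝ × (Fin 2 → ℂ) → Fin 2 → ℂ)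
    (hc : ContinuousOn H (Icc (0 : ℝ) 1 ×ˢ ({0}ᶜ : Set (Fin 2 → ℂ))))
    (hne : ∀ t ∈ Icc (0 : ℝ) 1, ∀ z : Fin 2 → ℂ, z ≠ 0 → H (t, z) ≠ 0)
    (h0 : ∀ z : Fin 2 → ℂ, z ≠ 0 → H (0, z) = ![z 0 ^ 6, z 1]) (c : Fin 2 → ℂ)
    (h1 : ∀ z : Fin 2 → ℂ, z ≠ 0 → H (1, z) = c) : False := by
  have hp := Bez.deg_pow (ι := Fin 2) ![6, 1] (fun i => by fin_cases i <;> simp)
  have hc0 : c ≠ 0 := by
    have hz : (fun _ => 1 : Fin 2 → ℂ) ≠ 0 := fun h => one_ne_zero (congrFun h 0)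
    rw [← h1 _ hz]
    exact hne 1 ⟨zero_le_one, le_rfl⟩ _ hz
  have hq : Bez.Deg (ContinuousMap.const (Fin 2 → ℂ) c) 0 := fun m x hx => by
    rw [Nat.cast_zero, zero_smul, sub_zero]
    refine B_mono (A := {c}) (singleton_subset_iff.2 hc0) m (acyc_singleton c m ?_)
    exact push_mem_Z _ (fun z _ => rfl) hx
  have := hp.unique hq fun m x hx => by
    refine push_sub_mem_B H hc (fun t ht z hz => hne t ht z hz) (fun z hz => ?_)
      (fun z hz => h1 z hz) hx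
    rw [h0 z hz]
    funext i
    fin_cases i <;> simp [Bez.ev]
  simp [Fin.prod_univ_two] at this

/-- the range of `(μ, ζ) ↦ (-ζ - μ (G ζ).1, -μ (G ζ).2)` on `ℝ × ℂ` has dense complement
(`ContDiff.dense_compl_range_of_finrank_lt_finrank`, `3 < 4`) -/
theorem exists_generic {G : ℂ → ℂ × ℂ} (hG : ContDiff ℝ 1 G) : ∃ c₁ c₃ : ℂ, ‖c₃ - 1‖ < 1 ∧
    ∀ (μ : ℝ) (ζ : ℂ), ¬ (ζ + c₁ + μ * (G ζ).1 = 0 ∧ c₃ + μ * (G ζ).2 = 0) := by
  have hf : ContDiff ℝ 1 fun p : ℝ × ℂ => (-p.2 - p.1 • (G p.2).1, -(p.1 • (G p.2).2)) := by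
    fun_prop
  have hd := hf.dense_compl_range_of_finrank_lt_finrank (by simp [Module.finrank_prod])
  obtain ⟨c, h1, h2⟩ := hd.inter_open_nonempty {c : ℂ × ℂ | ‖c.2 - 1‖ < 1}
    (isOpen_lt (by fun_prop) continuous_const) ⟨(0, 1), by simp⟩
  refine ⟨c.1, c.2, h1, fun μ ζ h => h2 ⟨(μ, ζ), Prod.ext ?_ ?_⟩⟩
  · simp only [Complex.real_smul]
    linear_combination -h.1
  · simp only [Complex.real_smul]
    linear_combination -h.2

/-- Suppose no zero. Three homotopies on the punctured plane `(u, ζ)`, second component of `F`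
first: from `(u ^ 6, ζ)` linearly to `P = (c₃ u ^ 6, ζ + c₁ u ^ 2)`, linearly to `F u 0 ζ` (for
`u ≠ 0` reduce to `u = 1` by equivariance, `μ = t / (1 - t)`), then `F ((1 - s) u) s ((1 - s) ζ)`
to the constant `F 0 1 0`. One formula for `not_null`, with the cut-offs
`a k t = max 0 (min 1 (3 t - k))`:
`(1 - a 1) • ((1 - a 0) • pow + a 0 • P) + a 1 • F ((1 - a 2) u) (a 2) ((1 - a 2) ζ)`. -/
theorem degT (F : ℂ → ℂ → ℂ → ℂ × ℂ)
    (hc : ContinuousOn (fun p : ℂ × ℂ × ℂ => F p.1 p.2.1 p.2.2) {0}ᶜ)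
    (he : ∀ u ζ : ℂ, u ≠ 0 → F u 0 (u ^ 2 * ζ) = (u ^ 2 * (F 1 0 ζ).1, u ^ 6 * (F 1 0 ζ).2))
    (hd : ContDiff ℝ 1 (F 1 0))
    (h0 : ∀ ζ : ℂ, ζ ≠ 0 → ∃ κ : ℝ, 0 < κ ∧ F 0 0 ζ = (κ * ζ, 0)) :
    ∃ u₁ u₂ ζ : ℂ, (u₁, u₂, ζ) ≠ 0 ∧ F u₁ u₂ ζ = 0 := by
  by_contra hcon
  have hF : ∀ u₁ u₂ ζ : ℂ, (u₁, u₂, ζ) ≠ 0 → F u₁ u₂ ζ ≠ 0 :=
    fun u₁ u₂ ζ h h' => hcon ⟨u₁, u₂, ζ, h, h'⟩
  obtain ⟨c₁, c₃, hc₃, hgen⟩ := exists_generic hd
  let a : ℝ → ℝ → ℝ := fun k t => max 0 (min 1 (3 * t - k))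
  have ac : ∀ k, Continuous (a k) := fun k => by simp only [a]; fun_prop
  have a0 : ∀ k t, 3 * t ≤ k → a k t = 0 := fun k t h =>
    max_eq_left ((min_le_right _ _).trans (by linarith))
  have a1 : ∀ k t, k + 1 ≤ 3 * t → a k t = 1 := fun k t h => by
    simp only [a]
    rw [min_eq_left (by linarith), max_eq_right zero_le_one]
  have am : ∀ k t, 0 ≤ a k t ∧ a k t ≤ 1 := fun k t =>
    ⟨le_max_left _ _, max_le zero_le_one (min_le_left _ _)⟩
  let w : ℝ × (Fin 2 → ℂ) → ℂ × ℂ × ℂ := fun q =>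
    ((1 - a 2 q.1 : ℝ) * q.2 0, (a 2 q.1 : ℝ), (1 - a 2 q.1 : ℝ) * q.2 1)
  have zz : ∀ z : Fin 2 → ℂ, z 0 = 0 → z 1 = 0 → z = 0 := fun z h h' => by
    funext i
    fin_cases i
    · exact h
    · exact h'
  have wne : ∀ t (z : Fin 2 → ℂ), z ≠ 0 → w (t, z) ≠ 0 := fun t z hz h => by
    simp only [w, Prod.mk_eq_zero, Complex.ofReal_eq_zero] at h
    rw [h.2.1] at h
    exact hz (zz z (by simpa using h.1) (by simpa using h.2.2))
  have wc : Continuous w := by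
    have := ac 2
    simp only [w]
    fun_prop
  have hFw : ContinuousOn (fun q => F (w q).1 (w q).2.1 (w q).2.2)
      (Icc (0 : ℝ) 1 ×ˢ ({0}ᶜ : Set (Fin 2 → ℂ))) :=
    hc.comp wc.continuousOn fun q hq => wne q.1 q.2 hq.2
  refine not_null (fun q => ![(1 - a 1 q.1 : ℝ) * ((1 + (a 0 q.1 : ℝ) * (c₃ - 1)) * q.2 0 ^ 6) +
      (a 1 q.1 : ℝ) * (F (w q).1 (w q).2.1 (w q).2.2).2,
    (1 - a 1 q.1 : ℝ) * (q.2 1 + (a 0 q.1 : ℝ) * c₁ * q.2 0 ^ 2) +
      (a 1 q.1 : ℝ) * (F (w q).1 (w q).2.1 (w q).2.2).1]) ?_ ?_ ?_ ![(F 0 1 0).2, (F 0 1 0).1] ?_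
  · have k0 := ac 0
    have k1 := ac 1
    refine continuousOn_pi.2 fun i => ?_
    fin_cases i
    · exact (Continuous.continuousOn (by fun_prop)).add
        ((Continuous.continuousOn (by fun_prop)).mul hFw.snd)
    · exact (Continuous.continuousOn (by fun_prop)).add
        ((Continuous.continuousOn (by fun_prop)).mul hFw.fst)
  · intro t _ z hz h
    have e0 := congrFun h 0
    have e1 := congrFun h 1
    simp only [Matrix.cons_val_zero, Matrix.cons_val_one, Pi.zero_apply] at e0 e1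
    by_cases t2 : 2 ≤ 3 * t
    · rw [a1 1 t (by linarith)] at e0 e1
      refine hF (w (t, z)).1 (w (t, z)).2.1 (w (t, z)).2.2 (wne t z hz) (Prod.ext ?_ ?_)
      · simpa using e1
      · simpa using e0
    by_cases t1 : 3 * t ≤ 1
    · rw [a0 1 t t1] at e0 e1
      have hk : (1 + (a 0 t : ℝ) * (c₃ - 1) : ℂ) ≠ 0 := fun hk => by
        have h2 : ‖((a 0 t : ℝ) : ℂ) * (c₃ - 1)‖ = 1 := by
          rw [eq_neg_of_add_eq_zero_right hk, norm_neg, norm_one]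
        rw [norm_mul, Complex.norm_real, Real.norm_eq_abs, abs_of_nonneg (am 0 t).1] at h2
        nlinarith [am 0 t, norm_nonneg (c₃ - 1)]
      have z0 : z 0 = 0 := by simpa [hk] using e0
      exact hz (zz z z0 (by simpa [z0] using e1))
    have w0 : w (t, z) = (z 0, 0, z 1) := by simp [w, a0 2 t (not_le.1 t2).le]
    rw [w0, a1 0 t (by linarith)] at e0 e1
    have hs : a 1 t < 1 := max_lt zero_lt_one (min_lt_of_right_lt (by linarith))
    have hs0 := (am 1 t).1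
    generalize a 1 t = s at e0 e1 hs hs0
    have hs' : ((1 - s : ℝ) : ℂ) ≠ 0 := Complex.ofReal_ne_zero.2 (by linarith)
    by_cases z0 : z 0 = 0
    · have z1 : z 1 ≠ 0 := fun h => hz (zz z z0 h)
      obtain ⟨κ, hκ, e⟩ := h0 _ z1
      simp only [z0, e] at e1
      have h2 : (((1 - s) + s * κ : ℝ) : ℂ) * z 1 = 0 := by
        push_cast at e1 ⊢
        linear_combination e1
      have h3 : (1 - s) + s * κ = 0 :=
        Complex.ofReal_eq_zero.1 ((mul_eq_zero.1 h2).resolve_right z1)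
      nlinarith
    · have e := he (z 0) (z 1 / z 0 ^ 2) z0
      have ez : z 0 ^ 2 * (z 1 / z 0 ^ 2) = z 1 := by field_simp
      rw [ez] at e
      simp only [e] at e0 e1
      refine hgen (s / (1 - s)) (z 1 / z 0 ^ 2) ⟨?_, ?_⟩
      · refine mul_left_cancel₀ (mul_ne_zero hs' (pow_ne_zero 2 z0)) ?_
        push_cast at e1 hs' ⊢
        field_simp
        linear_combination e1
      · refine mul_left_cancel₀ (mul_ne_zero hs' (pow_ne_zero 6 z0)) ?_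
        have es : ((1 - s : ℝ) : ℂ) * ((s / (1 - s) : ℝ) : ℂ) = s := by
          push_cast at hs' ⊢
          field_simp
        push_cast at e0 es ⊢
        linear_combination e0 + z 0 ^ 6 * (F 1 0 (z 1 / z 0 ^ 2)).2 * es
  · intro z _
    simp [a0 0 0 (by norm_num), a0 1 0 (by norm_num)]
  · intro z _
    simp [w, a1 1 1 (by norm_num), a1 2 1 (by norm_num)]

end Pool.Agent.Lib.MP_da270e_gt.SA
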