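import Pool.Agent.Lib.MP_da270e_gt.SA.Reg

/-!
The sets of initial velocities of segments.
-/

set_option autoImplicit false
set_option maxSynthPendingDepth 3

namespace Pool.Agent.Lib.MP_da270e_gt.SA

open Set Real Filter Topology
open scoped ContDiff

variable {g : Met} {m M C K : ℝ}

theorem Dir.nonempty (hg : IsMetric g) (hc : Cmp g m M C) (hK : Reg g K) {x y : E}
    (hx : ‖x‖ = 1) (hy : ‖y‖ = 1) : (Dir g K x y).Nonempty := by
  obtain ⟨γ, hγ⟩ := exists_AG hg hc hy hx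
  obtain ⟨c, -, -, h3⟩ := hK γ y x hγ
  exact ⟨deriv c 0, γ, hγ, h3⟩

theorem le_zero_of_sqrt28 {δ B : ℝ} (h : ∀ t ∈ Ioc (0 : ℝ) 1, δ ≤ B * √t) : δ ≤ 0 := by
  have h1 : Tendsto (fun t : ℝ => B * √t) (𝓝[>] 0) (𝓝 0) := by
    have h2 : Continuous fun t : ℝ => B * √t := by fun_prop
    have h3 := (h2.tendsto 0).mono_left (nhdsWithin_le_nhds (s := Ioi (0 : ℝ)))
    simpa using h3
  exact ge_of_tendsto h1 (mem_of_superset (Ioc_mem_nhdsGT zero_lt_one) h)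

/-- `t ‖v - deriv c 0‖ ≤ 2 K L √L t √t` for all small `t`; `AG.speed`; `L > 0` by `rlo` -/
theorem Dir.segment (hg : IsMetric g) (hc : Cmp g m M C) (hK : Reg g K) {x y v : E}
    (hxy : x ≠ y) (hv : v ∈ Dir g K x y) : ∃ c, IsSegment g c y x ∧ deriv c 0 = v ∧
      inner ℝ y v = 0 ∧ √(g y v v) = rho g y x ∧ 0 < rho g y x := by
  obtain ⟨γ, hγ, hest⟩ := hv
  obtain ⟨c, h1, h2, h3⟩ := hK γ y x hγ
  have i0 : (0 : ℝ) ∈ Icc (0 : ℝ) 1 := ⟨le_rfl, zero_le_one⟩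
  have i1 : (1 : ℝ) ∈ Icc (0 : ℝ) 1 := ⟨zero_le_one, le_rfl⟩
  have ux : ‖x‖ = 1 := hγ.tgt ▸ hγ.unit 1 i1
  have uy : ‖y‖ = 1 := hγ.src ▸ hγ.unit 0 i0
  have c0 : c 0 = y := (h2 0 i0).trans hγ.src
  have hL : 0 < rho g y x :=
    lt_of_lt_of_le (mul_pos hc.pos (norm_pos_iff.2 (sub_ne_zero.2 hxy))) (hc.rlo y x uy ux)
  have hD : deriv c 0 = v := by
    rw [← sub_eq_zero, ← norm_le_zero_iff]
    apply le_zero_of_sqrt28 (B := 2 * (K * (rho g y x * √(rho g y x))))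
    intro t ht
    have e1 := hest t ⟨ht.1.le, ht.2⟩
    have e2 := h3 t ⟨ht.1.le, ht.2⟩
    have e3 := norm_sub_le (γ t - y - t • v) (γ t - y - t • deriv c 0)
    have e4 : γ t - y - t • v - (γ t - y - t • deriv c 0) = t • (deriv c 0 - v) := by
      rw [smul_sub]; abel
    rw [e4, norm_smul, Real.norm_of_nonneg ht.1.le] at e3
    apply le_of_mul_le_mul_left _ ht.1
    nlinarith
  have hp : IsPath c y x :=
    ⟨h1, fun t ht => (h2 t ht).symm ▸ hγ.unit t ht, c0, (h2 1 i1).trans hγ.tgt⟩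
  have hs := AG.speed hg hc hγ h1 h2
  refine ⟨c, ⟨hp, fun t ht h0 => ?_, ?_⟩, hD, ?_, ?_, hL⟩
  · have e1 := hs t ht
    rw [h0] at e1
    simp at e1
    exact hL.ne e1
  · unfold len
    rw [intervalIntegral.integral_congr (g := fun _ => rho g y x)]
    · simp
    · intro t ht
      rw [uIcc_of_le zero_le_one] at ht
      exact hs t ht
  · have e1 := hp.tang i0
    rwa [c0, hD] at e1
  · have e1 := hs 0 i0
    rwa [c0, hD] at e1

/-- `‖v i‖ ≤ 2 + K (2 M) √(2 M)` from `t = 1`, closed balls are compact; `AG.lim`, `rho_tendsto` -/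
theorem Dir.lim (hg : IsMetric g) (hc : Cmp g m M C) (hK : 0 ≤ K) {ι : Type} (𝒰 : Ultrafilter ι)
    {x y v : ι → E} (h : ∀ i, v i ∈ Dir g K (x i) (y i)) {x₀ y₀ : E} (hx : Tendsto x 𝒰 (𝓝 x₀))
    (hy : Tendsto y 𝒰 (𝓝 y₀)) : ∃ v₀ ∈ Dir g K x₀ y₀, Tendsto v 𝒰 (𝓝 v₀) := by
  choose γ hγ hest using h
  have h0 : (0 : ℝ) ∈ Icc (0 : ℝ) 1 := ⟨le_rfl, zero_le_one⟩
  have h1 : (1 : ℝ) ∈ Icc (0 : ℝ) 1 := ⟨zero_le_one, le_rfl⟩
  have ux : ∀ i, ‖x i‖ = 1 := fun i => (hγ i).tgt ▸ (hγ i).unit 1 h1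
  have uy : ∀ i, ‖y i‖ = 1 := fun i => (hγ i).src ▸ (hγ i).unit 0 h0
  have ux₀ : ‖x₀‖ = 1 :=
    tendsto_nhds_unique hx.norm (tendsto_const_nhds.congr fun i => (ux i).symm)
  have uy₀ : ‖y₀‖ = 1 :=
    tendsto_nhds_unique hy.norm (tendsto_const_nhds.congr fun i => (uy i).symm)
  have hρ := rho_tendsto hg hc uy ux uy₀ ux₀ hy hx
  obtain ⟨γ₀, hγ₀, hlim⟩ := AG.lim hg hc 𝒰 hγ hρ hy hx
  have hb : ∀ i, v i ∈ Metric.closedBall (0 : E) (2 + K * (|M| * 2 * √(|M| * 2))) := fun i => by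
    have e1 := hest i 1 h1
    rw [(hγ i).tgt, one_smul, Real.sqrt_one, mul_one, mul_one] at e1
    have e2 : ‖x i - y i‖ ≤ 2 := (norm_sub_le _ _).trans (by rw [ux, uy]; norm_num)
    have e3 : rho g (y i) (x i) ≤ |M| * 2 := (hc.rhi _ _ (uy i) (ux i)).trans
      (mul_le_mul (le_abs_self M) e2 (norm_nonneg _) (abs_nonneg M))
    have e4 : K * (rho g (y i) (x i) * √(rho g (y i) (x i))) ≤ K * (|M| * 2 * √(|M| * 2)) :=
      mul_le_mul_of_nonneg_left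
        (mul_le_mul e3 (Real.sqrt_le_sqrt e3) (Real.sqrt_nonneg _) (by positivity)) hK
    have e5 : ‖v i‖ ≤ ‖x i - y i‖ + ‖x i - y i - v i‖ := by
      have := norm_sub_le (x i - y i) (x i - y i - v i)
      rwa [sub_sub_cancel] at this
    rw [mem_closedBall_zero_iff]
    linarith
  obtain ⟨v₀, -, hv₀⟩ := (isCompact_closedBall (0 : E) _).ultrafilter_le_nhds (𝒰.map v)
    (le_principal_iff.2 (mem_map.2 (univ_mem' hb)))
  have hv : Tendsto v 𝒰 (𝓝 v₀) := hv₀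
  refine ⟨v₀, ⟨γ₀, hγ₀, fun t ht => ?_⟩, hv⟩
  exact le_of_tendsto_of_tendsto' (((hlim t ht).sub hy).sub (hv.const_smul t)).norm
    (((hρ.mul hρ.sqrt).const_mul K).mul_const (t * √t)) fun i => hest i t ht

/-- `isCompact_iff_ultrafilter_le_nhds`; pull the ultrafilter back to the subtype -/
theorem Dir.compact (hg : IsMetric g) (hc : Cmp g m M C) (hK : 0 ≤ K) (x y : E) :
    IsCompact (Dir g K x y) := by
  refine isCompact_iff_ultrafilter_le_nhds.2 fun f hf => ?_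
  have hD : Dir g K x y ∈ f := le_principal_iff.1 hf
  obtain ⟨w, hw⟩ := f.nonempty_of_mem hD
  classical
  obtain ⟨v₀, h1, h2⟩ := Dir.lim hg hc hK f (x := fun _ => x) (y := fun _ => y)
    (v := fun e => if e ∈ Dir g K x y then e else w)
    (fun e => by
      by_cases he : e ∈ Dir g K x y
      · rwa [if_pos he]
      · rwa [if_neg he]) tendsto_const_nhds tendsto_const_nhds
  refine ⟨v₀, h1, ?_⟩
  have h3 : Tendsto id (f : Filter E) (𝓝 v₀) := by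
    refine h2.congr' ?_
    filter_upwards [hD] with e he
    exact if_pos he
  exact tendsto_id'.1 h3

/-- by contradiction with `r = 1 / (n + 1)`, `Dir.lim` along `hyperfilter ℕ` -/
theorem Dir.isOpen (hg : IsMetric g) (hc : Cmp g m M C) (hK : 0 ≤ K) (x₀ y₀ : E) (α : Fin 3 → E)
    (h : ∀ v ∈ Dir g K x₀ y₀, 0 < cub α v) : ∃ r, 0 < r ∧ ∀ x y : E, ‖x - x₀‖ < r → ‖y - y₀‖ < r →
      ∀ v ∈ Dir g K x y, 0 < cub α v := by
  by_contra hno
  push Not at hno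
  choose x y hx hy v hv hcub using fun n : ℕ => hno (1 / ((n : ℝ) + 1)) Nat.one_div_pos_of_nat
  have key : ∀ (z : ℕ → E) (z₀ : E), (∀ n : ℕ, ‖z n - z₀‖ < 1 / ((n : ℝ) + 1)) →
      Tendsto z (hyperfilter ℕ) (𝓝 z₀) := fun z z₀ hz => by
    refine Tendsto.mono_left ?_ Nat.hyperfilter_le_atTop
    exact tendsto_iff_norm_sub_tendsto_zero.2 (squeeze_zero (fun _ => norm_nonneg _)
      (fun n => (hz n).le) tendsto_one_div_add_atTop_nhds_zero_nat)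
  obtain ⟨v₀, h1, h2⟩ := Dir.lim hg hc hK (hyperfilter ℕ) hv (key x x₀ hx) (key y y₀ hy)
  have hcont : Continuous (cub α) := by unfold cub; fun_prop
  exact absurd (le_of_tendsto' ((hcont.tendsto v₀).comp h2) hcub) (not_le.2 (h v₀ h1))

/-- with `d = ‖x - y‖`: `‖x - y - v‖ ≤ K (M d) √(M d)` and `⟪v, x⟫ = ⟪v, x - y⟫` -/
theorem Dir.near (hg : IsMetric g) (hc : Cmp g m M C) (hK0 : 0 ≤ K) (hK : Reg g K) :
    ∃ r, 0 < r ∧ ∀ x y : E, x ≠ y → ‖x - y‖ < r → ∀ v ∈ Dir g K x y, 0 < inner ℝ v x := by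
  have hM := abs_nonneg M
  have hA : 0 < K * |M| + 1 := by positivity
  refine ⟨1 / ((K * |M| + 1) ^ 2 * (|M| + 1)), by positivity, fun x y hxy hr v hv => ?_⟩
  obtain ⟨c, -, -, hyv, -, hL⟩ := Dir.segment hg hc hK hxy hv
  obtain ⟨γ, hγ, hest⟩ := hv
  have i0 : (0 : ℝ) ∈ Icc (0 : ℝ) 1 := ⟨le_rfl, zero_le_one⟩
  have i1 : (1 : ℝ) ∈ Icc (0 : ℝ) 1 := ⟨zero_le_one, le_rfl⟩
  have ux : ‖x‖ = 1 := hγ.tgt ▸ hγ.unit 1 i1
  have uy : ‖y‖ = 1 := hγ.src ▸ hγ.unit 0 i0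
  have e1 := hest 1 i1
  rw [hγ.tgt, one_smul, Real.sqrt_one, mul_one, mul_one] at e1
  have hd : 0 < ‖x - y‖ := norm_pos_iff.2 (sub_ne_zero.2 hxy)
  set d : ℝ := ‖x - y‖ with hdd
  have e3 : rho g y x ≤ |M| * d :=
    (hc.rhi _ _ uy ux).trans (mul_le_mul_of_nonneg_right (le_abs_self M) hd.le)
  have e4 : √(rho g y x) ≤ 1 / (K * |M| + 1) := by
    apply Real.sqrt_le_iff.2 ⟨by positivity, e3.trans ?_⟩
    rw [lt_div_iff₀ (by positivity)] at hr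
    rw [div_pow, one_pow, le_div_iff₀ (by positivity)]
    have : 0 ≤ d * (K * |M| + 1) ^ 2 := by positivity
    nlinarith
  have e5 : K * (rho g y x * √(rho g y x)) ≤ K * (|M| * d * (1 / (K * |M| + 1))) :=
    mul_le_mul_of_nonneg_left (mul_le_mul e3 e4 (Real.sqrt_nonneg _) (by positivity)) hK0
  have e6 : K * (|M| * d * (1 / (K * |M| + 1))) < d := by
    have : K * (|M| * d * (1 / (K * |M| + 1))) = K * |M| * d / (K * |M| + 1) := by ring
    rw [this, div_lt_iff₀ hA]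
    nlinarith
  have e7 : inner ℝ v x = d ^ 2 - inner ℝ (x - y - v) (x - y) := by
    have h1 : inner ℝ v y = (0 : ℝ) := by rw [real_inner_comm]; exact hyv
    rw [hdd, ← real_inner_self_eq_norm_sq, inner_sub_left (x - y) v, inner_sub_right v x y, h1]
    ring
  have e8 : inner ℝ (x - y - v) (x - y) ≤ ‖x - y - v‖ * d := real_inner_le_norm _ _
  have e9 : ‖x - y - v‖ * d < d * d := mul_lt_mul_of_pos_right (by linarith) hd
  rw [e7]
  nlinarith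

end Pool.Agent.Lib.MP_da270e_gt.SA
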