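import Pool.Agent.Lib.MP_da270e_gt.SA.Base

/-!
The estimates of `Diam.lean` and `Bridge.lean` for a general perturbation function.
-/

set_option autoImplicit false
set_option maxSynthPendingDepth 3

namespace Pool.Agent.Lib.MP_da270e_gt.SA

open Set Real
open scoped ContDiff

variable {h : E → ℝ}

/-- mean value inequality on the closed unit ball -/
theorem Adm.lip (hh : Adm h) {p q : E} (hp : ‖p‖ ≤ 1) (hq : ‖q‖ ≤ 1) :
    |h p - h q| ≤ 8 * ‖p - q‖ := by
  have := Convex.norm_image_sub_le_of_norm_fderiv_le (𝕜 := ℝ) (f := h) (C := 8)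
    (s := Metric.closedBall (0 : E) 1)
    (fun x _ => hh.smooth.differentiable (by simp) x)
    (fun x hx => hh.der x (mem_closedBall_zero_iff.1 hx)) (convex_closedBall _ _)
    (mem_closedBall_zero_iff.2 hq) (mem_closedBall_zero_iff.2 hp)
  simpa using this

theorem hasDerivAt_PhiH (hh : Continuous h) (y u : E) (σ : ℝ) :
    HasDerivAt (PhiH h y u) (h (arc y u σ)) σ := by
  exact ((hh.comp (continuous_arc y u)).integral_hasStrictDerivAt 0 σ).hasDerivAt

/-- as `Phi_lip` -/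
theorem Adm.phi_lip (hh : Adm h) {y u : E} (hy : ‖y‖ = 1) (hu : ‖u‖ = 1) (hyu : inner ℝ y u = 0)
    (a b : ℝ) : |PhiH h y u a - PhiH h y u b| ≤ 2 * |a - b| := by
  have := Convex.norm_image_sub_le_of_norm_hasDerivWithin_le (f := PhiH h y u)
    (f' := fun σ => h (arc y u σ)) (C := 2) (s := univ)
    (fun x _ => (hasDerivAt_PhiH hh.smooth.continuous y u x).hasDerivWithinAt)
    (fun x _ => hh.bd _ (norm_arc hy hu hyu x).le) convex_univ (mem_univ b) (mem_univ a)
  simpa using this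

/-- `arc p e (r + π / 2) = arc e (-p) r` -/
theorem PhiH_split (hh : Continuous h) (p e : E) :
    PhiH h p e (π / 2) + PhiH h e (-p) (π / 2) = PhiH h p e π := by
  have hc : Continuous fun r => h (arc p e r) := hh.comp (continuous_arc p e)
  have e1 : ∀ r, arc e (-p) r = arc p e (r + π / 2) := fun r => by
    simp only [arc, cos_add_pi_div_two, sin_add_pi_div_two]; module
  have e2 : PhiH h e (-p) (π / 2) = ∫ r in (π / 2)..π, h (arc p e r) := by
    unfold PhiH
    simp only [e1]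
    rw [intervalIntegral.integral_comp_add_right (fun r => h (arc p e r)), zero_add, add_halves]
  rw [e2]
  exact intervalIntegral.integral_add_adjacent_intervals (hc.intervalIntegrable _ _)
    (hc.intervalIntegrable _ _)

/-- third part of `NearGeo.est` -/
theorem estH (hh : Adm h) {κ ε : ℝ} {c d P F : ℝ → E} (H : NearGeo κ c d P F) (hκ : 0 ≤ κ)
    (hε : 0 ≤ ε) {u : E} (hu1 : ‖u‖ = 1) (hu : d 0 = ‖d 0‖ • u) (h4 : arcLen d 1 ≤ 4) :
    arcLen d 1 + ε * PhiH h (c 0) u (arcLen d 1) - 544 * ε * κ ≤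
      ∫ t in (0 : ℝ)..1, (1 + ε * h (c t)) * ‖d t‖ := by
  have h01 : (0 : ℝ) ∈ Icc (0 : ℝ) 1 := ⟨le_rfl, zero_le_one⟩
  have h11 : (1 : ℝ) ∈ Icc (0 : ℝ) 1 := ⟨zero_le_one, le_rfl⟩
  have hs := hasDerivAt_arcLen H.hd
  have hcl := H.close hκ hu h4
  have hy : ‖c 0‖ = 1 := H.unit 0 h01
  have hw0 : 0 < ‖d 0‖ := norm_pos_iff.2 (H.ne 0 h01)
  have hyu : inner ℝ (c 0) u = 0 := by
    have := H.tang 0 h01
    rw [hu, inner_smul_right] at this
    exact (mul_eq_zero.1 this).resolve_left hw0.ne'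
  have hhc : Continuous h := hh.smooth.continuous
  have hcont : Continuous fun t => (1 + ε * h (c t)) * ‖d t‖ := by
    have hcc : Continuous c := continuous_iff_continuousAt.2 fun t => (H.hc t).continuousAt
    exact (continuous_const.add (continuous_const.mul (hhc.comp hcc))).mul H.hd.norm
  have := fence (f := fun t => arcLen d t + ε * PhiH h (c 0) u (arcLen d t) -
      ∫ r in (0 : ℝ)..t, (1 + ε * h (c r)) * ‖d r‖)
    (f' := fun t => ε * ‖d t‖ * (h (arc (c 0) u (arcLen d t)) - h (c t))) H.hd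
    (136 * ε * κ)
    (fun t _ => by
      have := ((hs t).add
        (((hasDerivAt_PhiH hhc (c 0) u (arcLen d t)).comp t (hs t)).const_mul ε)).sub
        (hcont.integral_hasStrictDerivAt 0 t).hasDerivAt
      refine this.congr_deriv ?_
      ring)
    (by simp [arcLen_zero, PhiH])
    (fun t ht => by
      have e1 := hh.lip (norm_arc hy hu1 hyu (arcLen d t)).le (H.unit t ht).le
      rw [norm_sub_rev] at e1
      have e2 := (hcl t ht).1
      have e3 : h (arc (c 0) u (arcLen d t)) - h (c t) ≤ 136 * κ := by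
        linarith [le_abs_self (h (arc (c 0) u (arcLen d t)) - h (c t))]
      have e7 := mul_nonneg hε (norm_nonneg (d t))
      nlinarith) 1 h11
  nlinarith [mul_nonneg hε hκ]

/-- `fence_norm` for `c t - arc (c 0) u (arcLen d t)` and the second part of `NearGeo.close` -/
theorem near_rel {κ : ℝ} {c d P F : ℝ → E} (H : NearGeo κ c d P F) (hκ : 0 ≤ κ) {u : E}
    (hu : d 0 = ‖d 0‖ • u) (h4 : arcLen d 1 ≤ 4) :
    ‖c 1 - arc (c 0) u (arcLen d 1)‖ ≤ 18 * κ * arcLen d 1 := by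
  have hs := hasDerivAt_arcLen H.hd
  have hcl := H.close hκ hu h4
  exact fence_norm (f := fun t => c t - arc (c 0) u (arcLen d t))
    (f' := fun t => d t - ‖d t‖ • ((-sin (arcLen d t)) • c 0 + cos (arcLen d t) • u)) H.hd (18 * κ)
    (fun t _ => (H.hc t).sub ((hasDerivAt_arc (c 0) u (arcLen d t)).scomp t (hs t)))
    (by simp [arcLen_zero, arc]) (fun t ht => (hcl t ht).2) 1 ⟨zero_le_one, le_rfl⟩

theorem gH_apply (h : E → ℝ) (ε : ℝ) (p v w : E) :
    gH h ε p v w = (1 + ε * h p) ^ 2 * inner ℝ v w := by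
  rfl

theorem genH_lam (hh : Adm h) {ε : ℝ} (hε : 0 ≤ ε) {p : E} (hp : ‖p‖ = 1) :
    1 - 2 * ε ≤ 1 + ε * h p ∧ 1 + ε * h p ≤ 1 + 2 * ε := by
  obtain ⟨h1, h2⟩ := abs_le.1 (hh.bd p hp.le)
  constructor <;> nlinarith

theorem genH_cov (hh : Adm h) (ε : ℝ) {p u v w : E} (hv : inner ℝ p v = 0)
    (hw : inner ℝ p w = 0) :
    cov (gH h ε) p u v w = 2 * (1 + ε * h p) * ε * fderiv ℝ h p u * inner ℝ v w := by
  have h1 : HasFDerivAt h (fderiv ℝ h p) p :=
    (hh.smooth.differentiable (by simp) p).hasFDerivAt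
  have h2 := (((h1.const_mul ε).const_add 1).pow 2).smul_const ip
  have h3 : fderiv ℝ (gH h ε) p = _ := h2.fderiv
  rw [cov, h3, gH_apply, gH_apply, hw, real_inner_comm p v, hv]
  simp only [ContinuousLinearMap.smulRight_apply, smul_apply, smul_eq_mul, ip_apply, nsmul_eq_mul]
  norm_num
  left
  ring

/-- as `isMetric_g0` -/
theorem isMetric_gH (hh : Adm h) {ε : ℝ} (hε : 0 ≤ ε) (hε' : ε ≤ 1 / 100) :
    IsMetric (gH h ε) := by
  refine ⟨?_, fun p v w => by rw [gH_apply, gH_apply, real_inner_comm], fun p v hp _ hv => ?_⟩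
  · exact ((contDiff_const.add (contDiff_const.mul hh.smooth)).pow 2).smul contDiff_const
  · rw [gH_apply]
    have := (genH_lam hh hε hp).1
    have h2 : 0 < 1 + ε * h p := by linarith
    have := real_inner_self_pos.2 hv
    positivity

/-- the first half of the proof of `no_opposite` (`g0'`, `g1'`, `key`), with `cov_g0` redone -/
theorem close_of (hh : Adm h) {ε : ℝ} (hε : 0 < ε) (hε' : ε ≤ 1 / 10 ^ 6) {g : Met}
    (hcl : C1Close (ε ^ 2) g (gH h ε)) : Close h ε g := by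
  have hε2 : ε ^ 2 ≤ ε / 10 ^ 6 := by nlinarith
  have hε3 : 0 < ε ^ 2 := by positivity
  have key : ∀ p w : E, ‖p‖ = 1 → inner ℝ p w = 0 →
      (1 - 2 * ε ^ 2) * ((1 + ε * h p) * ‖w‖) ≤ √(g p w w) ∧
        √(g p w w) ≤ (1 + 2 * ε ^ 2) * ((1 + ε * h p) * ‖w‖) := fun p v hp hv => by
    have k1 := (hcl p v v v hp hv hv hv).1
    rw [gH_apply, real_inner_self_eq_norm_sq] at k1
    obtain ⟨l1, l2⟩ := genH_lam hh hε.le hp
    set L := 1 + ε * h p
    set w := ‖v‖
    have w0 : 0 ≤ w := norm_nonneg _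
    have l0 : 9 / 10 ≤ L := by linarith
    have l3 : w ≤ 10 / 9 * (L * w) := by nlinarith
    have l4 : w * w ≤ 2 * (L * w) * (L * w) := by nlinarith
    have l5 : |g p v v - (L * w) ^ 2| ≤ 2 * ε ^ 2 * (L * w) * (L * w) := by
      rw [mul_pow]
      refine k1.trans ?_
      nlinarith
    exact speed_bound (by positivity) (by linarith) (by positivity) l5
  refine ⟨fun p v w hp hv hw => ?_, fun p u v w hp hu hv hw => ?_,
    fun p w hp hw => (key p w hp hw).1, fun p w hp hw => (key p w hp hw).2⟩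
  · have k1 := (hcl p v v w hp hv hv hw).1
    obtain ⟨l1, l2⟩ := genH_lam hh hε.le hp
    have k2 : |(1 + ε * h p) ^ 2 - 1| ≤ 5 * ε := abs_le.2 ⟨by nlinarith, by nlinarith⟩
    have k3 := abs_real_inner_le_norm v w
    rw [gH_apply] at k1
    have n : 0 ≤ ‖v‖ * ‖w‖ := by positivity
    calc |g p v w - inner ℝ v w| = |(g p v w - (1 + ε * h p) ^ 2 * inner ℝ v w) +
          ((1 + ε * h p) ^ 2 - 1) * inner ℝ v w| := by congr 1; ring
      _ ≤ ε ^ 2 * ‖v‖ * ‖w‖ + 5 * ε * (‖v‖ * ‖w‖) := by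
          refine (abs_add_le _ _).trans (add_le_add k1 ?_)
          rw [abs_mul]; gcongr
      _ ≤ 21 * ε * ‖v‖ * ‖w‖ := by nlinarith
  · have k1 := (hcl p u v w hp hu hv hw).2
    obtain ⟨l1, l2⟩ := genH_lam hh hε.le hp
    have k2 : |fderiv ℝ h p u| ≤ 8 * ‖u‖ :=
      ((fderiv ℝ h p).le_opNorm u).trans
        (mul_le_mul_of_nonneg_right (hh.der p hp.le) (norm_nonneg _))
    have k3 := abs_real_inner_le_norm v w
    have l3 : |1 + ε * h p| ≤ 5 / 4 := abs_le.2 ⟨by linarith, by linarith⟩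
    have n : 0 ≤ ‖u‖ * ‖v‖ * ‖w‖ := by positivity
    have k4 : |cov (gH h ε) p u v w| ≤ 2 * (5 / 4) * ε * (8 * ‖u‖) * (‖v‖ * ‖w‖) := by
      rw [genH_cov hh ε hv hw]
      simp only [abs_mul, abs_two, abs_of_pos hε]
      gcongr
    calc |cov g p u v w| = |(cov g p u v w - cov (gH h ε) p u v w) + cov (gH h ε) p u v w| := by
          congr 1; ring
      _ ≤ ε ^ 2 * ‖u‖ * ‖v‖ * ‖w‖ + 2 * (5 / 4) * ε * (8 * ‖u‖) * (‖v‖ * ‖w‖) :=
          (abs_add_le _ _).trans (add_le_add k1 k4)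
      _ ≤ 21 * ε * ‖u‖ * ‖v‖ * ‖w‖ := by nlinarith

end Pool.Agent.Lib.MP_da270e_gt.SA
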