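import Pool.Agent.Lib.MP_da270e_gt.SA.Quad
import Pool.Agent.Lib.MP_da270e_gt.SA.GenH
import Pool.Agent.Lib.MP_da270e_gt.SA.Path

/-!
Directions of segments almost minimise the first order length.
-/

set_option autoImplicit false
set_option maxSynthPendingDepth 3

namespace Pool.Agent.Lib.MP_da270e_gt.SA

open Set Real
open scoped ContDiff

variable {h : E → ℝ}

theorem first_sq {y u₁ u₂ : E} (hy : ‖y‖ = 1) (hu₁ : ‖u₁‖ = 1) (hu₂ : ‖u₂‖ = 1)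
    (h₁ : inner ℝ y u₁ = 0) (h₂ : inner ℝ y u₂ = 0) (s₁ s₂ : ℝ) :
    ‖arc y u₁ s₁ - arc y u₂ s₂‖ ^ 2 = (cos s₁ - cos s₂) ^ 2 + sin s₁ ^ 2 + sin s₂ ^ 2 -
      2 * sin s₁ * sin s₂ * inner ℝ u₁ u₂ := by
  have h₃ : inner ℝ u₁ y = 0 := by rw [real_inner_comm, h₁]
  rw [norm_sub_sq_real, norm_arc hy hu₁ h₁, norm_arc hy hu₂ h₂]
  unfold arc
  simp only [inner_add_left, inner_add_right, inner_smul_left, inner_smul_right,
    real_inner_self_eq_norm_sq, hy, h₂, h₃, conj_trivial]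
  nlinarith [cos_sq_add_sin_sq s₁, cos_sq_add_sin_sq s₂]

theorem first_jordan {x : ℝ} (h0 : 0 ≤ x) (h1 : x ≤ π / 2) : x ≤ 2 * sin x := by
  have h := mul_le_sin h0 h1
  have h2 : 1 / 2 ≤ 2 / π := by
    rw [div_le_div_iff₀ (by norm_num) pi_pos]; linarith [pi_lt_d2]
  nlinarith

theorem first_real {κ s₁ s₂ m D : ℝ} (hκ0 : 0 ≤ κ) (hκ : κ ≤ 1 / 10 ^ 4) (p₁ : 0 < s₁)
    (p₂ : 0 < s₂) (hs₁ : s₁ ≤ π + 3 * κ) (hs₂ : s₂ ≤ π + 3 * κ) (m0 : m ≤ 0) (m1 : -1 ≤ m)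
    (hD : D = (cos s₁ - cos s₂) ^ 2 + sin s₁ ^ 2 + sin s₂ ^ 2 - 2 * sin s₁ * sin s₂ * m)
    (d₁ : D ≤ (34 * κ) ^ 2) (d₂ : D ≤ (18 * κ * (s₁ + s₂)) ^ 2) : |π - s₁| ≤ 100 * κ := by
  have hpi := pi_gt_three
  have hpi' := pi_lt_d2
  by_cases c₁ : π ≤ s₁
  · exact abs_le.2 ⟨by linarith, by linarith⟩
  have c₁' : s₁ < π := not_le.1 c₁
  have σ₁ : 0 ≤ sin s₁ := sin_nonneg_of_nonneg_of_le_pi p₁.le c₁'.le
  have fin : sin s₁ ≤ 40 * κ → π / 2 ≤ s₁ → |π - s₁| ≤ 100 * κ := fun a b => by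
    have := first_jordan (x := π - s₁) (by linarith) (by linarith)
    rw [sin_pi_sub] at this
    exact abs_le.2 ⟨by linarith, by linarith⟩
  have sq : ∀ a : ℝ, a ^ 2 ≤ (34 * κ) ^ 2 → |a| ≤ 34 * κ := fun a ha =>
    abs_le.2 (abs_le_of_sq_le_sq' ha (by positivity))
  by_cases c₂ : s₂ ≤ π
  · have σ₂ : 0 ≤ sin s₂ := sin_nonneg_of_nonneg_of_le_pi p₂.le c₂
    have e : 0 ≤ sin s₁ * sin s₂ * -m := mul_nonneg (mul_nonneg σ₁ σ₂) (by linarith)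
    have q₀ := sq_nonneg (cos s₁ - cos s₂)
    have q₁ := sq_nonneg (sin s₁)
    have q₂ := sq_nonneg (sin s₂)
    have a₁ := (abs_le.1 (sq (sin s₁) (by linarith))).2
    have a₀ := (abs_le.1 (sq (cos s₁ - cos s₂) (by linarith))).2
    refine fin (by linarith) (not_lt.1 fun hlt => ?_)
    have j₁ := first_jordan p₁.le hlt.le
    have k₁ := one_sub_sq_div_two_le_cos (x := s₁)
    have k₂ : s₁ ^ 2 ≤ 1 := by nlinarith
    have k₃ : s₂ ≤ π / 2 := not_lt.1 fun hh => by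
      have := cos_nonpos_of_pi_div_two_le_of_le hh.le (by linarith)
      linarith
    have j₂ := first_jordan p₂.le k₃
    have l₁ : s₁ ^ 2 ≤ 4 * sin s₁ ^ 2 := by nlinarith
    have l₂ : s₂ ^ 2 ≤ 4 * sin s₂ ^ 2 := by nlinarith
    have l₃ : (18 * κ * (s₁ + s₂)) ^ 2 ≤ (1 / 100 * (s₁ + s₂)) ^ 2 := by
      refine pow_le_pow_left₀ (by positivity) ?_ 2
      exact mul_le_mul_of_nonneg_right (by linarith) (by linarith)
    nlinarith [sq_nonneg (s₁ - s₂), mul_pos p₁ p₂]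
  · have c₂' : π < s₂ := not_le.1 c₂
    have t₀ : 0 ≤ sin (s₂ - π) := sin_nonneg_of_nonneg_of_le_pi (by linarith) (by linarith)
    have t₁ : sin (s₂ - π) ≤ s₂ - π := sin_le (by linarith)
    rw [sin_sub_pi] at t₀ t₁
    have e : 0 ≤ sin s₁ * -sin s₂ * (m + 1) := mul_nonneg (mul_nonneg σ₁ t₀) (by linarith)
    have q₀ := sq_nonneg (cos s₁ - cos s₂)
    have q₁ := sq_nonneg (sin s₁ + sin s₂)
    have a₁ := (abs_le.1 (sq (sin s₁ + sin s₂) (by nlinarith))).2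
    have a₀ := (abs_le.1 (sq (cos s₁ - cos s₂) (by nlinarith))).2
    refine fin (by linarith) (not_lt.1 fun hlt => ?_)
    have k₁ := one_sub_sq_div_two_le_cos (x := s₂ - π)
    rw [cos_sub_pi] at k₁
    have k₂ : (s₂ - π) ^ 2 ≤ 1 := by nlinarith
    have k₃ := cos_nonneg_of_neg_pi_div_two_le_of_le (x := s₁) (by linarith) hlt.le
    linarith

theorem first_orth {κ : ℝ} {c d P F : ℝ → E} (H : NearGeo κ c d P F) {u : E}
    (hu : d 0 = ‖d 0‖ • u) : inner ℝ (c 0) u = 0 := by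
  have h01 : (0 : ℝ) ∈ Icc (0 : ℝ) 1 := ⟨le_rfl, zero_le_one⟩
  have := H.tang 0 h01
  rw [hu, inner_smul_right] at this
  exact (mul_eq_zero.1 this).resolve_left (norm_pos_iff.2 (H.ne 0 h01)).ne'

theorem first_len {κ γ Y δ : ℝ} (hκ0 : 0 ≤ κ) (hκ : κ ≤ 1 / 10 ^ 4) (hγ : |γ| ≤ 100 * κ)
    (hY : |Y| ≤ 120 * κ) (δ0 : 0 ≤ δ) (δ1 : δ ≤ 7200 * κ ^ 2)
    (h : Y * -cos γ - (-1 + δ) * sin γ ≤ 600 * κ ^ 2) : γ ≤ Y + 1000 * κ ^ 2 := by
  obtain ⟨g₁, g₂⟩ := abs_le.1 hγ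
  obtain ⟨y₁, y₂⟩ := abs_le.1 hY
  have k2 := sq_nonneg κ
  have g2 : γ ^ 2 ≤ 10000 * κ ^ 2 := by nlinarith
  have a₁ : γ ≤ sin γ + 25 * κ ^ 2 := by
    rcases le_or_gt γ 0 with hg | hg
    · have := sin_le (x := -γ) (by linarith)
      rw [sin_neg] at this
      linarith
    · have s1 := sin_gt_sub_cube hg
      have s2 : γ * γ ^ 2 ≤ 1 / 100 * (10000 * κ ^ 2) :=
        mul_le_mul (by linarith) g2 (sq_nonneg _) (by norm_num)
      nlinarith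
  have a₂ : δ * sin γ ≤ 72 * κ ^ 2 := by
    have s1 : sin γ ≤ 1 / 100 := ((le_abs_self _).trans abs_sin_le_abs).trans (by linarith)
    nlinarith
  have a₃ : Y * cos γ ≤ Y + 60 * κ ^ 2 := by
    have s1 := one_sub_sq_div_two_le_cos (x := γ)
    have s2 := cos_le_one γ
    have s3 : -Y * (1 - cos γ) ≤ 12 / 1000 * (5000 * κ ^ 2) :=
      mul_le_mul (by linarith) (by linarith) (by linarith) (by norm_num)
    nlinarith
  nlinarith

/-- With `σᵢ = sin sᵢ`: `close` gives `‖arc y u₁ s₁ - arc y u₂ s₂‖ ≤ 34 κ`, so (components along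
`y` and orthogonal to it) `|cos s₁ - cos s₂| ≤ 34 κ`, `‖σ₁ u₁ - σ₂ u₂‖ ≤ 34 κ`; if both `σᵢ ≥ 0`
then `σ₁ ^ 2 + σ₂ ^ 2 ≤ (34 κ) ^ 2`, a negative one is `≥ -3 κ`; so `|σᵢ| ≤ 40 κ` and each `sᵢ` is
within `100 κ` of `0` or of `π`, both of the same. Both `≤ 1` is excluded by `near_rel`:
`(s₁ + s₂) / 2 ≤ ‖σ₁ u₁ - σ₂ u₂‖ ≤ 18 κ (s₁ + s₂)` (`sin s ≥ 3 s / 4`), `NearGeo.arcLen_pos`. -/
theorem antipode {κ : ℝ} {c₁ d₁ P₁ F₁ c₂ d₂ P₂ F₂ : ℝ → E} (h₁ : NearGeo κ c₁ d₁ P₁ F₁)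
    (h₂ : NearGeo κ c₂ d₂ P₂ F₂) (hκ0 : 0 ≤ κ) (hκ : κ ≤ 1 / 10 ^ 4) (h0 : c₂ 0 = c₁ 0)
    (hend : c₂ 1 = c₁ 1) {u₁ u₂ : E} (hu₁ : ‖u₁‖ = 1) (hu₂ : ‖u₂‖ = 1)
    (hd₁ : d₁ 0 = ‖d₁ 0‖ • u₁) (hd₂ : d₂ 0 = ‖d₂ 0‖ • u₂) (hu : inner ℝ u₁ u₂ ≤ 0)
    (hs₁ : arcLen d₁ 1 ≤ π + 3 * κ) (hs₂ : arcLen d₂ 1 ≤ π + 3 * κ) :
    |π - arcLen d₁ 1| ≤ 100 * κ := by
  have hpi' := pi_lt_d2
  have h01 : (0 : ℝ) ∈ Icc (0 : ℝ) 1 := ⟨le_rfl, zero_le_one⟩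
  have h11 : (1 : ℝ) ∈ Icc (0 : ℝ) 1 := ⟨zero_le_one, le_rfl⟩
  have q₁ : arcLen d₁ 1 ≤ 4 := by linarith
  have q₂ : arcLen d₂ 1 ≤ 4 := by linarith
  have k₁ := (h₁.close hκ0 hd₁ q₁ 1 h11).1
  have k₂ := (h₂.close hκ0 hd₂ q₂ 1 h11).1
  have r₁ := near_rel h₁ hκ0 hd₁ q₁
  have r₂ := near_rel h₂ hκ0 hd₂ q₂
  have o₁ := first_orth h₁ hd₁
  have o₂ := first_orth h₂ hd₂
  rw [h0, hend] at k₂ r₂
  rw [h0] at o₂
  have tri : ‖arc (c₁ 0) u₁ (arcLen d₁ 1) - arc (c₁ 0) u₂ (arcLen d₂ 1)‖ ≤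
      ‖c₁ 1 - arc (c₁ 0) u₂ (arcLen d₂ 1)‖ + ‖c₁ 1 - arc (c₁ 0) u₁ (arcLen d₁ 1)‖ := by
    refine le_of_eq_of_le ?_ (norm_sub_le _ _)
    congr 1
    abel
  have m1 := (abs_le.1 (abs_real_inner_le_norm u₁ u₂)).1
  rw [hu₁, hu₂, mul_one] at m1
  exact first_real hκ0 hκ h₁.arcLen_pos h₂.arcLen_pos hs₁ hs₂ hu m1
    (first_sq (h₁.unit 0 h01) hu₁ hu₂ o₁ o₂ _ _)
    (pow_le_pow_left₀ (norm_nonneg _) (by linarith) 2)
    (pow_le_pow_left₀ (norm_nonneg _) (by linarith) 2)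

/-- `γ = π - s`, `X = ⟪x, y⟫ = -1 + ‖x + y‖ ^ 2 / 2`, `Y = ⟪x, u⟫ = ⟪x + y, u⟫`; the first part of
`NearGeo.est` reads `-X sin γ ≤ Y cos γ + 600 κ ^ 2`; `γ ≤ sin γ + |γ| ^ 3 / 4` -/
theorem len_anti {κ : ℝ} {c d P F : ℝ → E} (H : NearGeo κ c d P F) (hκ0 : 0 ≤ κ)
    (hκ : κ ≤ 1 / 10 ^ 4) {u : E} (hu1 : ‖u‖ = 1) (hu : d 0 = ‖d 0‖ • u)
    (hs : |π - arcLen d 1| ≤ 100 * κ) :
    ‖c 0 + c 1‖ ≤ 120 * κ ∧ π - inner ℝ u (c 1) - 1000 * κ ^ 2 ≤ arcLen d 1 := by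
  have hpi' := pi_lt_d2
  have h01 : (0 : ℝ) ∈ Icc (0 : ℝ) 1 := ⟨le_rfl, zero_le_one⟩
  have h11 : (1 : ℝ) ∈ Icc (0 : ℝ) 1 := ⟨zero_le_one, le_rfl⟩
  have q : arcLen d 1 ≤ 4 := by linarith [(abs_le.1 hs).1]
  have k := (H.close hκ0 hu q 1 h11).1
  have a := (H.est hκ0 le_rfl hu1 hu q).1
  have o := first_orth H hu
  have hy := H.unit 0 h01
  have hx := H.unit 1 h11
  generalize arcLen d 1 = s at *
  generalize c 0 = y at *
  generalize c 1 = x at *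
  have e₁ : ‖y + arc y u s‖ ≤ 100 * κ := by
    have e : y + arc y u s = (1 + cos s) • y + sin s • u := by unfold arc; module
    have e2 := norm_comb hy hu1 o (1 + cos s) (sin s)
    rw [← e] at e2
    have e3 := one_sub_sq_div_two_le_cos (x := π - s)
    rw [cos_pi_sub] at e3
    have e4 := pow_le_pow_left₀ (abs_nonneg _) hs 2
    rw [sq_abs] at e4
    exact (abs_le_of_sq_le_sq' (by nlinarith [cos_sq_add_sin_sq s]) (by positivity)).2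
  have e₂ : ‖y + x‖ ≤ 120 * κ := by
    have e : y + x = (x - arc y u s) + (y + arc y u s) := by abel
    rw [e]
    exact (norm_add_le _ _).trans (by linarith)
  refine ⟨e₂, ?_⟩
  have e₃ : inner ℝ x y = -1 + ‖y + x‖ ^ 2 / 2 := by
    rw [norm_add_sq_real, hy, hx, real_inner_comm]; ring
  have e₄ : |inner ℝ x u| ≤ 120 * κ := by
    have := abs_real_inner_le_norm (y + x) u
    rw [inner_add_left, o, zero_add, hu1, mul_one] at this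
    exact this.trans e₂
  have e₅ := pow_le_pow_left₀ (norm_nonneg _) e₂ 2
  have := first_len (δ := ‖y + x‖ ^ 2 / 2) hκ0 hκ hs e₄ (by positivity) (by linarith)
    (by rw [cos_pi_sub, sin_pi_sub, neg_neg, ← e₃]; exact a)
  rw [real_inner_comm]
  linarith

theorem first_cont_sqrt {g : E → E →L[ℝ] E →L[ℝ] ℝ} (hg : Continuous g) {c d : ℝ → E}
    (hc : Continuous c) (hd : Continuous d) : Continuous fun t => √(g (c t) (d t) (d t)) := by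
  fun_prop

theorem first_near {p q b : E} {z : ℝ} (hq : ‖q‖ = 1) (hb : ‖b‖ = 1)
    (hbq : inner ℝ b q = √(1 - z ^ 2)) (hz2 : z ^ 2 ≤ ‖p + q‖ ^ 2) (hD : ‖p + q‖ ≤ 1 / 10) :
    ‖b + p‖ ≤ 3 * ‖p + q‖ := by
  have hD0 := norm_nonneg (p + q)
  have t1 := one_sub_inner hb hq
  have t2 : 1 - z ^ 2 ≤ √(1 - z ^ 2) := by
    apply le_sqrt_of_sq_le
    have : z ^ 2 ≤ 1 := by nlinarith
    nlinarith [sq_nonneg z]
  have t3 : ‖b - q‖ ^ 2 ≤ (2 * ‖p + q‖) ^ 2 := by nlinarith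
  have t4 : ‖b - q‖ ≤ 2 * ‖p + q‖ := (abs_le_of_sq_le_sq' t3 (by positivity)).2
  have t5 : b + p = (b - q) + (p + q) := by abel
  rw [t5]
  exact (norm_add_le _ _).trans (by linarith)

theorem first_phi (hh : Adm h) {p e b : E} {D : ℝ} (hp : ‖p‖ = 1) (he : ‖e‖ = 1) (hb : ‖b‖ = 1)
    (hep : inner ℝ e p = 0) (heb : inner ℝ e b = 0) (hbp : ‖b + p‖ ≤ 3 * D) :
    PhiH h e b (π / 2) - PhiH h e (-p) (π / 2) ≤ 40 * D := by
  have hpi := pi_lt_d2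
  have hhc : Continuous h := hh.smooth.continuous
  have hD0 : 0 ≤ D := by
    have := norm_nonneg (b + p)
    linarith
  have hcont : ∀ x y : E, Continuous fun r => h (arc x y r) := fun x y =>
    hhc.comp (continuous_arc x y)
  unfold PhiH
  rw [← intervalIntegral.integral_sub ((hcont _ _).intervalIntegrable _ _)
    ((hcont _ _).intervalIntegrable _ _)]
  have := intervalIntegral.norm_integral_le_of_norm_le_const (a := 0) (b := π / 2) (C := 24 * D)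
    (f := fun r => h (arc e b r) - h (arc e (-p) r)) (fun r _ => by
      have l := hh.lip (norm_arc he hb heb r).le
        (norm_arc he (b := -p) (by rwa [norm_neg]) (by rw [inner_neg_right, hep, neg_zero]) r).le
      have e2 : arc e b r - arc e (-p) r = sin r • (b + p) := by unfold arc; module
      rw [e2, norm_smul, Real.norm_eq_abs] at l
      have := abs_sin_le_one r
      have := norm_nonneg (b + p)
      rw [Real.norm_eq_abs]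
      nlinarith)
  rw [Real.norm_eq_abs, sub_zero, abs_of_pos (by positivity : 0 < π / 2)] at this
  have := (le_abs_self _).trans this
  nlinarith

/-- `rho_arc` and `Close.hi` -/
theorem rho_arc_le (hh : Adm h) {ε : ℝ} {g : Met} (hg : IsMetric g) (hc : Close h ε g) {a b : E}
    (ha : ‖a‖ = 1) (hb : ‖b‖ = 1) (hab : inner ℝ a b = 0) {α : ℝ} (hα : 0 ≤ α) :
    rho g a (arc a b α) ≤ (1 + 2 * ε ^ 2) * (α + ε * PhiH h a b α) := by
  have hhc : Continuous h := hh.smooth.continuous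
  have c1 := continuous_arc a b
  have c2 := continuous_arc b (-a)
  have hba : inner ℝ b a = 0 := by rwa [real_inner_comm]
  have key : ∀ r : ℝ, √(g (arc a b r) (arc b (-a) r) (arc b (-a) r)) ≤
      (1 + 2 * ε ^ 2) * (1 + ε * h (arc a b r)) := fun r => by
    have n1 := norm_arc ha hb hab r
    have n2 : ‖arc b (-a) r‖ = 1 :=
      norm_arc hb (by rwa [norm_neg]) (by rw [inner_neg_right, hba, neg_zero]) r
    have n3 : inner ℝ (arc a b r) (arc b (-a) r) = 0 := by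
      unfold arc
      simp only [inner_add_left, inner_add_right, inner_smul_left, inner_smul_right,
        inner_neg_right, real_inner_self_eq_norm_sq, ha, hb, hab, hba, conj_trivial]
      ring
    have := hc.hi _ _ n1 n3
    rwa [n2, mul_one] at this
  refine (rho_arc hg ha hb hab hα).trans ?_
  have e : (1 + 2 * ε ^ 2) * (α + ε * PhiH h a b α) =
      ∫ r in (0 : ℝ)..α, (1 + 2 * ε ^ 2) * (1 + ε * h (arc a b r)) := by
    rw [intervalIntegral.integral_const_mul, intervalIntegral.integral_add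
      (Continuous.intervalIntegrable (by fun_prop) _ _)
      (Continuous.intervalIntegrable (by fun_prop) _ _), intervalIntegral.integral_const_mul]
    simp [PhiH]
  rw [e]
  exact intervalIntegral.integral_mono_on hα
    ((first_cont_sqrt hg.1.continuous c1 c2).intervalIntegrable _ _)
    (Continuous.intervalIntegrable (by fun_prop) _ _) fun r _ => key r

/-- as `two_arc`, with `rho_tri` through `e` instead of `concat` -/
theorem rho_two_arc (hh : Adm h) {ε : ℝ} (hε : 0 ≤ ε) {g : Met} (hg : IsMetric g)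
    (hc : Close h ε g) {p q e : E} (hp : ‖p‖ = 1) (hq : ‖q‖ = 1) (he : ‖e‖ = 1)
    (hpe : inner ℝ p e = 0) (hD : ‖p + q‖ ≤ 1 / 10) :
    rho g p q ≤ (1 + 2 * ε ^ 2) *
      (π - inner ℝ e q + ε * PhiH h p e π + ‖p + q‖ ^ 2 + 44 * ε * ‖p + q‖) := by
  have hpi := pi_lt_d2
  have hhc : Continuous h := hh.smooth.continuous
  have hep : inner ℝ e p = 0 := by rwa [real_inner_comm]
  have hz : inner ℝ e (p + q) = inner ℝ e q := by rw [inner_add_right, hep, zero_add]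
  have hzD : |inner ℝ e q| ≤ ‖p + q‖ := by
    have := abs_real_inner_le_norm e (p + q)
    rwa [he, one_mul, hz] at this
  set z := inner ℝ e q with hzdef
  set D := ‖p + q‖ with hDdef
  have hD0 : 0 ≤ D := norm_nonneg _
  have hz2 : z ^ 2 ≤ D ^ 2 := by
    rw [← sq_abs z]; exact pow_le_pow_left₀ (abs_nonneg _) hzD 2
  obtain ⟨b, hb, heb, harc, hbq⟩ := exists_arc he hq (by rw [← hzdef]; nlinarith)
  rw [← hzdef] at harc hbq
  have w₁ := rho_arc_le hh hg hc hp he hpe (α := π / 2) (by positivity)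
  have w₂ := rho_arc_le hh hg hc he hb heb (arccos_nonneg z)
  have e1 : arc p e (π / 2) = e := by simp [arc]
  rw [e1] at w₁
  rw [harc] at w₂
  have hw := rho_tri hg hp he hq
  obtain ⟨k1, k2⟩ := arccos_bound (hzD.trans hD)
  have k3 := hh.phi_lip he hb heb (arccos z) (π / 2)
  have hbp : ‖b + p‖ ≤ 3 * D := first_near hq hb hbq hz2 hD
  have k4 := first_phi hh hp he hb hep heb hbp
  have k5 : PhiH h p e (π / 2) + PhiH h e b (arccos z) ≤ PhiH h p e π + 44 * D := by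
    have := (abs_le.1 k3).2
    rw [← PhiH_split hhc]
    linarith
  have k6 := mul_le_mul_of_nonneg_left k5 hε
  have k7 : (π / 2 + ε * PhiH h p e (π / 2)) + (arccos z + ε * PhiH h e b (arccos z)) ≤
      π - z + ε * PhiH h p e π + D ^ 2 + 44 * ε * D := by linarith
  have k8 := mul_le_mul_of_nonneg_left k7 (by positivity : (0 : ℝ) ≤ 1 + 2 * ε ^ 2)
  linarith

/-- `rho ≤ (1 + 2 ε ^ 2) (1 + 2 ε) π` by `exists_arc'`, `rho_arc_le`, `phi_lip`;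
`(1 - 2 ε ^ 2) (1 - 2 ε) * arcLen ≤ len` by `Close.lo` -/
theorem seg_arcLen (hh : Adm h) {ε : ℝ} (hε : 0 < ε) (hε' : ε ≤ 1 / 10 ^ 6) {g : Met}
    (hg : IsMetric g) (hc : Close h ε g) {c : ℝ → E} {y x : E} (s : IsSegment g c y x) :
    arcLen (deriv c) 1 ≤ π + 3 * (63 * ε) ∧
      (1 - 2 * ε ^ 2) * ∫ t in (0 : ℝ)..1, (1 + ε * h (c t)) * ‖deriv c t‖ ≤ rho g y x := by
  have hpi := pi_gt_three
  have hpi' := pi_lt_d2
  have hhc : Continuous h := hh.smooth.continuous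
  have hcc : Continuous c := s.1.1.continuous
  have hdc : Continuous (deriv c) := s.1.1.continuous_deriv le_rfl
  have h01 : (0 : ℝ) ∈ Icc (0 : ℝ) 1 := ⟨le_rfl, zero_le_one⟩
  have h11 : (1 : ℝ) ∈ Icc (0 : ℝ) 1 := ⟨zero_le_one, le_rfl⟩
  have hy : ‖y‖ = 1 := s.1.2.2.1 ▸ s.1.2.1 0 h01
  have hx : ‖x‖ = 1 := s.1.2.2.2 ▸ s.1.2.1 1 h11
  have lo : (1 - 2 * ε ^ 2) * ∫ t in (0 : ℝ)..1, (1 + ε * h (c t)) * ‖deriv c t‖ ≤
      rho g y x := by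
    rw [← s.2.2, ← intervalIntegral.integral_const_mul]
    unfold len
    exact intervalIntegral.integral_mono_on zero_le_one
      (Continuous.intervalIntegrable (by fun_prop) _ _)
      ((first_cont_sqrt hg.1.continuous hcc hdc).intervalIntegrable _ _)
      fun t ht => hc.lo _ _ (s.1.2.1 t ht) (s.1.tang ht)
  refine ⟨?_, lo⟩
  have lo2 : (1 - 2 * ε) * arcLen (deriv c) 1 ≤
      ∫ t in (0 : ℝ)..1, (1 + ε * h (c t)) * ‖deriv c t‖ := by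
    unfold arcLen
    rw [← intervalIntegral.integral_const_mul]
    refine intervalIntegral.integral_mono_on zero_le_one
      (Continuous.intervalIntegrable (by fun_prop) _ _)
      (Continuous.intervalIntegrable (by fun_prop) _ _) fun t ht => ?_
    have b1 := (abs_le.1 (hh.bd _ (s.1.2.1 t ht).le)).1
    exact mul_le_mul_of_nonneg_right (by nlinarith) (norm_nonneg _)
  obtain ⟨b, α, hb, hyb, a0, a1, harc, -⟩ := exists_arc' hy hx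
  have up := rho_arc_le hh hg hc hy hb hyb a0
  rw [harc] at up
  have k1 := hh.phi_lip hy hb hyb α 0
  have k2 : PhiH h y b 0 = 0 := by simp [PhiH]
  rw [k2, sub_zero, sub_zero, abs_of_nonneg a0] at k1
  have k3 : PhiH h y b α ≤ 7 := by
    have := (abs_le.1 k1).2
    linarith
  have k4 : α + ε * PhiH h y b α ≤ π + 7 * ε := by nlinarith
  have k5 := mul_le_mul_of_nonneg_left k4 (by positivity : (0 : ℝ) ≤ 1 + 2 * ε ^ 2)
  have e2 : ε ^ 2 ≤ ε / 10 ^ 6 := by nlinarith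
  have e3 : 0 < ε ^ 2 := by positivity
  have k6 : (1 + 2 * ε ^ 2) * (π + 7 * ε) ≤ π + 8 * ε := by nlinarith
  have k7 := mul_le_mul_of_nonneg_left lo2 (by linarith : (0 : ℝ) ≤ 1 - 2 * ε ^ 2)
  have A0 : 0 ≤ arcLen (deriv c) 1 :=
    intervalIntegral.integral_nonneg zero_le_one fun t _ => norm_nonneg _
  set A := arcLen (deriv c) 1
  have k8 : (1 - 3 * ε) * A ≤ (1 - 2 * ε ^ 2) * ((1 - 2 * ε) * A) := by
    rw [← mul_assoc]
    exact mul_le_mul_of_nonneg_right (by nlinarith) A0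
  have k9 : (1 - 3 * ε) * A ≤ π + 8 * ε := by linarith
  have q3 : A ≤ 4 := by
    by_contra h4
    nlinarith
  nlinarith

theorem first_arith {ε L I R A B φL φ₁ φe D : ℝ} (hε : 0 < ε) (hε' : ε ≤ 1 / 10 ^ 6)
    (h1 : |π - L| ≤ 100 * (63 * ε)) (hD0 : 0 ≤ D) (hD : D ≤ 120 * (63 * ε))
    (h2 : π - A - 1000 * (63 * ε) ^ 2 ≤ L) (h3 : L + ε * φL - 544 * ε * (63 * ε) ≤ I)
    (h4 : (1 - 2 * ε ^ 2) * I ≤ R)
    (h5 : R ≤ (1 + 2 * ε ^ 2) * (π - B + ε * φe + D ^ 2 + 44 * ε * D))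
    (h6 : |φL - φ₁| ≤ 2 * |L - π|) (h7 : |φ₁| ≤ 8) (h8 : |φe| ≤ 8) (hA : |A| ≤ 1)
    (hB : |B| ≤ 1) : φ₁ - ε⁻¹ * A ≤ φe - ε⁻¹ * B + 10 ^ 9 * ε := by
  have hπ : π ≤ 4 := pi_le_four
  have e2 : 0 < ε ^ 2 := by positivity
  have e3 : ε ^ 2 ≤ 1 / 10 ^ 12 := by nlinarith
  rw [abs_sub_comm L π] at h6
  have a6 := (abs_le.1 (h6.trans (by linarith : 2 * |π - L| ≤ 12600 * ε))).1
  have b6 : ε * φ₁ - 12600 * ε ^ 2 ≤ ε * φL := by nlinarith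
  have a7 := abs_le.1 h7
  have a8 := abs_le.1 h8
  have aA := abs_le.1 hA
  have aB := abs_le.1 hB
  have b7 : ε * φ₁ ≤ 1 := by nlinarith
  have b8 : ε * φe ≤ 1 := by nlinarith
  have bD : D ^ 2 + 44 * ε * D ≤ 6 * 10 ^ 7 * ε ^ 2 := by nlinarith
  set lo := π - A + ε * φ₁ - 5 * 10 ^ 6 * ε ^ 2 with hlo
  set hi := π - B + ε * φe + 6 * 10 ^ 7 * ε ^ 2 with hhi
  have c1 : lo ≤ I := by rw [hlo]; nlinarith
  have c2 : (1 - 2 * ε ^ 2) * lo ≤ R :=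
    (mul_le_mul_of_nonneg_left c1 (by linarith)).trans h4
  have c3 : R ≤ (1 + 2 * ε ^ 2) * hi :=
    h5.trans (mul_le_mul_of_nonneg_left (by rw [hhi]; linarith) (by linarith))
  have c4 : lo ≤ 6 := by rw [hlo]; linarith
  have c5 : hi ≤ 7 := by rw [hhi]; linarith
  have c6 : lo ≤ hi + 26 * ε ^ 2 := by nlinarith
  have c7 : ε * φ₁ - A ≤ ε * φe - B + 10 ^ 9 * ε ^ 2 := by rw [hlo, hhi] at c6; linarith
  have c8 := mul_le_mul_of_nonneg_left c7 (inv_pos.2 hε).le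
  have i1 : ε⁻¹ * (ε * φ₁ - A) = φ₁ - ε⁻¹ * A := by field_simp
  have i2 : ε⁻¹ * (ε * φe - B + 10 ^ 9 * ε ^ 2) = φe - ε⁻¹ * B + 10 ^ 9 * ε := by field_simp
  rwa [i1, i2] at c8

/-- `IsSegment.nearGeo` with `η = 21 ε`, `κ = 63 ε`; `antipode`, `len_anti`, `estH`, `phi_lip`
bound `rho` below by `π - ⟪u₁, x⟫ + ε PhiH y u₁ π - O(ε ^ 2)`, `rho_two_arc` above -/
theorem first_order (hh : Adm h) {ε : ℝ} (hε : 0 < ε) (hε' : ε ≤ 1 / 10 ^ 6) {g : Met}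
    (hg : IsMetric g) (hc : Close h ε g) {c₁ c₂ : ℝ → E} {y x u₁ u₂ : E}
    (s₁ : IsSegment g c₁ y x) (s₂ : IsSegment g c₂ y x) (hu₁ : ‖u₁‖ = 1) (hu₂ : ‖u₂‖ = 1)
    (hd₁ : deriv c₁ 0 = ‖deriv c₁ 0‖ • u₁) (hd₂ : deriv c₂ 0 = ‖deriv c₂ 0‖ • u₂)
    (hu : inner ℝ u₁ u₂ ≤ 0) : AMin h (10 ^ 9 * ε) y (ε⁻¹ • x) u₁ := by
  obtain ⟨P₁, F₁, H₁⟩ := s₁.nearGeo hg (η := 21 * ε) (by positivity) (by linarith) hc.c0 hc.c1
  obtain ⟨P₂, F₂, H₂⟩ := s₂.nearGeo hg (η := 21 * ε) (by positivity) (by linarith) hc.c0 hc.c1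
  rw [show 3 * (21 * ε) = 63 * ε by ring] at H₁ H₂
  have hκ0 : 0 ≤ 63 * ε := by positivity
  have hκ : 63 * ε ≤ 1 / 10 ^ 4 := by linarith
  have h01 : (0 : ℝ) ∈ Icc (0 : ℝ) 1 := ⟨le_rfl, zero_le_one⟩
  have h11 : (1 : ℝ) ∈ Icc (0 : ℝ) 1 := ⟨zero_le_one, le_rfl⟩
  have y1 : c₁ 0 = y := s₁.1.2.2.1
  have x1 : c₁ 1 = x := s₁.1.2.2.2
  have y2 : c₂ 0 = y := s₂.1.2.2.1
  have x2 : c₂ 1 = x := s₂.1.2.2.2
  have hy : ‖y‖ = 1 := y1 ▸ H₁.unit 0 h01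
  have hx : ‖x‖ = 1 := x1 ▸ H₁.unit 1 h11
  have hyu : inner ℝ y u₁ = 0 := by
    have t := H₁.tang 0 h01
    rw [hd₁, inner_smul_right, y1] at t
    exact (mul_eq_zero.1 t).resolve_left (norm_ne_zero_iff.2 (H₁.ne 0 h01))
  obtain ⟨a₁, b₁⟩ := seg_arcLen hh hε hε' hg hc s₁
  obtain ⟨a₂, -⟩ := seg_arcLen hh hε hε' hg hc s₂
  have k1 := antipode H₁ H₂ hκ0 hκ (y2.trans y1.symm) (x2.trans x1.symm) hu₁ hu₂ hd₁ hd₂ hu a₁ a₂
  obtain ⟨k2, k3⟩ := len_anti H₁ hκ0 hκ hu₁ hd₁ k1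
  have h4 : arcLen (deriv c₁) 1 ≤ 4 := by linarith [pi_lt_d2]
  have k4 := estH hh H₁ hκ0 hε.le hu₁ hd₁ h4
  rw [y1, x1] at k2
  rw [x1] at k3
  rw [y1] at k4
  have hphi : ∀ e : E, ‖e‖ = 1 → inner ℝ y e = 0 → |PhiH h y e π| ≤ 8 := fun e he hye => by
    have t := hh.phi_lip hy he hye π 0
    have z : PhiH h y e 0 = 0 := by simp [PhiH]
    rw [z, sub_zero, sub_zero, abs_of_pos pi_pos] at t
    linarith [pi_le_four]
  have hin : ∀ e : E, ‖e‖ = 1 → |inner ℝ e x| ≤ 1 := fun e he => by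
    simpa [he, hx] using abs_real_inner_le_norm e x
  refine ⟨hu₁, hyu, fun e he hye => ?_⟩
  have k5 := rho_two_arc hh hε.le hg hc hy hx he hye (by linarith)
  rw [inner_smul_right, inner_smul_right]
  exact first_arith hε hε' k1 (norm_nonneg _) k2 k3 k4 b₁ k5 (hh.phi_lip hy hu₁ hyu _ _)
    (hphi _ hu₁ hyu) (hphi _ he hye) (hin _ hu₁) (hin _ he)

end Pool.Agent.Lib.MP_da270e_gt.SA
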