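import Pool.Agent.Lib.MP_da270e_gt.SA.Path

/-!
Existence and limits of metric geodesics.
-/

set_option autoImplicit false
set_option maxSynthPendingDepth 3

namespace Pool.Agent.Lib.MP_da270e_gt.SA

open Set Real Filter Topology
open scoped ContDiff

variable {g : Met} {m M C : ℝ}

/-- triangle inequality twice and `rhi` -/
theorem rho_tendsto (hg : IsMetric g) (hc : Cmp g m M C) {ι : Type} {l : Filter ι}
    {p q : ι → E} {p₀ q₀ : E} (hp : ∀ i, ‖p i‖ = 1) (hq : ∀ i, ‖q i‖ = 1) (hp₀ : ‖p₀‖ = 1)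
    (hq₀ : ‖q₀‖ = 1) (h1 : Tendsto p l (𝓝 p₀)) (h2 : Tendsto q l (𝓝 q₀)) :
    Tendsto (fun i => rho g (p i) (q i)) l (𝓝 (rho g p₀ q₀)) := by
  have e1 : Tendsto (fun i => M * ‖p i - p₀‖ + M * ‖q i - q₀‖) l (𝓝 0) := by
    have a1 := (tendsto_iff_norm_sub_tendsto_zero.1 h1).const_mul M
    have a2 := (tendsto_iff_norm_sub_tendsto_zero.1 h2).const_mul M
    simpa using a1.add a2
  refine tendsto_iff_norm_sub_tendsto_zero.2 (squeeze_zero (fun _ => norm_nonneg _) (fun i => ?_) e1)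
  have a1 := rho_tri hg (hp i) hp₀ (hq i)
  have a2 := rho_tri hg hp₀ hq₀ (hq i)
  have a3 := rho_tri hg hp₀ (hp i) hq₀
  have a4 := rho_tri hg (hp i) (hq i) hq₀
  have b1 := hc.rhi _ _ (hp i) hp₀
  have b2 := hc.rhi _ _ hq₀ (hq i)
  have b3 := hc.rhi _ _ hp₀ (hp i)
  have b4 := hc.rhi _ _ (hq i) hq₀
  rw [norm_sub_rev] at b1 b4
  rw [Real.norm_eq_abs, abs_le]
  constructor <;> linarith

/-- Reparametrise a path by arc length: `σ t = ∫ 0..t speed` is continuous and monotone; for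
`0 < t < 1` choose `s t ∈ [0, 1]` with `σ (s t) = t * len` (intermediate values; take the least
such `s`, or note that for `s t' < s t`, `t < t'` monotonicity forces `len = 0`), `s 0 = 0`,
`s 1 = 1`; `rho_sub`. A way without cases: use `σ t = ∫ 0..t speed + ε t`, strictly monotone. -/
theorem exists_AG_eps (hg : IsMetric g) {y x : E} (hy : ‖y‖ = 1) (hx : ‖x‖ = 1) {ε : ℝ}
    (hε : 0 < ε) : ∃ γ, AG g (rho g y x + ε) γ y x := by
  obtain ⟨c, ⟨hc, hu, h0, h1⟩, hl⟩ := exists_near g hy hx (half_pos hε)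
  have hd : Continuous (deriv c) := hc.continuous_deriv le_rfl
  have hf : Continuous fun r => √(g (c r) (deriv c r) (deriv c r)) :=
    (((hg.1.continuous.comp hc.continuous).clm_apply hd).clm_apply hd).sqrt
  obtain ⟨σ, hσ⟩ : ∃ σ : ℝ → ℝ, ∀ t, σ t =
      (∫ r in (0 : ℝ)..t, √(g (c r) (deriv c r) (deriv c r))) + ε / 2 * t := ⟨_, fun _ => rfl⟩
  have hsub : ∀ s t, σ t - σ s =
      (∫ r in s..t, √(g (c r) (deriv c r) (deriv c r))) + ε / 2 * (t - s) := fun s t => by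
    rw [hσ, hσ, ← intervalIntegral.integral_interval_sub_left (hf.intervalIntegrable 0 t)
      (hf.intervalIntegrable 0 s)]
    ring
  have hm : StrictMono σ := fun s t hst => by
    have i1 : 0 ≤ ∫ r in s..t, √(g (c r) (deriv c r) (deriv c r)) :=
      intervalIntegral.integral_nonneg hst.le fun _ _ => sqrt_nonneg _
    have i2 := hsub s t
    have i3 : 0 < ε / 2 * (t - s) := mul_pos (half_pos hε) (sub_pos.2 hst)
    linarith
  have hcont : Continuous σ := by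
    rw [funext hσ]
    exact (intervalIntegral.continuous_primitive (fun a b => hf.intervalIntegrable a b) 0).add
      (continuous_const.mul continuous_id)
  have s0 : σ 0 = 0 := by rw [hσ]; simp
  have s1 : σ 1 ≤ rho g y x + ε := by
    rw [hσ]
    have : (∫ r in (0 : ℝ)..1, √(g (c r) (deriv c r) (deriv c r))) = len g c := rfl
    linarith
  have s2 : 0 < σ 1 := s0 ▸ hm one_pos
  have hex : ∀ t : ℝ, ∃ s, t ∈ Icc (0 : ℝ) 1 → s ∈ Icc (0 : ℝ) 1 ∧ σ s = t * σ 1 := fun t => by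
    by_cases ht : t ∈ Icc (0 : ℝ) 1
    · obtain ⟨s, hs, e⟩ := intermediate_value_Icc zero_le_one hcont.continuousOn
        (show t * σ 1 ∈ Icc (σ 0) (σ 1) from
          ⟨s0.le.trans (mul_nonneg ht.1 s2.le), mul_le_of_le_one_left s2.le ht.2⟩)
      exact ⟨s, fun _ => ⟨hs, e⟩⟩
    · exact ⟨0, fun h => absurd h ht⟩
  choose S hS using hex
  refine ⟨fun t => c (S t), ?_, ?_, fun t ht => hu _ (hS t ht).1, fun s t hs hst ht => ?_⟩
  · have : S 0 = 0 := hm.injective (by rw [(hS 0 ⟨le_rfl, zero_le_one⟩).2, s0, zero_mul])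
    simp only [this, h0]
  · have : S 1 = 1 := hm.injective (by rw [(hS 1 ⟨zero_le_one, le_rfl⟩).2, one_mul])
    simp only [this, h1]
  · obtain ⟨a1, a2⟩ := hS s ⟨hs, hst.trans ht⟩
    obtain ⟨b1, b2⟩ := hS t ⟨hs.trans hst, ht⟩
    have i1 : S s ≤ S t := hm.le_iff_le.1 (by
      rw [a2, b2]; exact mul_le_mul_of_nonneg_right hst s2.le)
    have i2 := rho_sub hg hc i1 fun r hr => hu r ⟨a1.1.trans hr.1, hr.2.trans b1.2⟩
    have i3 := hsub (S s) (S t)
    have i4 : 0 ≤ ε / 2 * (S t - S s) := mul_nonneg (half_pos hε).le (sub_nonneg.2 i1)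
    have i5 := mul_le_mul_of_nonneg_left s1 (sub_nonneg.2 hst)
    rw [a2, b2] at i3
    linarith

/-- pointwise limits along an ultrafilter (the sphere is compact) -/
theorem AG.lim (hg : IsMetric g) (hc : Cmp g m M C) {ι : Type} (𝒰 : Ultrafilter ι)
    {η : ι → ℝ} {γ : ι → ℝ → E} {y x : ι → E} (h : ∀ i, AG g (η i) (γ i) (y i) (x i))
    {η₀ : ℝ} {y₀ x₀ : E} (hη : Tendsto η 𝒰 (𝓝 η₀)) (hy : Tendsto y 𝒰 (𝓝 y₀))
    (hx : Tendsto x 𝒰 (𝓝 x₀)) : ∃ γ₀, AG g η₀ γ₀ y₀ x₀ ∧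
      ∀ t ∈ Icc (0 : ℝ) 1, Tendsto (fun i => γ i t) 𝒰 (𝓝 (γ₀ t)) := by
  have key : ∀ t ∈ Icc (0 : ℝ) 1, ∃ a : E, ‖a‖ = 1 ∧ Tendsto (fun i => γ i t) 𝒰 (𝓝 a) := by
    intro t ht
    obtain ⟨a, ha, hl⟩ := (isCompact_sphere (0 : E) 1).ultrafilter_le_nhds (𝒰.map fun i => γ i t)
      (le_principal_iff.2 (Ultrafilter.mem_map.2 (univ_mem' fun i =>
        mem_sphere_zero_iff_norm.2 ((h i).unit t ht))))
    exact ⟨a, mem_sphere_zero_iff_norm.1 ha, hl⟩
  choose! γ₀ h1 h2 using key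
  refine ⟨γ₀, ⟨?_, ?_, h1, fun s t hs hst ht => ?_⟩, h2⟩
  · have a1 := h2 0 ⟨le_rfl, zero_le_one⟩
    simp only [(h _).src] at a1
    exact tendsto_nhds_unique a1 hy
  · have a1 := h2 1 ⟨zero_le_one, le_rfl⟩
    simp only [(h _).tgt] at a1
    exact tendsto_nhds_unique a1 hx
  · have ms : s ∈ Icc (0 : ℝ) 1 := ⟨hs, hst.trans ht⟩
    have mt : t ∈ Icc (0 : ℝ) 1 := ⟨hs.trans hst, ht⟩
    exact le_of_tendsto_of_tendsto'
      (rho_tendsto hg hc (fun i => (h i).unit s ms) (fun i => (h i).unit t mt) (h1 s ms) (h1 t mt)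
        (h2 s ms) (h2 t mt)) (hη.const_mul (t - s)) (fun i => (h i).lip s t hs hst ht)

theorem exists_AG (hg : IsMetric g) (hc : Cmp g m M C) {y x : E} (hy : ‖y‖ = 1) (hx : ‖x‖ = 1) :
    ∃ γ, AG g (rho g y x) γ y x := by
  choose γ hγ using fun n : ℕ => exists_AG_eps hg hy hx (Nat.one_div_pos_of_nat (n := n))
  have h1 : Tendsto (fun n : ℕ => rho g y x + 1 / ((n : ℝ) + 1)) (hyperfilter ℕ)
      (𝓝 (rho g y x)) := by
    have := (tendsto_one_div_add_atTop_nhds_zero_nat (𝕜 := ℝ)).const_add (rho g y x)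
    rw [add_zero] at this
    exact this.mono_left Nat.hyperfilter_le_atTop
  obtain ⟨γ₀, h2, -⟩ := AG.lim hg hc (hyperfilter ℕ) (y := fun _ => y) (x := fun _ => x) hγ h1
    tendsto_const_nhds tendsto_const_nhds
  exact ⟨γ₀, h2⟩

/-- `L ≤ rho y (γ s) + rho (γ s) (γ t) + rho (γ t) x` -/
theorem AG.eq (hg : IsMetric g) {γ : ℝ → E} {y x : E} (h : AG g (rho g y x) γ y x) {s t : ℝ}
    (hs : 0 ≤ s) (hst : s ≤ t) (ht : t ≤ 1) : rho g (γ s) (γ t) = (t - s) * rho g y x := by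
  have u0 := h.unit 0 ⟨le_rfl, zero_le_one⟩
  have u1 := h.unit 1 ⟨zero_le_one, le_rfl⟩
  have us := h.unit s ⟨hs, hst.trans ht⟩
  have ut := h.unit t ⟨hs.trans hst, ht⟩
  have i1 := rho_tri hg u0 us u1
  have i2 := rho_tri hg us ut u1
  have i3 := h.lip 0 s le_rfl hs (hst.trans ht)
  have i4 := h.lip t 1 (hs.trans hst) ht le_rfl
  have i5 := h.lip s t hs hst ht
  rw [h.src] at i1 i3
  rw [h.tgt] at i1 i2 i4
  linarith

end Pool.Agent.Lib.MP_da270e_gt.SA
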