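import Pool.Agent.Lib.MP_da270e_gt.SA.Base

/-!
Odd trigonometric polynomials of degree three and the regular pentagon.
-/

set_option autoImplicit false
set_option maxSynthPendingDepth 3

namespace Pool.Agent.Lib.MP_da270e_gt.SA

open Set Real
open scoped ContDiff

variable {T : ℝ → ℝ}

theorem Trig3.add_pi (hT : Trig3 T) (φ : ℝ) : T (φ + π) = -T φ := by
  obtain ⟨A, B, C, D, h⟩ := hT
  rw [h, h, show 3 * (φ + π) = 3 * φ + π + 2 * π by ring, cos_add_two_pi, sin_add_two_pi,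
    cos_add_pi, sin_add_pi, cos_add_pi, sin_add_pi]
  ring

theorem Trig3.add_int (hT : Trig3 T) (φ : ℝ) (k : ℤ) : T (φ + k * (2 * π)) = T φ := by
  obtain ⟨A, B, C, D, h⟩ := hT
  rw [h, h, show 3 * (φ + k * (2 * π)) = 3 * φ + ((3 * k : ℤ) : ℝ) * (2 * π) by push_cast; ring,
    cos_add_int_mul_two_pi, sin_add_int_mul_two_pi, cos_add_int_mul_two_pi,
    sin_add_int_mul_two_pi]

theorem Trig3.const_mul (hT : Trig3 T) (c : ℝ) : Trig3 fun φ => c * T φ := by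
  obtain ⟨A, B, C, D, h⟩ := hT
  exact ⟨c * A, c * B, c * C, c * D, fun φ => by simp only [h]; ring⟩

theorem Trig3.exists_min (hT : Trig3 T) : ∃ φ₀, ∀ φ, T φ₀ ≤ T φ := by
  have hp : Function.Periodic T (2 * π) := fun φ => by simpa using hT.add_int φ 1
  obtain ⟨A, B, C, D, h⟩ := hT
  have hc : Continuous T := by
    rw [funext h]
    fun_prop
  obtain ⟨φ₀, -, h0⟩ := (isCompact_Icc (a := (0 : ℝ)) (b := 2 * π)).exists_isMinOn
    (nonempty_Icc.2 two_pi_pos.le) hc.continuousOn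
  refine ⟨φ₀, fun φ => ?_⟩
  obtain ⟨y, hy, e⟩ := hp.exists_mem_Ico₀ two_pi_pos φ
  rw [e]
  exact h0 (Ico_subset_Icc_self hy)

/-- Bernstein's inequality from the identity
`T' φ = 4/3 T (φ + π/6) - 1/3 T (φ + π/2) + 4/3 T (φ + 5π/6)` and `|T| ≤ M` (`add_pi`) -/
theorem Trig3.lip (hT : Trig3 T) {M : ℝ} (hM : ∀ φ, -M ≤ T φ) (a b : ℝ) :
    |T a - T b| ≤ 3 * M * |a - b| := by
  have up : ∀ φ, T φ ≤ M := fun φ => by linarith [hM (φ + π), hT.add_pi φ]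
  obtain ⟨A, B, C, D, h⟩ := hT
  have hd : ∀ φ, HasDerivAt T
      (4 / 3 * T (φ + π / 6) - 4 / 3 * T (φ - π / 6) - 1 / 3 * T (φ + π / 2)) φ := by
    intro φ
    have h3 : HasDerivAt (fun x : ℝ => 3 * x) 3 φ := by simpa using (hasDerivAt_id φ).const_mul 3
    have h4 := ((((hasDerivAt_cos φ).const_mul A).add ((hasDerivAt_sin φ).const_mul B)).add
      (h3.cos.const_mul C)).add (h3.sin.const_mul D)
    refine (h4.congr_deriv ?_).congr_of_eventuallyEq (Filter.Eventually.of_forall h)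
    rw [h, h, h, show 3 * (φ + π / 6) = 3 * φ + π / 2 by ring,
      show 3 * (φ - π / 6) = 3 * φ - π / 2 by ring,
      show 3 * (φ + π / 2) = 3 * φ - π / 2 + 2 * π by ring, cos_add_two_pi, sin_add_two_pi,
      cos_add_pi_div_two, sin_add_pi_div_two, cos_add_pi_div_two, sin_add_pi_div_two,
      cos_sub_pi_div_two, sin_sub_pi_div_two, cos_add, sin_add, cos_sub, sin_sub,
      cos_pi_div_six, sin_pi_div_six]
    ring
  exact convex_univ.norm_image_sub_le_of_norm_hasDerivWithin_le (C := 3 * M)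
    (fun x _ => (hd x).hasDerivWithinAt) (fun x _ => abs_le.2
      ⟨by linarith [hM (x + π / 6), up (x - π / 6), up (x + π / 2)],
        by linarith [up (x + π / 6), hM (x - π / 6), hM (x + π / 2)]⟩) (mem_univ b) (mem_univ a)

/-- if `cos (φ₁ - φ₂) < cos θ` with `0 ≤ θ ≤ π`, then `φ₂ - φ₁` is within `π - θ` of an odd
multiple of `π` -/
theorem exists_shift {θ φ₁ φ₂ : ℝ} (h0 : 0 ≤ θ) (h1 : θ ≤ π) (h : cos (φ₁ - φ₂) < cos θ) :
    ∃ k : ℤ, |φ₂ + k * (2 * π) - φ₁ - π| < π - θ := by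
  obtain ⟨k, hk⟩ := (existsUnique_add_zsmul_mem_Ioc two_pi_pos (φ₂ - φ₁ - π) (-π)).exists
  rw [zsmul_eq_mul] at hk
  refine ⟨k, ?_⟩
  rw [show φ₂ + k * (2 * π) - φ₁ - π = φ₂ - φ₁ - π + k * (2 * π) by ring]
  by_contra hn
  have h2 := cos_le_cos_of_nonneg_of_le_pi (by linarith)
    (abs_le.2 ⟨hk.1.le, by linarith [hk.2]⟩) (not_lt.1 hn)
  rw [cos_abs, cos_add_int_mul_two_pi, cos_sub_pi, cos_pi_sub, ← cos_neg (φ₂ - φ₁), neg_sub] at h2
  linarith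

theorem exists_vertex {δ φ : ℝ} (h0 : 0 ≤ δ) (h1 : 5 * δ ≤ π) (h : cos (5 * δ) < cos (5 * φ)) :
    ∃ j : ℤ, |φ - 2 * π * j / 5| < δ := by
  obtain ⟨k, hk⟩ := exists_shift (θ := π - 5 * δ) (φ₁ := 0) (φ₂ := 5 * φ + π) (by linarith)
    (by linarith) (by rw [zero_sub, cos_neg, cos_add_pi, cos_pi_sub]; linarith)
  refine ⟨-k, ?_⟩
  obtain ⟨h2, h3⟩ := abs_lt.1 hk
  push_cast
  exact abs_lt.2 ⟨by linarith, by linarith⟩

/-- with `M = -T φ₀`: `T φ₁ ≤ -M + γ`, `T (φ₂ - π) ≥ M - γ`, `2 M - 2 γ ≤ 3 M π / 5` -/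
theorem Trig3.far (hT : Trig3 T) {φ₀ γ φ₁ φ₂ : ℝ} (hm : ∀ φ, T φ₀ ≤ T φ) (h1 : T φ₁ ≤ T φ₀ + γ)
    (h2 : T φ₂ ≤ T φ₀ + γ) (hγ : 20 * γ < -T φ₀) : cos (4 * π / 5) ≤ cos (φ₁ - φ₂) := by
  by_contra hn
  obtain ⟨k, hk⟩ := exists_shift (θ := 4 * π / 5) (by positivity) (by linarith [pi_pos])
    (not_le.1 hn)
  have g0 : 0 ≤ γ := by linarith [hm φ₁]
  have h3 := hT.lip (M := -T φ₀) (fun φ => by linarith [hm φ]) (φ₂ + k * (2 * π) - π) φ₁
  have h4 := hT.add_pi (φ₂ + k * (2 * π) - π)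
  rw [sub_add_cancel, hT.add_int] at h4
  rw [sub_right_comm (φ₂ + k * (2 * π)) π φ₁] at h3
  have h5 := mul_le_mul_of_nonneg_left (hk.le.trans (show π - 4 * π / 5 ≤ 0.63 by
    linarith [pi_lt_d2])) (show 0 ≤ 3 * -T φ₀ by linarith)
  linarith [le_abs_self (T (φ₂ + k * (2 * π) - π) - T φ₁)]

/-- a point near a vertex and a point opposite to an almost minimiser are not close -/
theorem Trig3.trig_mix (hT : Trig3 T) {M δ γ x y : ℝ} (hM : ∀ φ, -M ≤ T φ) (hδ : δ ≤ 1 / 100)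
    (hγ : 49 * γ < M) (g0 : 0 ≤ γ) {j : ℤ} (hj : |x - 2 * π * j / 5| < δ)
    (hx : ∀ i : ℤ, T x ≤ T (2 * π * i / 5) + γ) (hy : M - γ ≤ T y) (hd : |y - x| ≤ π / 5 - 2 * δ) :
    False := by
  have key : ∀ (i : ℤ) (q : ℝ), q + π = 2 * π * i / 5 → |y - x| + |y - q| ≤ π / 5 + δ → False := by
    intro i q hq h
    have a1 := hx i
    rw [← hq, hT.add_pi] at a1
    have a2 := hT.lip hM y x
    have a3 := hT.lip hM y q
    have a4 := mul_le_mul_of_nonneg_left (h.trans (show π / 5 + δ ≤ 0.64 by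
      linarith [pi_lt_d2])) (show 0 ≤ 3 * M by linarith)
    linarith [le_abs_self (T y - T x), le_abs_self (T y - T q)]
  obtain ⟨j1, j2⟩ := abs_lt.1 hj
  obtain ⟨d1, d2⟩ := abs_le.1 hd
  rcases le_total (2 * π * j / 5) y with h | h
  · refine key (j + 3) (2 * π * j / 5 + π / 5) (by push_cast; ring) ?_
    rw [abs_of_nonpos (a := y - (2 * π * j / 5 + π / 5)) (by linarith)]
    have : |y - x| ≤ y - 2 * π * j / 5 + δ := abs_le.2 ⟨by linarith, by linarith⟩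
    linarith
  · refine key (j + 2) (2 * π * j / 5 - π / 5) (by push_cast; ring) ?_
    rw [abs_of_nonneg (a := y - (2 * π * j / 5 - π / 5)) (by linarith)]
    have : |y - x| ≤ 2 * π * j / 5 - y + δ := abs_le.2 ⟨by linarith, by linarith⟩
    linarith

/-- Suppose not; shift `φ₂` by `exists_shift`. Let `M = -min T`. Each `φᵢ` is near (within `δ` of
a vertex `2πj/5`, and `T φᵢ ≤ T p + γ` for every vertex `p`) or far (`0 ≤ ψ φᵢ`, so
`T φᵢ ≤ -M + γ`, and `-M ≤ T φᵢ ≤ -I + T 0 + γ ≤ -I + M + γ` gives `2 M ≥ I - γ`).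
Near, near: `|2πj/5 - π| < π/5` has no integer solution. Far, far: `Trig3.far`. Near `φ₁` at `p`,
far `φ₂ = p + π + a`, `|a| ≤ π/5`: `T φ₁ ≥ M - γ - 3 M (|a| + δ)`, and the vertex `p' = p + 6π/5`
(`a ≥ 0`) or `p + 4π/5` has `T p' ≤ -M + γ + 3 M (π/5 - |a|)`, so
`M (2 - 3π/5 - 3 δ) ≤ 3 γ`, false. -/
theorem Trig3.pent (hT : Trig3 T) {ψ : ℝ → ℝ} {I δ γ φ₁ φ₂ : ℝ} (hI : 0 < I) (hδ : 0 < δ)
    (hδ' : δ ≤ 1 / 100) (hγ : γ ≤ I / 100) (lo : ∀ φ, -I ≤ ψ φ) (np : ∀ φ, ψ φ ≤ 0)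
    (vx : ∀ j : ℤ, ψ (2 * π * j / 5) ≤ -I) (out : ∀ φ, cos (5 * φ) ≤ cos (5 * δ) → 0 ≤ ψ φ)
    (h1 : ∀ φ, ψ φ₁ + T φ₁ ≤ ψ φ + T φ + γ) (h2 : ∀ φ, ψ φ₂ + T φ₂ ≤ ψ φ + T φ + γ) :
    cos (4 * π / 5 + 2 * δ) ≤ cos (φ₁ - φ₂) := by
  by_contra hn
  have p3 := pi_gt_three
  obtain ⟨k, hk⟩ := exists_shift (θ := 4 * π / 5 + 2 * δ) (by positivity) (by linarith)
    (not_le.1 hn)
  obtain ⟨φ₀, hm⟩ := hT.exists_min
  have g0 : 0 ≤ γ := by linarith [h1 φ₁]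
  have hM : ∀ φ, -(-T φ₀) ≤ T φ := fun φ => by linarith [hm φ]
  have alt : ∀ x, (∀ φ, ψ x + T x ≤ ψ φ + T φ + γ) →
      (T x ≤ T φ₀ + γ ∧ 49 * γ < -T φ₀) ∨
      ((∃ j : ℤ, |x - 2 * π * j / 5| < δ) ∧ ∀ j : ℤ, T x ≤ T (2 * π * j / 5) + γ) := by
    intro x hx
    rcases le_or_gt (cos (5 * x)) (cos (5 * δ)) with hc | hc
    · have a1 := out x hc
      refine Or.inl ⟨by linarith [hx φ₀, np φ₀], ?_⟩
      linarith [hx (2 * π * (0 : ℤ) / 5), vx 0, hm x, hm (2 * π * (0 : ℤ) / 5 + π),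
        hT.add_pi (2 * π * (0 : ℤ) / 5)]
    · exact Or.inr ⟨exists_vertex hδ.le (by linarith) hc, fun j => by
        linarith [hx (2 * π * j / 5), vx j, lo x]⟩
  obtain ⟨k1, k2⟩ := abs_lt.1 hk
  rcases alt φ₁ h1 with ⟨a1, a2⟩ | ⟨⟨j, hj⟩, a2⟩ <;>
    rcases alt φ₂ h2 with ⟨b1, b2⟩ | ⟨⟨i, hi⟩, b2⟩
  · have h3 := hT.far hm a1 b1 (by linarith)
    have h4 : cos (4 * π / 5 + 2 * δ) ≤ cos (4 * π / 5) :=
      cos_le_cos_of_nonneg_of_le_pi (by positivity) (by linarith) (by linarith)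
    exact hn (h4.trans h3)
  · have h4 := hT.add_int (φ₁ + π) (-k)
    rw [hT.add_pi] at h4
    refine hT.trig_mix hM hδ' a2 g0 hi b2 (y := φ₁ + π + ((-k : ℤ) : ℝ) * (2 * π))
      (by linarith) ?_
    push_cast
    exact abs_le.2 ⟨by linarith, by linarith⟩
  · have h4 := hT.add_pi (φ₂ + k * (2 * π) - π)
    rw [sub_add_cancel, hT.add_int] at h4
    exact hT.trig_mix hM hδ' b2 g0 hj a2 (y := φ₂ + k * (2 * π) - π) (by linarith)
      (abs_le.2 ⟨by linarith, by linarith⟩)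
  · obtain ⟨j1, j2⟩ := abs_lt.1 hj
    obtain ⟨i1, i2⟩ := abs_lt.1 hi
    have c1 : π * 2 < π * ((i + 5 * k - j : ℤ) : ℝ) := by push_cast; linarith
    have c2 : π * ((i + 5 * k - j : ℤ) : ℝ) < π * 3 := by push_cast; linarith
    have c3 : (2 : ℤ) < i + 5 * k - j := by exact_mod_cast lt_of_mul_lt_mul_left c1 pi_pos.le
    have c4 : i + 5 * k - j < (3 : ℤ) := by exact_mod_cast lt_of_mul_lt_mul_left c2 pi_pos.le
    omega

theorem trig3_cubic (A B a b : ℝ) :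
    Trig3 fun φ => A * cos φ + B * sin φ + 4 / 3 * (a * cos φ + b * sin φ) ^ 3 := by
  refine ⟨A + a ^ 3 + a * b ^ 2, B + a ^ 2 * b + b ^ 3, a ^ 3 / 3 - a * b ^ 2,
    a ^ 2 * b - b ^ 3 / 3, fun φ => ?_⟩
  simp only [cos_three_mul, sin_three_mul]
  linear_combination (4 * a ^ 2 * b * sin φ + 4 * a * b ^ 2 * cos φ) * sin_sq_add_cos_sq φ

/-- average over `π`, `π / 3`, `-π / 3` -/
theorem cubic_min (A B a : ℝ) :
    ∃ φ, A * cos φ + B * sin φ + 4 / 3 * (a * cos φ + 0 * sin φ) ^ 3 ≤ -(a ^ 3 / 3) := by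
  by_contra hn
  simp only [not_exists, not_le] at hn
  have h1 := hn π
  have h2 := hn (π / 3)
  have h3 := hn (-(π / 3))
  rw [cos_pi, sin_pi] at h1
  rw [cos_neg, sin_neg, cos_pi_div_three] at h3
  rw [cos_pi_div_three] at h2
  linarith

end Pool.Agent.Lib.MP_da270e_gt.SA
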