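import Pool.Agent.Lib.MP_da270e_gt.SA.Quad
import Pool.Agent.Lib.MP_da270e_gt.SA.GenH
import Pool.Agent.Lib.MP_da270e_gt.SA.Trig

/-!
The perturbation function: a cubic plus a small bump with the symmetry of the pentagon.
-/

set_option autoImplicit false
set_option maxSynthPendingDepth 3

namespace Pool.Agent.Lib.MP_da270e_gt.SA

open Set Real
open scoped ContDiff

/-- real part of `(p₁ + i p₂) ^ 5` -/
def Wf (p : E) : ℝ := p 1 ^ 5 - 10 * p 1 ^ 3 * p 2 ^ 2 + 5 * p 1 * p 2 ^ 4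

/-- the bump -/
noncomputable def kf (δ : ℝ) (p : E) : ℝ := -expNegInvGlue (Wf p - cos (5 * δ))

/-- its integral over the half great circles through the pole -/
noncomputable def psi (δ φ : ℝ) : ℝ :=
  ∫ t in (0 : ℝ)..π, -expNegInvGlue (sin t ^ 5 * cos (5 * φ) - cos (5 * δ))

theorem contDiff_kf (δ : ℝ) : ContDiff ℝ ∞ (kf δ) := by
  have h : ∀ i : Fin 3, ContDiff ℝ ∞ (fun p : E => p i) := fun i =>
    (EuclideanSpace.proj i : E →L[ℝ] ℝ).contDiff
  have hW : ContDiff ℝ ∞ Wf := by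
    unfold Wf
    exact (((h 1).pow 5).sub ((contDiff_const.mul ((h 1).pow 3)).mul ((h 2).pow 2))).add
      ((contDiff_const.mul (h 1)).mul ((h 2).pow 4))
  unfold kf
  exact (expNegInvGlue.contDiff.comp (hW.sub contDiff_const)).neg

/-- `I = ∫ 0..π expNegInvGlue (sin t ^ 5 - cos (5 δ))`, positive at `t = π / 2`;
`expNegInvGlue` is monotone and vanishes on `(-∞, 0]`, `0 ≤ cos (5 δ) < 1` -/
theorem psi_props {δ : ℝ} (hδ : 0 < δ) (hδ' : δ ≤ 1 / 100) : ∃ I, 0 < I ∧ (∀ φ, -I ≤ psi δ φ) ∧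
    (∀ φ, psi δ φ ≤ 0) ∧ (∀ j : ℤ, psi δ (2 * π * j / 5) ≤ -I) ∧
      ∀ φ, cos (5 * φ) ≤ cos (5 * δ) → 0 ≤ psi δ φ := by
  have hg : Continuous expNegInvGlue := (expNegInvGlue.contDiff (n := 0)).continuous
  have hpi := pi_gt_three
  have hc0 : 0 ≤ cos (5 * δ) := cos_nonneg_of_neg_pi_div_two_le_of_le (by linarith) (by linarith)
  have hc1 : cos (5 * δ) < 1 := by
    have := cos_lt_cos_of_nonneg_of_le_pi (x := 0) (y := 5 * δ) le_rfl (by linarith) (by linarith)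
    rwa [cos_zero] at this
  have hcont : ∀ x : ℝ, Continuous fun t : ℝ => expNegInvGlue (sin t ^ 5 * x - cos (5 * δ)) :=
    fun x => hg.comp (by fun_prop)
  have hpsi : ∀ φ, psi δ φ =
      -∫ t in (0 : ℝ)..π, expNegInvGlue (sin t ^ 5 * cos (5 * φ) - cos (5 * δ)) := fun φ => by
    unfold psi
    rw [intervalIntegral.integral_neg]
  have hs : ∀ t ∈ Icc (0 : ℝ) π, 0 ≤ sin t ^ 5 ∧ sin t ^ 5 ≤ 1 := fun t ht =>
    ⟨pow_nonneg (sin_nonneg_of_nonneg_of_le_pi ht.1 ht.2) 5,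
      pow_le_one₀ (sin_nonneg_of_nonneg_of_le_pi ht.1 ht.2) (sin_le_one t)⟩
  refine ⟨∫ t in (0 : ℝ)..π, expNegInvGlue (sin t ^ 5 * 1 - cos (5 * δ)), ?_, fun φ => ?_,
    fun φ => ?_, fun j => ?_, fun φ hφ => ?_⟩
  · refine intervalIntegral.integral_pos pi_pos (hcont 1).continuousOn
      (fun t _ => expNegInvGlue.nonneg _) ⟨π / 2, ⟨by linarith, by linarith⟩, ?_⟩
    refine expNegInvGlue.pos_of_pos ?_
    rw [sin_pi_div_two]
    linarith
  · rw [hpsi, neg_le_neg_iff]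
    refine intervalIntegral.integral_mono_on pi_pos.le ((hcont _).intervalIntegrable _ _)
      ((hcont _).intervalIntegrable _ _) fun t ht => expNegInvGlue.monotone ?_
    have := mul_le_mul_of_nonneg_left (cos_le_one (5 * φ)) (hs t ht).1
    linarith
  · rw [hpsi, neg_nonpos]
    exact intervalIntegral.integral_nonneg pi_pos.le fun t _ => expNegInvGlue.nonneg _
  · rw [hpsi]
    have e : 5 * (2 * π * j / 5) = (j : ℝ) * (2 * π) := by ring
    rw [e, cos_int_mul_two_pi]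
  · rw [hpsi, neg_nonneg]
    have h0 : ∫ _t in (0 : ℝ)..π, (0 : ℝ) = 0 := by simp
    refine le_of_le_of_eq (intervalIntegral.integral_mono_on pi_pos.le
      ((hcont _).intervalIntegrable _ _) (continuous_const.intervalIntegrable _ _)
      fun t ht => ?_) h0
    refine (expNegInvGlue.zero_of_nonpos ?_).le
    obtain ⟨h1, h2⟩ := hs t ht
    have h3 := mul_le_mul_of_nonneg_left hφ h1
    have h4 := mul_le_mul_of_nonneg_right h2 hc0
    linarith

theorem phi_cube (y e : E) :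
    PhiH (fun p => p 0 ^ 3) y e π = 2 * y 0 ^ 2 * e 0 + 4 / 3 * e 0 ^ 3 := by
  have hd : ∀ r ∈ uIcc (0 : ℝ) π, HasDerivAt (fun r : ℝ =>
      y 0 ^ 3 * (sin r - sin r ^ 3 / 3) - y 0 ^ 2 * e 0 * cos r ^ 3 + y 0 * e 0 ^ 2 * sin r ^ 3 +
        e 0 ^ 3 * (cos r ^ 3 / 3 - cos r)) ((cos r * y 0 + sin r * e 0) ^ 3) r := fun r _ => by
    have hs := hasDerivAt_sin r
    have hc := hasDerivAt_cos r
    have h := ((((hs.sub ((hs.pow 3).div_const 3)).const_mul (y 0 ^ 3)).sub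
      ((hc.pow 3).const_mul (y 0 ^ 2 * e 0))).add ((hs.pow 3).const_mul (y 0 * e 0 ^ 2))).add
      ((((hc.pow 3).div_const 3).sub hc).const_mul (e 0 ^ 3))
    refine h.congr_deriv ?_
    have h1 := sin_sq_add_cos_sq r
    simp only [Nat.cast_ofNat, Nat.add_one_sub_one]
    linear_combination (-(y 0 ^ 3 * cos r) - e 0 ^ 3 * sin r) * h1
  have he : ∀ r : ℝ, (arc y e r) 0 = cos r * y 0 + sin r * e 0 := fun r => by
    simp [arc]
  unfold PhiH
  simp only [he]
  rw [intervalIntegral.integral_eq_sub_of_hasDerivAt hd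
    (Continuous.intervalIntegrable (by fun_prop) _ _)]
  simp only [sin_pi, cos_pi, sin_zero, cos_zero]
  ring

theorem phi_add {h k : E → ℝ} (hh : Continuous h) (hk : Continuous k) (η : ℝ) (y e : E) :
    PhiH (fun p => h p + η * k p) y e π = PhiH h y e π + η * PhiH k y e π := by
  unfold PhiH
  have h1 : Continuous fun r : ℝ => h (arc y e r) := hh.comp (continuous_arc y e)
  have h2 : Continuous fun r : ℝ => η * k (arc y e r) :=
    continuous_const.mul (hk.comp (continuous_arc y e))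
  rw [intervalIntegral.integral_add (h1.intervalIntegrable _ _) (h2.intervalIntegrable _ _),
    intervalIntegral.integral_const_mul]

/-- `frame` with `k = 1`; change the sign of the second vector to make its last coordinate
nonnegative; `b 1 = 0` and `⟪y, b⟫ = 0` give `b 0 ^ 2 y 0 ^ 2 = b 2 ^ 2 y 2 ^ 2` -/
theorem frame_pole {y : E} (hy : ‖y‖ = 1) {ν : ℝ} (hν0 : 0 ≤ ν) (hν : ν ≤ 1 / 2)
    (h : 1 - y 0 ^ 2 ≤ ν ^ 2) : ∃ a b : E, ‖a‖ = 1 ∧ ‖b‖ = 1 ∧ inner ℝ y a = 0 ∧ inner ℝ y b = 0 ∧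
      inner ℝ a b = 0 ∧ ‖a - !₂[0, 1, 0]‖ ≤ 2 * ν ∧ ‖b - !₂[0, 0, 1]‖ ≤ 2 * ν := by
  have sq : ∀ p : E, ‖p‖ = 1 → p 0 ^ 2 + p 1 ^ 2 + p 2 ^ 2 = 1 := fun p hp => by
    have : inner ℝ p p = (1 : ℝ) := by rw [real_inner_self_eq_norm_sq, hp]; norm_num
    rw [inner_coord] at this
    linarith
  have nsq : ∀ p : E, ‖p‖ ^ 2 = p 0 ^ 2 + p 1 ^ 2 + p 2 ^ 2 := fun p => by
    rw [← real_inner_self_eq_norm_sq, inner_coord]; ring
  have hy2 := sq y hy
  have hν2 : ν ^ 2 ≤ 1 / 4 := by nlinarith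
  obtain ⟨a, b, ha, hb, hya, hyb, hab, a1, b1⟩ := frame hy 1 (by nlinarith [sq_nonneg (y 2)])
  have ha2 := sq a ha
  have hA : ‖a - !₂[0, 1, 0]‖ ≤ 2 * ν := by
    refine (abs_le_of_sq_le_sq' ?_ (by positivity)).2
    have h1 : 1 - y 1 ^ 2 ≤ a 1 := by
      rw [a1]
      apply le_sqrt_of_sq_le
      have : 0 ≤ 1 - y 1 ^ 2 := by nlinarith [sq_nonneg (y 2), sq_nonneg (y 0)]
      nlinarith [sq_nonneg (y 1)]
    rw [nsq]
    simp only [PiLp.sub_apply, Matrix.cons_val_zero, Matrix.cons_val_one, Matrix.cons_val]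
    nlinarith [sq_nonneg (y 2), sq_nonneg ν]
  have key : ∀ b : E, ‖b‖ = 1 → inner ℝ y b = 0 → b 1 = 0 → 0 ≤ b 2 →
      ‖b - !₂[0, 0, 1]‖ ≤ 2 * ν := fun b hb hyb b1 b2 => by
    refine (abs_le_of_sq_le_sq' ?_ (by positivity)).2
    have hb2 := sq b hb
    rw [inner_coord, b1] at hyb
    rw [b1] at hb2
    have h1 : (y 0 * b 0) ^ 2 = (y 2 * b 2) ^ 2 := by
      rw [show y 0 * b 0 = -(y 2 * b 2) by linarith]; ring
    have h2 : b 2 ^ 2 ≤ 1 := by linarith [sq_nonneg (b 0)]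
    have h3 : y 2 ^ 2 ≤ ν ^ 2 := by linarith [sq_nonneg (y 1)]
    have h4 : (y 2 * b 2) ^ 2 ≤ ν ^ 2 := by
      rw [mul_pow]
      linarith [mul_le_mul_of_nonneg_left h2 (sq_nonneg (y 2))]
    have h5 : 3 / 4 * b 0 ^ 2 ≤ (y 0 * b 0) ^ 2 := by
      rw [mul_pow]
      exact mul_le_mul_of_nonneg_right (by linarith) (sq_nonneg _)
    have h6 : b 2 ^ 2 ≤ b 2 := by
      have h7 : b 2 ≤ 1 := (abs_le_of_sq_le_sq' (by linarith) zero_le_one).2
      linarith [mul_le_mul_of_nonneg_left h7 b2]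
    rw [nsq]
    simp only [PiLp.sub_apply, Matrix.cons_val_zero, Matrix.cons_val_one, Matrix.cons_val, b1]
    linarith [sq_nonneg ν]
  rcases le_total 0 (b 2) with h2 | h2
  · exact ⟨a, b, ha, hb, hya, hyb, hab, hA, key b hb hyb b1 h2⟩
  · refine ⟨a, -b, ha, by rwa [norm_neg], hya, by rw [inner_neg_right, hyb, neg_zero],
      by rw [inner_neg_right, hab, neg_zero], hA, key (-b) (by rwa [norm_neg])
      (by rw [inner_neg_right, hyb, neg_zero]) (by simp [b1]) (by simpa using h2)⟩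

/-- `kf δ` is bounded and Lipschitz on the closed unit ball. Compare `arc y (arc a b φ) t` with
`q = (y 0 cos t, sin t cos φ, sin t sin φ)`, of norm `≤ 1` and at distance `≤ 5 ν`;
`Wf q = sin t ^ 5 cos (5 φ)`. -/
theorem phi_kf (δ : ℝ) : ∃ Λ, 0 ≤ Λ ∧
    (∀ y e : E, ‖y‖ = 1 → ‖e‖ = 1 → inner ℝ y e = 0 → |PhiH (kf δ) y e π| ≤ Λ) ∧
    ∀ (y a b : E) (ν φ : ℝ), ‖y‖ = 1 → ‖a‖ = 1 → ‖b‖ = 1 → inner ℝ y a = 0 → inner ℝ y b = 0 →
      inner ℝ a b = 0 → 0 ≤ ν → 1 - y 0 ^ 2 ≤ ν ^ 2 → ‖a - !₂[0, 1, 0]‖ ≤ 2 * ν →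
      ‖b - !₂[0, 0, 1]‖ ≤ 2 * ν → |PhiH (kf δ) y (arc a b φ) π - psi δ φ| ≤ Λ * ν := by
  have hk := contDiff_kf δ
  have hkc := hk.continuous
  obtain ⟨B, hB⟩ := (isCompact_closedBall (0 : E) 1).exists_bound_of_continuousOn hkc.continuousOn
  obtain ⟨K, hK⟩ := ContDiffOn.exists_lipschitzOnWith (n := 1)
    (hk.of_le (by simp)).contDiffOn one_ne_zero (convex_closedBall (0 : E) 1)
    (isCompact_closedBall (0 : E) 1)
  have hB0 : 0 ≤ B := (norm_nonneg _).trans (hB 0 (by simp))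
  have nsq : ∀ p : E, ‖p‖ ^ 2 = p 0 ^ 2 + p 1 ^ 2 + p 2 ^ 2 := fun p => by
    rw [← real_inner_self_eq_norm_sq, inner_coord]; ring
  refine ⟨(B + 5 * K) * π, by positivity, fun y e hy he hye => ?_,
    fun y a b ν φ hy ha hb hya hyb hab hν h0 h1 h2 => ?_⟩
  · have := intervalIntegral.norm_integral_le_of_norm_le_const (a := 0) (b := π) (C := B)
      (f := fun r => kf δ (arc y e r)) fun r _ => hB _ (by simp [norm_arc hy he hye r])
    rw [sub_zero, abs_of_pos pi_pos, Real.norm_eq_abs] at this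
    have h3 : (0 : ℝ) ≤ 5 * K * π := by positivity
    unfold PhiH
    linarith
  · have he := norm_arc ha hb hab φ
    have hye : inner ℝ y (arc a b φ) = 0 := by
      simp [arc, inner_add_right, inner_smul_right, hya, hyb]
    let q : ℝ → E := fun t => !₂[y 0 * cos t, sin t * cos φ, sin t * sin φ]
    have hy2 := nsq y
    rw [hy] at hy2
    have hq : ∀ t, kf δ (q t) = -expNegInvGlue (sin t ^ 5 * cos (5 * φ) - cos (5 * δ)) := by
      intro t
      have e5 : cos (5 * φ) = cos φ ^ 5 - 10 * cos φ ^ 3 * sin φ ^ 2 + 5 * cos φ * sin φ ^ 4 := by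
        rw [show 5 * φ = 2 * φ + 3 * φ by ring, cos_add, cos_two_mul', sin_two_mul, cos_three_mul,
          sin_three_mul]
        have := sin_sq_add_cos_sq φ
        linear_combination (3 * cos φ ^ 3 + 3 * cos φ * sin φ ^ 2) * this
      simp only [kf, Wf, q, Matrix.cons_val_zero, Matrix.cons_val_one, Matrix.cons_val, e5]
      congr 2
      ring
    have hq1 : ∀ t, ‖q t‖ ≤ 1 := fun t => by
      refine (abs_le_of_sq_le_sq' ?_ zero_le_one).2
      rw [nsq]
      simp only [q, Matrix.cons_val_zero, Matrix.cons_val_one, Matrix.cons_val]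
      have h3 : y 0 ^ 2 ≤ 1 := by nlinarith [sq_nonneg (y 1), sq_nonneg (y 2)]
      nlinarith [sin_sq_add_cos_sq t, sin_sq_add_cos_sq φ, sq_nonneg (cos t),
        mul_le_mul_of_nonneg_right h3 (sq_nonneg (cos t))]
    have hN : ‖y - !₂[y 0, 0, 0]‖ ≤ ν := by
      refine (abs_le_of_sq_le_sq' ?_ hν).2
      rw [nsq]
      simp only [PiLp.sub_apply, Matrix.cons_val_zero, Matrix.cons_val_one, Matrix.cons_val]
      nlinarith
    have hd : ∀ t, ‖arc y (arc a b φ) t - q t‖ ≤ 5 * ν := fun t => by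
      have e : arc y (arc a b φ) t - q t = cos t • (y - !₂[y 0, 0, 0]) +
          sin t • (cos φ • (a - !₂[0, 1, 0]) + sin φ • (b - !₂[0, 0, 1])) := by
        ext i
        fin_cases i <;> simp [arc, q] <;> ring
      rw [e]
      have k1 := norm_two_le _ _ (abs_cos_le_one φ) (abs_sin_le_one φ) (a - !₂[0, 1, 0])
        (b - !₂[0, 0, 1])
      refine (norm_two_le _ _ (abs_cos_le_one t) (abs_sin_le_one t) _ _).trans ?_
      linarith
    have hqc : Continuous q := by simp only [q]; fun_prop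
    have := intervalIntegral.norm_integral_le_of_norm_le_const (a := 0) (b := π) (C := K * (5 * ν))
      (f := fun r => kf δ (arc y (arc a b φ) r) - kf δ (q r)) fun r _ => by
        have := hK.dist_le_mul (arc y (arc a b φ) r) (by simp [norm_arc hy he hye r]) (q r)
          (by simpa using hq1 r)
        rw [dist_eq_norm, dist_eq_norm] at this
        exact this.trans (mul_le_mul_of_nonneg_left (hd r) K.2)
    have i1 : Continuous fun r => kf δ (arc y (arc a b φ) r) := hkc.comp (continuous_arc _ _)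
    have i2 : Continuous fun r => kf δ (q r) := hkc.comp hqc
    rw [intervalIntegral.integral_sub (i1.intervalIntegrable _ _) (i2.intervalIntegrable _ _),
      sub_zero, abs_of_pos pi_pos, Real.norm_eq_abs] at this
    simp only [hq] at this
    have h3 : 0 ≤ B * π * ν := by positivity
    unfold PhiH psi
    linarith

/-- scale `h` by a small constant -/
theorem Pent.adm {θ γ : ℝ} {h : E → ℝ} (hh : ContDiff ℝ ∞ h) (hγ : 0 < γ) (H : Pent θ γ h) :
    ∃ h' γ', Adm h' ∧ 0 < γ' ∧ Pent θ γ' h' := by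
  have hK : IsCompact (Metric.closedBall (0 : E) 1) := isCompact_closedBall 0 1
  obtain ⟨A, hA⟩ := hK.exists_bound_of_continuousOn hh.continuous.continuousOn
  have hf : Continuous (fderiv ℝ h) := hh.continuous_fderiv (by simp)
  obtain ⟨B, hB⟩ := hK.exists_bound_of_continuousOn hf.continuousOn
  have h0 : (0 : E) ∈ Metric.closedBall (0 : E) 1 := by simp
  have hA0 : 0 ≤ A := (norm_nonneg _).trans (hA 0 h0)
  have hB0 : 0 ≤ B := (norm_nonneg _).trans (hB 0 h0)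
  have hD : 0 < 1 + A + B := by linarith
  obtain ⟨c, hc, hcD⟩ : ∃ c : ℝ, 0 < c ∧ c * (1 + A + B) = 1 :=
    ⟨(1 + A + B)⁻¹, inv_pos.2 hD, inv_mul_cancel₀ hD.ne'⟩
  have hcA : c * A ≤ 1 := by nlinarith [mul_nonneg hc.le hB0]
  have hcB : c * B ≤ 1 := by nlinarith [mul_nonneg hc.le hA0]
  have hP : ∀ y u : E, PhiH (fun p => c * h p) y u π = c * PhiH h y u π := fun y u => by
    unfold PhiH
    rw [intervalIntegral.integral_const_mul]
  have hM : ∀ y ξ u : E, AMin (fun p => c * h p) (c * γ) y ξ u → AMin h γ y (c⁻¹ • ξ) u := by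
    rintro y ξ u ⟨h1, h2, h3⟩
    refine ⟨h1, h2, fun e he hye => ?_⟩
    have h4 := h3 e he hye
    rw [hP, hP] at h4
    rw [inner_smul_right, inner_smul_right]
    refine le_of_mul_le_mul_left ?_ hc
    have e1 : ∀ x : ℝ, c * (c⁻¹ * x) = x := fun x => mul_inv_cancel_left₀ hc.ne' x
    rw [mul_add, mul_sub, mul_sub, e1, e1]
    exact h4
  refine ⟨fun p => c * h p, c * γ, ⟨contDiff_const.mul hh, fun p hp => ?_, fun p hp => ?_⟩,
    mul_pos hc hγ, fun y ξ u₁ u₂ hy a₁ a₂ => H y _ u₁ u₂ hy (hM y ξ u₁ a₁) (hM y ξ u₂ a₂)⟩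
  · have h1 := hA p (mem_closedBall_zero_iff.2 hp)
    rw [Real.norm_eq_abs] at h1
    rw [abs_mul, abs_of_pos hc]
    have := mul_le_mul_of_nonneg_left h1 hc.le
    linarith
  · have h1 := hB p (mem_closedBall_zero_iff.2 hp)
    have hd : DifferentiableAt ℝ h p := hh.differentiable (by simp) p
    rw [fderiv_const_mul hd, norm_smul, Real.norm_eq_abs, abs_of_pos hc]
    have := mul_le_mul_of_nonneg_left h1 hc.le
    linarith

end Pool.Agent.Lib.MP_da270e_gt.SA
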