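import Pool.Agent.Lib.MP_da270e_gt.SA.Main

/-!
The sharp angle theorem implies the earlier statement on opposite segments.
-/

set_option autoImplicit false

namespace Pool.Agent.Lib.MP_da270e_gt.SA.Impl

open Real

theorem no_opposite_of_main : ∃ (g₀ : E → Fin 3 → Fin 3 → ℝ) (δ : ℝ), Stmt.IsMetric g₀ ∧ 0 < δ ∧
      ∀ g : E → Fin 3 → Fin 3 → ℝ, Stmt.IsMetric g → Stmt.C1Close δ g g₀ → ¬ Stmt.HasOppositeSegments g := by
  have h := (main π).out 2 0
  by_contra hc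
  have : π ≤ 4 * π / 5 := h.1 fun g₀ δ h0 hδ => by
    by_contra h1
    refine hc ⟨g₀, δ, h0, hδ, fun g hg hcl ⟨x, y, c₁, c₂, hxy, s₁, s₂, a, ha, e⟩ => h1
      ⟨g, hg, hcl, x, y, hxy, c₁, c₂, s₁, s₂, ?_⟩⟩
    have h01 : (0 : ℝ) ∈ Set.Icc (0 : ℝ) 1 := ⟨le_rfl, zero_le_one⟩
    have hy : ‖y‖ = 1 := s₁.1.2.2.1 ▸ s₁.1.2.1 0 h01
    have ht := Pool.Agent.Lib.MP_da270e_gt.IsPath.tang s₁.1 h01
    rw [s₁.1.2.2.1] at ht
    have hp := hg.2.2 y _ hy ht (s₁.2.1 0 h01)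
    set v := deriv c₁ 0
    have e1 : Stmt.form g y v (-(a • v)) = -a * Stmt.form g y v v := by
      simp [Stmt.form, Finset.mul_sum]; congr 1; ext i; congr 1; ext j; ring
    have e2 : Stmt.form g y (-(a • v)) (-(a • v)) = a ^ 2 * Stmt.form g y v v := by
      simp [Stmt.form, Finset.mul_sum]; congr 1; ext i; congr 1; ext j; ring
    rw [e, Stmt.ang, e1, e2, sqrt_mul (sq_nonneg a), sqrt_sq ha.le]
    have : -a * Stmt.form g y v v / (√(Stmt.form g y v v) * (a * √(Stmt.form g y v v))) = -1 := by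
      have := mul_self_sqrt hp.le
      have h2 := sqrt_pos.2 hp
      field_simp
      nlinarith
    rw [this, arccos_neg_one]
  linarith [pi_pos]

end Pool.Agent.Lib.MP_da270e_gt.SA.Impl
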