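import Pool.Agent.Lib.MP_da270e_gt.SA.Spin
import Pool.Agent.Lib.MP_da270e_gt.SA.DegT

/-!
No family of cubic forms is positive on all sets of directions.
-/

set_option autoImplicit false
set_option maxSynthPendingDepth 3

namespace Pool.Agent.Lib.MP_da270e_gt.SA

open Set Real
open scoped ComplexConjugate

/-- the bump of the ball of radius `r` about `(a, b)` -/
noncomputable def bump (a b : E) (r : ℝ) (x y : E) : ℝ :=
  expNegInvGlue (r ^ 2 - ‖x - a‖ ^ 2 - ‖y - b‖ ^ 2)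

/-- the section -/
noncomputable def sec {ι : Type} (s : Finset ι) (a b : ι → E) (r : ι → ℝ) (α : ι → Fin 3 → E)
    (r₀ : ℝ) (u₁ u₂ ζ : ℂ) : ℂ × ℂ :=
  ((expNegInvGlue (r₀ ^ 2 - 4 * nn u₁ u₂ ^ 2 / (Complex.normSq ζ + nn u₁ u₂ ^ 2)) : ℝ) * ζ +
      ∑ j ∈ s, ((bump (a j) (b j) (r j) (xx u₁ u₂ ζ) (yy u₁ u₂) / nn u₁ u₂ ^ 2 : ℝ) : ℂ) *
        t1 u₁ u₂ (α j),
    ∑ j ∈ s, (bump (a j) (b j) (r j) (xx u₁ u₂ ζ) (yy u₁ u₂) : ℂ) * t3 u₁ u₂ (α j))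

variable {ι : Type} {s : Finset ι} {a b : ι → E} {r : ι → ℝ} {α : ι → Fin 3 → E} {r₀ : ℝ}

theorem bump_nonneg (a b : E) (r : ℝ) (x y : E) : 0 ≤ bump a b r x y := expNegInvGlue.nonneg _

theorem bump_pos {a b : E} {r : ℝ} {x y : E} (h : ‖x - a‖ ^ 2 + ‖y - b‖ ^ 2 < r ^ 2) :
    0 < bump a b r x y := expNegInvGlue.pos_of_pos (by linarith)

theorem bump_zero {a b : E} {r : ℝ} {x y : E} (h : ¬ ‖x - a‖ ^ 2 + ‖y - b‖ ^ 2 < r ^ 2) :
    bump a b r x y = 0 := expNegInvGlue.zero_of_nonpos (by linarith [not_lt.1 h])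

theorem contDiff_bump (a b : E) (r : ℝ) : ContDiff ℝ 1 fun q : E × E => bump a b r q.1 q.2 :=
  expNegInvGlue.contDiff.comp ((contDiff_const.sub
    ((contDiff_fst.sub contDiff_const).norm_sq ℝ)).sub ((contDiff_snd.sub contDiff_const).norm_sq ℝ))

/-- Where `nn ≠ 0` everything is continuous. Near a point with `nn = 0`, `ζ ≠ 0` one has
`4 nn ^ 2 / (|ζ| ^ 2 + nn ^ 2) < (r₀ / 4) ^ 2`, and there both sums vanish (`t1_zero`, `t3_zero` if
`nn = 0`, else `norm_xx_sub` and `hfar` make every bump zero). -/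
theorem sec_cont (hr : 0 < r₀) (hfar : ∀ j ∈ s, ∀ x y : E, ‖x‖ = 1 → ‖y‖ = 1 →
    ‖x - a j‖ ^ 2 + ‖y - b j‖ ^ 2 < r j ^ 2 → r₀ / 4 ≤ ‖x - y‖) :
    ContinuousOn (fun p : ℂ × ℂ × ℂ => sec s a b r α r₀ p.1 p.2.1 p.2.2) {0}ᶜ := by
  intro p hp
  refine ContinuousAt.continuousWithinAt ?_
  have hn := continuous_nn
  have hq : Continuous fun p : ℂ × ℂ × ℂ => Complex.normSq p.2.2 :=
    Complex.continuous_normSq.comp (by fun_prop)
  have hden : Complex.normSq p.2.2 + nn p.1 p.2.1 ^ 2 ≠ 0 := fun h => by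
    have h1 := Complex.normSq_nonneg p.2.2
    have h2 := sq_nonneg (nn p.1 p.2.1)
    have h3 : p.2.2 = 0 := Complex.normSq_eq_zero.1 (by linarith)
    have h4 := nn_eq_zero.1 (pow_eq_zero_iff two_ne_zero |>.1 (by linarith : nn p.1 p.2.1 ^ 2 = 0))
    exact hp (Prod.ext h4.1 (Prod.ext h4.2 h3))
  have hrat : ContinuousAt (fun p : ℂ × ℂ × ℂ =>
      4 * nn p.1 p.2.1 ^ 2 / (Complex.normSq p.2.2 + nn p.1 p.2.1 ^ 2)) p :=
    ((hn.pow 2).const_mul 4).continuousAt.div (hq.add (hn.pow 2)).continuousAt hden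
  have hχ : ContinuousAt (fun p : ℂ × ℂ × ℂ => ((expNegInvGlue (r₀ ^ 2 -
      4 * nn p.1 p.2.1 ^ 2 / (Complex.normSq p.2.2 + nn p.1 p.2.1 ^ 2)) : ℝ) : ℂ) * p.2.2) p :=
    (Complex.continuous_ofReal.continuousAt.comp
      ((expNegInvGlue.contDiff (n := 1)).continuous.continuousAt.comp
        (continuousAt_const.sub hrat))).mul (by fun_prop)
  by_cases h0 : nn p.1 p.2.1 = 0
  · have hlt : ∀ᶠ q : ℂ × ℂ × ℂ in nhds p,
        4 * nn q.1 q.2.1 ^ 2 / (Complex.normSq q.2.2 + nn q.1 q.2.1 ^ 2) < (r₀ / 4) ^ 2 :=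
      hrat.eventually_lt continuousAt_const (by simp only [h0]; norm_num; positivity)
    refine (hχ.prodMk (continuousAt_const (y := (0 : ℂ)))).congr (hlt.mono fun q hq' => ?_)
    by_cases h1 : nn q.1 q.2.1 = 0
    · obtain ⟨h2, h3⟩ := nn_eq_zero.1 h1
      simp [sec, h2, h3, t1_zero, t3_zero]
    · have hb : ∀ j ∈ s, bump (a j) (b j) (r j) (xx q.1 q.2.1 q.2.2) (yy q.1 q.2.1) = 0 :=
        fun j hj => bump_zero fun h => by
          have h2 := hfar j hj _ _ (norm_xx h1 _) (norm_yy h1) h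
          rw [← norm_xx_sub h1] at hq'
          exact absurd (pow_le_pow_left₀ (by positivity) h2 2) (not_le.2 hq')
      simp only [sec]
      rw [Finset.sum_eq_zero fun j hj => by rw [hb j hj]; simp,
        Finset.sum_eq_zero fun j hj => by rw [hb j hj]; simp, add_zero]
  · have hb : ∀ j, ContinuousAt (fun q : ℂ × ℂ × ℂ =>
        bump (a j) (b j) (r j) (xx q.1 q.2.1 q.2.2) (yy q.1 q.2.1)) p := fun j =>
      ContinuousAt.comp (g := fun q : E × E => bump (a j) (b j) (r j) q.1 q.2)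
        (f := fun q : ℂ × ℂ × ℂ => (xx q.1 q.2.1 q.2.2, yy q.1 q.2.1))
        (contDiff_bump (a j) (b j) (r j)).continuous.continuousAt
        ((continuousAt_xx h0).prodMk (continuousAt_yy h0))
    refine (hχ.add (tendsto_finsetSum _ fun j _ => ?_)).prodMk (tendsto_finsetSum _ fun j _ => ?_)
    · exact (Complex.continuous_ofReal.continuousAt.comp ((hb j).div (hn.pow 2).continuousAt
        (pow_ne_zero 2 h0))).mul (continuous_t1 _).continuousAt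
    · exact (Complex.continuous_ofReal.continuousAt.comp (hb j)).mul
        (continuous_t3 _).continuousAt

theorem sec_equiv (u ζ : ℂ) (hu : u ≠ 0) : sec s a b r α r₀ u 0 (u ^ 2 * ζ) =
    (u ^ 2 * (sec s a b r α r₀ 1 0 ζ).1, u ^ 6 * (sec s a b r α r₀ 1 0 ζ).2) := by
  have e1 := nn_mul u 1 0
  have e2 := yy_mul hu 1 0
  have e3 := xx_mul hu 1 0 ζ
  have e4 := t1_mul u 1 0
  have e5 := t3_mul u 1 0
  rw [mul_one, mul_zero] at e1 e2 e3 e4 e5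
  have n1 : nn 1 0 = 1 := by simp [nn]
  have hN : Complex.normSq u ≠ 0 := fun h => hu (Complex.normSq_eq_zero.1 h)
  have hD : Complex.normSq ζ + 1 ≠ 0 := by linarith [Complex.normSq_nonneg ζ]
  have e6 : 4 * (Complex.normSq u * 1) ^ 2 /
      (Complex.normSq (u ^ 2 * ζ) + (Complex.normSq u * 1) ^ 2) =
      4 * 1 ^ 2 / (Complex.normSq ζ + 1 ^ 2) := by
    rw [map_mul, map_pow, mul_one, one_pow, ← mul_add_one]
    field_simp
  have hN' : (Complex.normSq u : ℂ) ≠ 0 := Complex.ofReal_ne_zero.2 hN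
  simp only [sec, e1, e2, e3, e4, e5, n1, e6, mul_add, Finset.mul_sum]
  refine Prod.ext (congrArg₂ (· + ·) (by ring) (Finset.sum_congr rfl fun j _ => ?_))
    (Finset.sum_congr rfl fun j _ => by ring)
  push_cast
  field_simp

theorem sec_contDiff : ContDiff ℝ 1 (sec s a b r α r₀ 1 0) := by
  have n1 : nn 1 0 = 1 := by simp [nn]
  have hq : ContDiff ℝ 1 fun ζ : ℂ => Complex.normSq ζ := by
    simp only [Complex.normSq_eq_norm_sq]
    exact contDiff_norm_sq ℝ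
  have ho : ContDiff ℝ 1 fun t : ℝ => (t : ℂ) := Complex.ofRealCLM.contDiff
  have hb : ∀ j, ContDiff ℝ 1 fun ζ : ℂ => bump (a j) (b j) (r j) (xx 1 0 ζ) (yy 1 0) := fun j =>
    ContDiff.comp (g := fun q : E × E => bump (a j) (b j) (r j) q.1 q.2)
      (f := fun ζ : ℂ => (xx 1 0 ζ, yy 1 0)) (contDiff_bump (a j) (b j) (r j))
      (contDiff_xx.prodMk contDiff_const)
  have h1 : ContDiff ℝ 1 fun ζ : ℂ =>
      r₀ ^ 2 - 4 * nn 1 0 ^ 2 / (Complex.normSq ζ + nn 1 0 ^ 2) := by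
    refine contDiff_const.sub (contDiff_const.div (hq.add contDiff_const) fun ζ => ?_)
    rw [n1]
    linarith [Complex.normSq_nonneg ζ]
  have h2 := (ho.comp ((expNegInvGlue.contDiff (n := 1)).comp h1)).mul (contDiff_id (E := ℂ))
  have h3 : ContDiff ℝ 1 fun ζ : ℂ => ∑ j ∈ s,
      ((bump (a j) (b j) (r j) (xx 1 0 ζ) (yy 1 0) / nn 1 0 ^ 2 : ℝ) : ℂ) * t1 1 0 (α j) :=
    ContDiff.sum fun j _ => (ho.comp ((hb j).div_const _)).mul contDiff_const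
  have h4 : ContDiff ℝ 1 fun ζ : ℂ => ∑ j ∈ s,
      (bump (a j) (b j) (r j) (xx 1 0 ζ) (yy 1 0) : ℂ) * t3 1 0 (α j) :=
    ContDiff.sum fun j _ => (ho.comp (hb j)).mul contDiff_const
  exact (h2.add h3).prodMk h4

theorem sec_pole (hr : 0 < r₀) (ζ : ℂ) :
    ∃ κ : ℝ, 0 < κ ∧ sec s a b r α r₀ 0 0 ζ = (κ * ζ, 0) :=
  ⟨expNegInvGlue (r₀ ^ 2), expNegInvGlue.pos_of_pos (by positivity), by
    simp [sec, nn, t1_zero, t3_zero]⟩

/-- With `z = ff v`: `re (conj z ^ 3 * sec.2) + nn ^ 2 |z| ^ 2 re (conj z * sec.1)` is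
`∑ bump * 4 nn ^ 6 cub + nn ^ 2 |z| ^ 2 χ re (conj z * ζ)`, all terms `≥ 0`, one positive;
`re (conj z * ζ)` has the sign of `⟪v, x⟫` by `ff_inner`, `ff_xx`. -/
theorem sec_ne {u₁ u₂ ζ : ℂ} (h : nn u₁ u₂ ≠ 0) (hr : 0 < r₀) {v : E}
    (hv : inner ℝ (yy u₁ u₂) v = 0)
    (hnear : ‖xx u₁ u₂ ζ - yy u₁ u₂‖ < r₀ → 0 < inner ℝ v (xx u₁ u₂ ζ))
    (hpos : ∀ j ∈ s, ‖xx u₁ u₂ ζ - a j‖ ^ 2 + ‖yy u₁ u₂ - b j‖ ^ 2 < r j ^ 2 → 0 < cub (α j) v)
    (hcov : r₀ / 2 ≤ ‖xx u₁ u₂ ζ - yy u₁ u₂‖ →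
      ∃ j ∈ s, ‖xx u₁ u₂ ζ - a j‖ ^ 2 + ‖yy u₁ u₂ - b j‖ ^ 2 < r j ^ 2) :
    sec s a b r α r₀ u₁ u₂ ζ ≠ 0 := by
  intro h0
  have hN : 0 < nn u₁ u₂ := lt_of_le_of_ne (nn_nonneg _ _) h.symm
  have e1 := congrArg Prod.fst h0
  have e3 := congrArg Prod.snd h0
  simp only [sec, Prod.fst_zero, Prod.snd_zero] at e1 e3
  rw [← norm_xx_sub h] at e1
  set z := ff u₁ u₂ v with hz
  set x := xx u₁ u₂ ζ with hx
  set y := yy u₁ u₂ with hy
  set χ := expNegInvGlue (r₀ ^ 2 - ‖x - y‖ ^ 2) with hχ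
  have key : ∑ j ∈ s, bump (a j) (b j) (r j) x y * (4 * nn u₁ u₂ ^ 6 * cub (α j) v) +
      nn u₁ u₂ ^ 2 * Complex.normSq z * (χ * (conj z * ζ).re) = 0 := by
    have k1 := congrArg (fun w => (conj z * w).re) e1
    have k3 := congrArg (fun w => (conj z ^ 3 * w).re) e3
    simp only [mul_zero, Complex.zero_re, mul_add, Finset.mul_sum, Complex.add_re, Complex.re_sum,
      mul_left_comm (conj z) (Complex.ofReal _), mul_left_comm (conj z ^ 3) (Complex.ofReal _),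
      Complex.re_ofReal_mul] at k1 k3
    have k4 : ∑ j ∈ s, bump (a j) (b j) (r j) x y * (4 * nn u₁ u₂ ^ 6 * cub (α j) v) =
        ∑ j ∈ s, bump (a j) (b j) (r j) x y * (conj z ^ 3 * t3 u₁ u₂ (α j)).re +
        nn u₁ u₂ ^ 2 * Complex.normSq z * ∑ j ∈ s, bump (a j) (b j) (r j) x y / nn u₁ u₂ ^ 2 *
          (conj z * t1 u₁ u₂ (α j)).re := by
      rw [Finset.mul_sum, ← Finset.sum_add_distrib]
      refine Finset.sum_congr rfl fun j _ => ?_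
      rw [← cub_eq h hv (α j), ← hz]
      generalize (conj z ^ 3 * t3 u₁ u₂ (α j)).re = A
      generalize (conj z * t1 u₁ u₂ (α j)).re = B
      field_simp
    rw [k4, k3]
    linear_combination nn u₁ u₂ ^ 2 * Complex.normSq z * k1
  have t0 : ∀ j ∈ s, 0 ≤ bump (a j) (b j) (r j) x y * (4 * nn u₁ u₂ ^ 6 * cub (α j) v) := by
    intro j hj
    by_cases hb : ‖x - a j‖ ^ 2 + ‖y - b j‖ ^ 2 < r j ^ 2
    · have := hpos j hj hb
      have := bump_nonneg (a j) (b j) (r j) x y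
      positivity
    · rw [bump_zero hb, zero_mul]
  by_cases hlt : ‖x - y‖ < r₀
  · have h1 := hnear hlt
    have h2 := ff_inner h hv x
    have hD : 0 < Complex.normSq ζ + nn u₁ u₂ ^ 2 := by
      have := Complex.normSq_nonneg ζ
      positivity
    rw [hx, ff_xx h, ← hz, mul_left_comm, Complex.re_ofReal_mul, ← hx, real_inner_comm] at h2
    have h3 : 0 < (conj z * ζ).re := by
      have h4 : 0 < 2 * nn u₁ u₂ ^ 2 / (Complex.normSq ζ + nn u₁ u₂ ^ 2) := by positivity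
      refine pos_of_mul_pos_left (a := _) ?_ h4.le
      rw [mul_comm, h2]
      positivity
    have h5 : 0 < Complex.normSq z := Complex.normSq_pos.2 fun h6 => by simp [h6] at h3
    have h6 : 0 < χ := expNegInvGlue.pos_of_pos
      (sub_pos.2 (pow_lt_pow_left₀ hlt (norm_nonneg _) two_ne_zero))
    have h7 : 0 < nn u₁ u₂ ^ 2 * Complex.normSq z * (χ * (conj z * ζ).re) := by positivity
    linarith [Finset.sum_nonneg t0]
  · have h6 : χ = 0 := expNegInvGlue.zero_of_nonpos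
      (sub_nonpos.2 (pow_le_pow_left₀ hr.le (not_lt.1 hlt) 2))
    obtain ⟨j, hj, hb⟩ := hcov (by linarith [not_lt.1 hlt])
    have h7 := Finset.sum_pos' t0 ⟨j, hj, by
      have := hpos j hj hb
      have := bump_pos hb
      positivity⟩
    rw [h6] at key
    linarith

/-- By contradiction every pair in the compact set `{‖x‖ = ‖y‖ = 1, r₀ / 2 ≤ ‖x - y‖}` has a
positive cubic form on a ball of radius `≤ r₀ / 8`; finite subcover, `degT` for `sec`. -/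
theorem top (D : E → E → Set E)
    (hne : ∀ x y : E, ‖x‖ = 1 → ‖y‖ = 1 → x ≠ y → ∃ v ∈ D x y, inner ℝ y v = 0)
    (hop : ∀ (x₀ y₀ : E) (α : Fin 3 → E), (∀ v ∈ D x₀ y₀, 0 < cub α v) → ∃ r, 0 < r ∧
      ∀ x y : E, ‖x - x₀‖ < r → ‖y - y₀‖ < r → ∀ v ∈ D x y, 0 < cub α v)
    (hnear : ∃ r, 0 < r ∧ ∀ x y : E, x ≠ y → ‖x - y‖ < r → ∀ v ∈ D x y, 0 < inner ℝ v x) :
    ∃ x y : E, ‖x‖ = 1 ∧ ‖y‖ = 1 ∧ x ≠ y ∧ ∀ α : Fin 3 → E, ∃ v ∈ D x y, cub α v ≤ 0 := by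
  by_contra hcon
  obtain ⟨r₀, hr, hnear⟩ := hnear
  let K : Set (E × E) := {q | ‖q.1‖ = 1 ∧ ‖q.2‖ = 1 ∧ r₀ / 2 ≤ ‖q.1 - q.2‖}
  have hK : IsCompact K := by
    have c1 : IsClosed {q : E × E | ‖q.1‖ = 1} := isClosed_eq (by fun_prop) continuous_const
    have c2 : IsClosed {q : E × E | ‖q.2‖ = 1} := isClosed_eq (by fun_prop) continuous_const
    have c3 : IsClosed {q : E × E | r₀ / 2 ≤ ‖q.1 - q.2‖} :=
      isClosed_le continuous_const (by fun_prop)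
    refine ((isCompact_sphere (0 : E) 1).prod (isCompact_sphere (0 : E) 1)).of_isClosed_subset
      (c1.inter (c2.inter c3)) fun q hq => ⟨by simpa using hq.1, ?_⟩
    simpa using hq.2.1
  have loc : ∀ q : K, ∃ (α : Fin 3 → E) (ρ : ℝ), 0 < ρ ∧ ρ ≤ r₀ / 8 ∧
      ∀ x y : E, ‖x - q.1.1‖ < ρ → ‖y - q.1.2‖ < ρ → ∀ v ∈ D x y, 0 < cub α v := by
    rintro ⟨q, h1, h2, h3⟩
    have hxy : q.1 ≠ q.2 := fun h => by
      rw [h, sub_self, norm_zero] at h3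
      linarith
    obtain ⟨α, hα⟩ : ∃ α : Fin 3 → E, ∀ v ∈ D q.1 q.2, 0 < cub α v := by
      by_contra h4
      refine hcon ⟨q.1, q.2, h1, h2, hxy, fun α => ?_⟩
      by_contra h5
      exact h4 ⟨α, fun v hv => not_le.1 fun h6 => h5 ⟨v, hv, h6⟩⟩
    obtain ⟨ρ, hρ, H⟩ := hop _ _ α hα
    exact ⟨α, min ρ (r₀ / 8), lt_min hρ (by positivity), min_le_right _ _, fun x y k1 k2 =>
      H x y (k1.trans_le (min_le_left _ _)) (k2.trans_le (min_le_left _ _))⟩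
  choose α ρ hρ0 hρ1 hρ using loc
  obtain ⟨s, hs⟩ := hK.elim_finite_subcover
    (fun j : K => {q : E × E | ‖q.1 - j.1.1‖ ^ 2 + ‖q.2 - j.1.2‖ ^ 2 < ρ j ^ 2})
    (fun j => isOpen_lt (by fun_prop) continuous_const) fun q hq =>
      mem_iUnion.2 ⟨⟨q, hq⟩, by simpa using pow_pos (hρ0 ⟨q, hq⟩) 2⟩
  have ball : ∀ (j : K) (x y : E), ‖x - j.1.1‖ ^ 2 + ‖y - j.1.2‖ ^ 2 < ρ j ^ 2 →
      ‖x - j.1.1‖ < ρ j ∧ ‖y - j.1.2‖ < ρ j := fun j x y h =>
    ⟨lt_of_pow_lt_pow_left₀ 2 (hρ0 j).le (by linarith [sq_nonneg ‖y - j.1.2‖]),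
      lt_of_pow_lt_pow_left₀ 2 (hρ0 j).le (by linarith [sq_nonneg ‖x - j.1.1‖])⟩
  obtain ⟨u₁, u₂, ζ, hne0, h0⟩ := degT (sec s (fun j : K => j.1.1) (fun j => j.1.2) ρ α r₀)
    (sec_cont hr fun j _ x y _ _ h => by
      obtain ⟨k1, k2⟩ := ball j x y h
      have k3 := j.2.2.2
      have k4 : j.1.1 - j.1.2 = (x - y) - (x - j.1.1) + (y - j.1.2) := by abel
      have k5 := norm_add_le ((x - y) - (x - j.1.1)) (y - j.1.2)
      have k6 := norm_sub_le (x - y) (x - j.1.1)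
      rw [← k4] at k5
      linarith [hρ1 j]) sec_equiv sec_contDiff fun ζ _ => sec_pole hr ζ
  by_cases hn : nn u₁ u₂ = 0
  · obtain ⟨rfl, rfl⟩ := nn_eq_zero.1 hn
    obtain ⟨κ, hκ, e⟩ := sec_pole (s := s) (a := fun j : K => j.1.1) (b := fun j => j.1.2)
      (r := ρ) (α := α) hr ζ
    rw [e, Prod.mk_eq_zero] at h0
    rcases mul_eq_zero.1 h0.1 with h | h
    · exact hκ.ne' (Complex.ofReal_eq_zero.1 h)
    · exact hne0 (by rw [h]; rfl)
  · have hxy : xx u₁ u₂ ζ ≠ yy u₁ u₂ := fun h => by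
      have h1 := norm_xx_sub hn ζ
      have h2 := Complex.normSq_nonneg ζ
      have h3 : 0 < 4 * nn u₁ u₂ ^ 2 / (Complex.normSq ζ + nn u₁ u₂ ^ 2) := by positivity
      rw [← h1, h, sub_self, norm_zero] at h3
      norm_num at h3
    obtain ⟨v, hv, ht⟩ := hne _ _ (norm_xx hn ζ) (norm_yy hn) hxy
    refine sec_ne hn hr ht (fun h => hnear _ _ hxy h v hv) (fun j _ h => ?_) (fun h => ?_) h0
    · exact hρ j _ _ (ball j _ _ h).1 (ball j _ _ h).2 v hv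
    · obtain ⟨j, hj, h1⟩ := mem_iUnion₂.1
        (hs (show (xx u₁ u₂ ζ, yy u₁ u₂) ∈ K from ⟨norm_xx hn ζ, norm_yy hn, h⟩))
      exact ⟨j, hj, h1⟩

end Pool.Agent.Lib.MP_da270e_gt.SA
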