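import Pool.Agent.Lib.MP_da270e_gt.SA.Cmp
import Pool.Agent.Lib.MP_da270e_gt.SA.Dir
import Pool.Agent.Lib.MP_da270e_gt.SA.Circle
import Pool.Agent.Lib.MP_da270e_gt.SA.Top

/-!
Every metric on the sphere has two segments at an angle at least `4π/5`.
-/

set_option autoImplicit false
set_option maxSynthPendingDepth 3

namespace Pool.Agent.Lib.MP_da270e_gt.SA

open Set Real
open scoped ContDiff

/-- `top` for `D = Dir g K`. Criticality: for `τ` take `α` three times the vector representing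
`-(g y τ)`; some `v` has `0 ≤ g y v τ`. Angle: minimise `g y v w` on the compact set `D ×ˢ D`; if
the minimum `μ L ^ 2` had `μ > cos (4π/5)`, `plane3` would contradict `top`. -/
theorem lower {g : Met} (hg : IsMetric g) : ∃ x y : E, x ≠ y ∧
    (∃ c₁ c₂, IsSegment g c₁ y x ∧ IsSegment g c₂ y x ∧
      4 * π / 5 ≤ angB g y (deriv c₁ 0) (deriv c₂ 0)) ∧
    ∀ τ : E, inner ℝ y τ = 0 → τ ≠ 0 →
      ∃ c, IsSegment g c y x ∧ angB g y (deriv c 0) τ ≤ π / 2 := by
  obtain ⟨m, M, C, hc⟩ := exists_cmp hg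
  obtain ⟨K, hK0, hK⟩ := exists_reg hg hc
  obtain ⟨x, y, hx, hy, hxy, H⟩ := top (Dir g K) (fun x y hx hy hxy => by
      obtain ⟨v, hv⟩ := Dir.nonempty hg hc hK hx hy
      obtain ⟨c, -, -, h, -⟩ := Dir.segment hg hc hK hxy hv
      exact ⟨v, hv, h⟩) (Dir.isOpen hg hc hK0) (Dir.near hg hc hK0 hK)
  have hseg := fun v (hv : v ∈ Dir g K x y) => Dir.segment hg hc hK hxy hv
  refine ⟨x, y, hxy, ?_, fun τ h1 h2 => ?_⟩
  · have hne := Dir.nonempty hg hc hK hx hy
    have hcp := Dir.compact hg hc hK0 x y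
    obtain ⟨⟨v, w⟩, ⟨hv, hw⟩, hmin⟩ := (hcp.prod hcp).exists_isMinOn (hne.prod hne)
      (f := fun p : E × E => g y p.1 p.2) (Continuous.continuousOn (by fun_prop))
    obtain ⟨c₁, s₁, e₁, -, n₁, hL⟩ := hseg v hv
    obtain ⟨c₂, s₂, e₂, -, n₂, -⟩ := hseg w hw
    refine ⟨c₁, c₂, s₁, s₂, ?_⟩
    rw [e₁, e₂, angB, n₁, n₂]
    set L := rho g y x with hLd
    have hle : g y v w / (L * L) ≤ cos (4 * π / 5) := by
      by_contra hlt
      obtain ⟨α, hα⟩ := plane3 hg hy hL hne (fun u hu => (hseg u hu).choose_spec.2.2.1)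
        (fun u hu => by
          obtain ⟨c, -, -, t, n, -⟩ := hseg u hu
          rw [← n, sq_sqrt (hg.nonneg hy t)]) (not_le.1 hlt) (fun u hu u' hu' => by
          have h3 : g y v w ≤ g y u u' := hmin (show (u, u') ∈ _ ×ˢ _ from ⟨hu, hu'⟩)
          have h4 : g y v w / (L * L) * L ^ 2 = g y v w := by field_simp
          rw [h4]
          exact h3)
      obtain ⟨u, hu, h5⟩ := H α
      exact absurd (hα u hu) (not_lt.2 h5)
    have h6 := arccos_le_arccos hle
    rwa [arccos_cos (by positivity) (by linarith [pi_pos])] at h6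
  · obtain ⟨v, hv, h3⟩ := H fun _ => (InnerProductSpace.toDual ℝ E).symm (-(g y τ))
    obtain ⟨c, s, e, -, -, -⟩ := hseg v hv
    refine ⟨c, s, ?_⟩
    rw [e, angB, arccos_le_pi_div_two]
    refine div_nonneg ?_ (by positivity)
    simp only [cub, InnerProductSpace.toDual_symm_apply, neg_apply] at h3
    rw [hg.2.1]
    by_contra h4
    have h5 : 0 < -(g y τ v) := by linarith
    exact absurd h3 (not_le.2 (by positivity))

end Pool.Agent.Lib.MP_da270e_gt.SA
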