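import Pool.Agent.Lib.MP_da270e_gt.SA.Hfun

/-!
The perturbation function has the pentagon property.
-/

set_option autoImplicit false
set_option maxSynthPendingDepth 3

namespace Pool.Agent.Lib.MP_da270e_gt.SA

open Set Real
open scoped ContDiff

/-- Take `I`, `Λ`, then `ν ≤ 1/2` with `2 Λ ν ≤ I / 200`, `η > 0` with
`20 (η I / 200 + 2 η Λ) < ν ^ 3 / 3`, `γ = η I / 200`. In a frame `a, b` write `uᵢ = arc a b φᵢ`
(`exists_angle`, `inner_arc_arc`); `T φ = PhiH cube y (arc a b φ) π - ⟪arc a b φ, ξ⟫` is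
`trig3_cubic`. If `ν ^ 2 ≤ 1 - y 0 ^ 2 `: `frame` with `k = 0`, `cubic_min`, `Trig3.far`.
Otherwise `frame_pole`, `phi_kf`, `Trig3.pent` for `η⁻¹ T`. -/
theorem exists_pent0 {δ : ℝ} (hδ : 0 < δ) (hδ' : δ ≤ 1 / 100) : ∃ η γ : ℝ, 0 < γ ∧
    Pent (4 * π / 5 + 2 * δ) γ fun p => p 0 ^ 3 + η * kf δ p := by
  obtain ⟨I, hI, lo, np, vx, out⟩ := psi_props hδ hδ'
  obtain ⟨Λ, hΛ, hb, hn⟩ := phi_kf δ
  obtain ⟨ν, hν0, hν1, hν2⟩ : ∃ ν : ℝ, 0 < ν ∧ ν ≤ 1 / 2 ∧ 2 * (Λ * ν) ≤ I / 200 := by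
    refine ⟨min (1 / 2) (I / (400 * (Λ + 1))), by positivity, min_le_left _ _, ?_⟩
    have h1 : min (1 / 2) (I / (400 * (Λ + 1))) ≤ I / (400 * (Λ + 1)) := min_le_right _ _
    have h2 : (Λ + 1) * (I / (400 * (Λ + 1))) = I / 400 := by field_simp
    have h3 : 0 ≤ I / (400 * (Λ + 1)) := by positivity
    nlinarith [mul_le_mul_of_nonneg_left h1 hΛ]
  obtain ⟨η, hη0, hη⟩ : ∃ η : ℝ, 0 < η ∧ 20 * (η * I / 200 + 2 * (η * Λ)) < ν ^ 3 / 3 := by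
    have h1 : 0 < I / 10 + 40 * Λ := by positivity
    refine ⟨ν ^ 3 / 6 / (I / 10 + 40 * Λ), by positivity, ?_⟩
    have h2 : ν ^ 3 / 6 / (I / 10 + 40 * Λ) * (I / 10 + 40 * Λ) = ν ^ 3 / 6 := by field_simp
    have h3 : 0 < ν ^ 3 := by positivity
    nlinarith
  refine ⟨η, η * I / 200, by positivity, fun y ξ u₁ u₂ hy H₁ H₂ => ?_⟩
  have hpi := pi_gt_three
  have hcos : cos (4 * π / 5 + 2 * δ) ≤ cos (4 * π / 5) :=
    cos_le_cos_of_nonneg_of_le_pi (by positivity) (by linarith) (by linarith)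
  have key : ∀ a b : E, ‖a‖ = 1 → ‖b‖ = 1 → inner ℝ y a = 0 → inner ℝ y b = 0 →
      inner ℝ a b = 0 → ∃ (A B φ₁ φ₂ : ℝ), inner ℝ u₁ u₂ = cos (φ₁ - φ₂) ∧
        ∀ φ' ∈ ({φ₁, φ₂} : Set ℝ), ∀ φ,
          A * cos φ' + B * sin φ' + 4 / 3 * (a 0 * cos φ' + b 0 * sin φ') ^ 3 +
            η * PhiH (kf δ) y (arc a b φ') π ≤
          A * cos φ + B * sin φ + 4 / 3 * (a 0 * cos φ + b 0 * sin φ) ^ 3 +
            η * PhiH (kf δ) y (arc a b φ) π + η * I / 200 := by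
    intro a b ha hb' hya hyb hab
    obtain ⟨φ₁, e₁⟩ := exists_angle hy ha hb' hya hyb hab H₁.2.1 H₁.1
    obtain ⟨φ₂, e₂⟩ := exists_angle hy ha hb' hya hyb hab H₂.2.1 H₂.1
    have val : ∀ φ, PhiH (fun p => p 0 ^ 3 + η * kf δ p) y (arc a b φ) π -
        inner ℝ (arc a b φ) ξ = (2 * y 0 ^ 2 * a 0 - inner ℝ a ξ) * cos φ +
          (2 * y 0 ^ 2 * b 0 - inner ℝ b ξ) * sin φ + 4 / 3 * (a 0 * cos φ + b 0 * sin φ) ^ 3 +
            η * PhiH (kf δ) y (arc a b φ) π := by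
      intro φ
      rw [phi_add (h := fun p : E => p 0 ^ 3) (by fun_prop) (contDiff_kf δ).continuous, phi_cube]
      have c0 : arc a b φ 0 = cos φ * a 0 + sin φ * b 0 := by simp [arc]
      have c1 : inner ℝ (arc a b φ) ξ = cos φ * inner ℝ a ξ + sin φ * inner ℝ b ξ := by
        simp [arc, inner_add_left, inner_smul_left]
      rw [c0, c1]
      ring
    have tg : ∀ φ, inner ℝ y (arc a b φ) = 0 := fun φ => by
      simp [arc, inner_add_right, inner_smul_right, hya, hyb]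
    refine ⟨2 * y 0 ^ 2 * a 0 - inner ℝ a ξ, 2 * y 0 ^ 2 * b 0 - inner ℝ b ξ, φ₁, φ₂,
      by rw [e₁, e₂, inner_arc_arc ha hb' hab], fun φ' hφ' φ => ?_⟩
    rw [← val, ← val]
    rcases hφ' with rfl | rfl
    · rw [← e₁]
      exact H₁.2.2 _ (norm_arc ha hb' hab φ) (tg φ)
    · rw [← e₂]
      exact H₂.2.2 _ (norm_arc ha hb' hab φ) (tg φ)
  by_cases hc : ν ^ 2 ≤ 1 - y 0 ^ 2
  · have hν3 : 0 < ν ^ 2 := by positivity
    obtain ⟨a, b, ha, hb', hya, hyb, hab, a0, b0⟩ := frame hy 0 (by linarith)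
    obtain ⟨A, B, φ₁, φ₂, e, H⟩ := key a b ha hb' hya hyb hab
    have hT := trig3_cubic A B (a 0) (b 0)
    obtain ⟨φ₀, hm⟩ := hT.exists_min
    have tg : ∀ φ, inner ℝ y (arc a b φ) = 0 := fun φ => by
      simp [arc, inner_add_right, inner_smul_right, hya, hyb]
    have hk : ∀ φ, |η * PhiH (kf δ) y (arc a b φ) π| ≤ η * Λ := fun φ => by
      rw [abs_mul, abs_of_pos hη0]
      exact mul_le_mul_of_nonneg_left (hb y _ hy (norm_arc ha hb' hab φ) (tg φ)) hη0.le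
    rw [e]
    refine hcos.trans (hT.far (γ := η * I / 200 + 2 * (η * Λ)) hm ?_ ?_ ?_)
    · have := H φ₁ (Or.inl rfl) φ₀
      linarith [abs_le.1 (hk φ₁), abs_le.1 (hk φ₀)]
    · have := H φ₂ (Or.inr rfl) φ₀
      linarith [abs_le.1 (hk φ₂), abs_le.1 (hk φ₀)]
    · obtain ⟨φ, hφ⟩ := cubic_min A B (a 0)
      have h1 := hm φ
      have h2 : ν ≤ a 0 := by
        rw [a0]
        exact le_sqrt_of_sq_le hc
      have h3 : ν ^ 3 ≤ a 0 ^ 3 := pow_le_pow_left₀ hν0.le h2 3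
      rw [b0] at h1 ⊢
      linarith
  · have hc' : 1 - y 0 ^ 2 ≤ ν ^ 2 := (not_le.1 hc).le
    obtain ⟨a, b, ha, hb', hya, hyb, hab, a1, b1⟩ := frame_pole hy hν0.le hν1 hc'
    obtain ⟨A, B, φ₁, φ₂, e, H⟩ := key a b ha hb' hya hyb hab
    have hT := (trig3_cubic A B (a 0) (b 0)).const_mul η⁻¹
    have hk := fun φ => abs_le.1 (hn y a b ν φ hy ha hb' hya hyb hab hν0.le hc' a1 b1)
    have H' : ∀ φ' ∈ ({φ₁, φ₂} : Set ℝ), ∀ φ, psi δ φ' + η⁻¹ * (A * cos φ' + B * sin φ' +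
        4 / 3 * (a 0 * cos φ' + b 0 * sin φ') ^ 3) ≤ psi δ φ + η⁻¹ * (A * cos φ + B * sin φ +
          4 / 3 * (a 0 * cos φ + b 0 * sin φ) ^ 3) + I / 100 := by
      intro φ' hφ' φ
      have h1 := mul_le_mul_of_nonneg_left (H φ' hφ' φ) (inv_pos.2 hη0).le
      have h2 : ∀ S P : ℝ, η⁻¹ * (S + η * P) = η⁻¹ * S + P := fun S P => by field_simp
      have h3 : ∀ S : ℝ, η⁻¹ * (S + η * I / 200) = η⁻¹ * S + I / 200 := fun S => by field_simp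
      rw [h3, h2, h2] at h1
      linarith [hk φ, hk φ']
    rw [e]
    exact hT.pent hI hδ hδ' le_rfl lo np vx out (H' φ₁ (Or.inl rfl)) (H' φ₂ (Or.inr rfl))

theorem exists_pent {θ : ℝ} (h1 : 4 * π / 5 < θ) (h2 : θ ≤ π) :
    ∃ h γ, Adm h ∧ 0 < γ ∧ Pent θ γ h := by
  have hδ : 0 < min ((θ - 4 * π / 5) / 2) (1 / 100) := lt_min (by linarith) (by norm_num)
  obtain ⟨η, γ, hγ, H⟩ := exists_pent0 hδ (min_le_right _ _)
  have h3 := min_le_left ((θ - 4 * π / 5) / 2) (1 / 100)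
  refine Pent.adm (h := fun p => p 0 ^ 3 + η * kf _ p) ?_ hγ fun y ξ u₁ u₂ hy H₁ H₂ =>
    (cos_le_cos_of_nonneg_of_le_pi (by positivity) h2 (by linarith)).trans (H y ξ u₁ u₂ hy H₁ H₂)
  exact ContDiff.add (by fun_prop) (contDiff_const.mul (contDiff_kf _))

end Pool.Agent.Lib.MP_da270e_gt.SA
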