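import Pool.Agent.Lib.MP_da270e_gt.SA.First
import Pool.Agent.Lib.MP_da270e_gt.SA.Pent

/-!
An open set of metrics all of whose pairs of segments make an angle close to `4π/5` at most.
-/

set_option autoImplicit false
set_option maxSynthPendingDepth 3

namespace Pool.Agent.Lib.MP_da270e_gt.SA

open Set Real
open scoped ContDiff

/-- scale to round unit vectors; `g p u u ∈ [1 - η, 1 + η]` -/
theorem cos_ang {g : Met} {p v w : E} {η : ℝ} (hη0 : 0 ≤ η) (hη : η ≤ 1 / 10) (hv : v ≠ 0)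
    (hw : w ≠ 0) (h1 : |g p v v - inner ℝ v v| ≤ η * ‖v‖ * ‖v‖)
    (h2 : |g p w w - inner ℝ w w| ≤ η * ‖w‖ * ‖w‖) (h3 : |g p v w - inner ℝ v w| ≤ η * ‖v‖ * ‖w‖) :
    inner ℝ (‖v‖⁻¹ • v) (‖w‖⁻¹ • w) - 3 * η ≤ g p v w / (√(g p v v) * √(g p w w)) := by
  have ha : 0 < ‖v‖ := norm_pos_iff.2 hv
  have hb : 0 < ‖w‖ := norm_pos_iff.2 hw
  have hab : 0 < ‖v‖ * ‖w‖ := mul_pos ha hb
  rw [real_inner_self_eq_norm_mul_norm] at h1 h2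
  obtain ⟨a1, a2⟩ := abs_le.1 h1
  obtain ⟨b1, b2⟩ := abs_le.1 h2
  obtain ⟨c1, -⟩ := abs_le.1 h3
  have haa : 0 < ‖v‖ * ‖v‖ := mul_pos ha ha
  have hbb : 0 < ‖w‖ * ‖w‖ := mul_pos hb hb
  have l1 : (1 - η) * (‖v‖ * ‖v‖) ≤ g p v v := by linarith
  have l2 : (1 - η) * (‖w‖ * ‖w‖) ≤ g p w w := by linarith
  have u1 : g p v v ≤ (1 + η) * (‖v‖ * ‖v‖) := by linarith
  have u2 : g p w w ≤ (1 + η) * (‖w‖ * ‖w‖) := by linarith
  have hm : 0 < 1 - η := by linarith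
  have p1 : 0 ≤ g p v v := (mul_pos hm haa).le.trans l1
  have p2 : 0 ≤ g p w w := (mul_pos hm hbb).le.trans l2
  rw [← sqrt_mul p1]
  have s1 : (1 - η) * (‖v‖ * ‖w‖) ≤ √(g p v v * g p w w) := by
    refine le_sqrt_of_sq_le ?_
    calc ((1 - η) * (‖v‖ * ‖w‖)) ^ 2 = ((1 - η) * (‖v‖ * ‖v‖)) * ((1 - η) * (‖w‖ * ‖w‖)) := by ring
      _ ≤ g p v v * g p w w := mul_le_mul l1 l2 (mul_pos hm hbb).le p1
  have s2 : √(g p v v * g p w w) ≤ (1 + η) * (‖v‖ * ‖w‖) := by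
    refine sqrt_le_iff.2 ⟨by positivity, ?_⟩
    calc g p v v * g p w w ≤ ((1 + η) * (‖v‖ * ‖v‖)) * ((1 + η) * (‖w‖ * ‖w‖)) :=
          mul_le_mul u1 u2 p2 (by positivity)
      _ = ((1 + η) * (‖v‖ * ‖w‖)) ^ 2 := by ring
  have s0 : 0 < √(g p v v * g p w w) := (mul_pos hm hab).trans_le s1
  generalize √(g p v v * g p w w) = S at s0 s1 s2
  have e : inner ℝ v w = inner ℝ (‖v‖⁻¹ • v) (‖w‖⁻¹ • w) * (‖v‖ * ‖w‖) := by
    rw [real_inner_smul_left, real_inner_smul_right]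
    field_simp
  have ht : |inner ℝ (‖v‖⁻¹ • v) (‖w‖⁻¹ • w)| ≤ 1 := by
    refine (abs_real_inner_le_norm _ _).trans (le_of_eq ?_)
    rw [norm_smul, norm_smul, norm_inv, norm_inv, norm_norm, norm_norm, inv_mul_cancel₀ ha.ne',
      inv_mul_cancel₀ hb.ne', one_mul]
  rw [e, mul_assoc] at c1
  generalize inner ℝ (‖v‖⁻¹ • v) (‖w‖⁻¹ • w) = t at c1 ht
  generalize ‖v‖ * ‖w‖ = m at c1 hab s1 s2
  rw [le_div_iff₀ s0]
  have k1 : |t * (S - m)| ≤ 1 * (η * m) := by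
    rw [abs_mul]
    exact mul_le_mul ht (abs_le.2 ⟨by linarith, by linarith⟩) (abs_nonneg _) zero_le_one
  have k2 := (abs_le.1 k1).2
  have k3 : η * ((1 - η) * m) ≤ η * S := mul_le_mul_of_nonneg_left s1 hη0
  have k4 : η * (η * m) ≤ 1 / 10 * (η * m) :=
    mul_le_mul_of_nonneg_right hη (mul_nonneg hη0 hab.le)
  have k5 : 0 ≤ η * m := mul_nonneg hη0 hab.le
  nlinarith

/-- `θ₁ = min θ π`, `θ₀ = (4π/5 + θ₁) / 2`, `exists_pent` for `θ₀`; `ε` with `10 ^ 9 ε ≤ γ`,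
`63 ε < cos θ₀ - cos θ₁`; `first_order` twice when `⟪u₁, u₂⟫ ≤ 0`, and `cos θ₀ ≤ 0` -/
theorem upper {θ : ℝ} (hθ : 4 * π / 5 < θ) : ∃ (h : E → ℝ) (ε : ℝ), Adm h ∧ 0 < ε ∧ ε ≤ 1 / 100 ∧
    ∀ g : Met, IsMetric g → C1Close (ε ^ 2) g (gH h ε) → ∀ (x y : E) (c₁ c₂ : ℝ → E),
      IsSegment g c₁ y x → IsSegment g c₂ y x → angB g y (deriv c₁ 0) (deriv c₂ 0) < θ := by
  have hpi := pi_pos
  have t1 : 4 * π / 5 < min θ π := lt_min hθ (by linarith)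
  have t2 : min θ π ≤ π := min_le_right _ _
  have t3 : min θ π ≤ θ := min_le_left _ _
  generalize min θ π = θ₁ at t1 t2 t3
  obtain ⟨h, γ, hh, hγ, hP⟩ :=
    exists_pent (θ := (4 * π / 5 + θ₁) / 2) (by linarith) (by linarith)
  have c1 : cos θ₁ < cos ((4 * π / 5 + θ₁) / 2) :=
    cos_lt_cos_of_nonneg_of_le_pi (by linarith) t2 (by linarith)
  have c2 : cos ((4 * π / 5 + θ₁) / 2) ≤ 0 :=
    cos_nonpos_of_pi_div_two_le_of_le (by linarith) (by linarith)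
  have hP' : ∀ y ξ u₁ u₂ : E, ‖y‖ = 1 → AMin h γ y ξ u₁ → AMin h γ y ξ u₂ →
      cos ((4 * π / 5 + θ₁) / 2) ≤ inner ℝ u₁ u₂ := hP
  generalize cos ((4 * π / 5 + θ₁) / 2) = C at c1 c2 hP'
  obtain ⟨ε, e0, e1, e2, e3⟩ : ∃ ε : ℝ, 0 < ε ∧ ε ≤ 1 / 10 ^ 6 ∧ 10 ^ 9 * ε ≤ γ ∧
      63 * ε < C - cos θ₁ := by
    refine ⟨min (1 / 10 ^ 6) (min (γ / 10 ^ 9) ((C - cos θ₁) / 64)),
      lt_min (by norm_num) (lt_min (by positivity) (by linarith)), min_le_left _ _, ?_, ?_⟩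
    · have := (min_le_right (1 / 10 ^ 6 : ℝ) _).trans
        (min_le_left (γ / 10 ^ 9) ((C - cos θ₁) / 64))
      linarith
    · have := (min_le_right (1 / 10 ^ 6 : ℝ) _).trans
        (min_le_right (γ / 10 ^ 9) ((C - cos θ₁) / 64))
      linarith
  refine ⟨h, ε, hh, e0, by linarith, fun g hg hcl x y c₁ c₂ s₁ s₂ => ?_⟩
  have hc := close_of hh e0 e1 hcl
  have h01 : (0 : ℝ) ∈ Icc (0 : ℝ) 1 := ⟨le_rfl, zero_le_one⟩
  have n₁ := s₁.2.1 0 h01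
  have n₂ := s₂.2.1 0 h01
  have hy : ‖y‖ = 1 := by rw [← s₁.1.2.2.1]; exact s₁.1.2.1 0 h01
  have g₁ : inner ℝ y (deriv c₁ 0) = 0 := by
    have := s₁.1.tang h01
    rwa [s₁.1.2.2.1] at this
  have g₂ : inner ℝ y (deriv c₂ 0) = 0 := by
    have := s₂.1.tang h01
    rwa [s₂.1.2.2.1] at this
  have un : ∀ v : E, v ≠ 0 → ‖‖v‖⁻¹ • v‖ = 1 ∧ v = ‖v‖ • ‖v‖⁻¹ • v := fun v hv => by
    have := norm_ne_zero_iff.2 hv
    exact ⟨by rw [norm_smul, norm_inv, norm_norm, inv_mul_cancel₀ this],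
      by rw [smul_smul, mul_inv_cancel₀ this, one_smul]⟩
  have mono : ∀ {ξ u : E}, AMin h (10 ^ 9 * ε) y ξ u → AMin h γ y ξ u := fun H =>
    ⟨H.1, H.2.1, fun e a b => (H.2.2 e a b).trans (by linarith)⟩
  have key : C ≤ inner ℝ (‖deriv c₁ 0‖⁻¹ • deriv c₁ 0) (‖deriv c₂ 0‖⁻¹ • deriv c₂ 0) := by
    by_cases hu : inner ℝ (‖deriv c₁ 0‖⁻¹ • deriv c₁ 0) (‖deriv c₂ 0‖⁻¹ • deriv c₂ 0) ≤ 0
    · exact hP' y _ _ _ hy
        (mono (first_order hh e0 e1 hg hc s₁ s₂ (un _ n₁).1 (un _ n₂).1 (un _ n₁).2 (un _ n₂).2 hu))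
        (mono (first_order hh e0 e1 hg hc s₂ s₁ (un _ n₂).1 (un _ n₁).1 (un _ n₂).2 (un _ n₁).2
          (by rwa [real_inner_comm])))
    · exact c2.trans (not_le.1 hu).le
  have h5 := cos_ang (g := g) (p := y) (η := 21 * ε) (by linarith) (by linarith) n₁ n₂
    (hc.c0 y _ _ hy g₁ g₁) (hc.c0 y _ _ hy g₂ g₂) (hc.c0 y _ _ hy g₁ g₂)
  unfold angB
  calc arccos (g y (deriv c₁ 0) (deriv c₂ 0) /
        (√(g y (deriv c₁ 0) (deriv c₁ 0)) * √(g y (deriv c₂ 0) (deriv c₂ 0))))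
      ≤ arccos (C - 63 * ε) := arccos_le_arccos (by linarith)
    _ < arccos (cos θ₁) := arccos_lt_arccos (neg_one_le_cos _) (by linarith) (by linarith)
    _ = θ₁ := arccos_cos (by linarith) t2
    _ ≤ θ := t3

end Pool.Agent.Lib.MP_da270e_gt.SA
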