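import Pool.Agent.Lib.MP_da270e_gt.SA.Stmt
import Pool.Agent.Lib.MP_da270e_gt.SA.Lower
import Pool.Agent.Lib.MP_da270e_gt.SA.Upper

/-!
The sharp angle, for matrix fields.
-/

set_option autoImplicit false
set_option maxSynthPendingDepth 3

namespace Pool.Agent.Lib.MP_da270e_gt.SA

open Set Real
open scoped ContDiff

theorem ang_toBil (g : E → Fin 3 → Fin 3 → ℝ) (p v w : E) :
    angB (toBil g) p v w = Stmt.ang g p v w := by
  simp only [angB, Stmt.ang, toBil_apply]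

theorem seg_ofBil {g : E → Fin 3 → Fin 3 → ℝ} {c : ℝ → E} {a b : E}
    (h : IsSegment (toBil g) c a b) : Stmt.IsSegment g c a b :=
  ⟨h.1, h.2.1, by rw [← len_toBil, ← rho_toBil]; exact h.2.2⟩

/-- the matrix field of `gH h ε` -/
noncomputable def mH (h : E → ℝ) (ε : ℝ) (p : E) (i j : Fin 3) : ℝ :=
  if i = j then (1 + ε * h p) ^ 2 else 0

theorem toBil_mH (h : E → ℝ) (ε : ℝ) : toBil (mH h ε) = gH h ε := by
  ext1 p
  refine ContinuousLinearMap.ext fun v => ContinuousLinearMap.ext fun w => ?_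
  rw [toBil_apply, gH_apply, inner_coord]
  simp [Stmt.form, mH, Fin.sum_univ_three]
  ring

theorem isMetric_mH {h : E → ℝ} (hh : Adm h) {ε : ℝ} (hε : 0 ≤ ε) (hε' : ε ≤ 1 / 100) :
    Stmt.IsMetric (mH h ε) := by
  refine ⟨fun i j => ?_, fun p i j => by simp only [mH, eq_comm], fun p v hp hv h0 => ?_⟩
  · unfold mH
    split_ifs
    · exact (contDiff_const.add (contDiff_const.mul hh.smooth)).pow 2
    · exact contDiff_const
  · rw [← toBil_apply, toBil_mH]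
    exact (isMetric_gH hh hε hε').2.2 p v hp hv h0

theorem main (θ : ℝ) : List.TFAE [θ ≤ 4 * π / 5,
    ∀ g, Stmt.IsMetric g → ∃ x y, Stmt.Wide g θ x y ∧ Stmt.Critical g x y,
    ∀ g₀ δ, Stmt.IsMetric g₀ → 0 < δ →
      ∃ g, Stmt.IsMetric g ∧ Stmt.C1Close δ g g₀ ∧ ∃ x y, Stmt.Wide g θ x y] := by
  tfae_have 1 → 2 := fun hθ g hg => by
    obtain ⟨x, y, hxy, ⟨c₁, c₂, s₁, s₂, h⟩, hc⟩ := lower (isMetric_toBil hg)
    rw [ang_toBil] at h
    refine ⟨x, y, ⟨hxy, c₁, c₂, seg_ofBil s₁, seg_ofBil s₂, hθ.trans h⟩, fun τ h1 h2 => ?_⟩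
    obtain ⟨c, s, h3⟩ := hc τ h1 h2
    rw [ang_toBil] at h3
    exact ⟨c, seg_ofBil s, h3⟩
  tfae_have 2 → 3 := fun H g₀ δ hg hδ => by
    obtain ⟨x, y, h, -⟩ := H g₀ hg
    refine ⟨g₀, hg, fun p u v w _ _ _ _ => ?_, x, y, h⟩
    simp only [sub_self, abs_zero]
    exact ⟨by positivity, by positivity⟩
  tfae_have 3 → 1 := fun H => by
    by_contra hθ
    obtain ⟨h, ε, hh, hε, hε', hU⟩ := upper (not_le.1 hθ)
    have hm := isMetric_mH hh hε.le hε'
    obtain ⟨g, hg, hcl, x, y, -, c₁, c₂, s₁, s₂, ha⟩ := H (mH h ε) (ε ^ 2) hm (by positivity)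
    have hG := isMetric_toBil hg
    have := hU (toBil g) hG (fun p u v w hp hu hv hw => by
      rw [← toBil_mH, toBil_apply, toBil_apply, cov_toBil hG, cov_toBil (isMetric_toBil hm)]
      exact hcl p u v w hp hu hv hw) x y c₁ c₂ (seg_toBil s₁) (seg_toBil s₂)
    rw [ang_toBil] at this
    exact absurd ha (not_le.2 this)
  tfae_finish

end Pool.Agent.Lib.MP_da270e_gt.SA
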