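import Pool.Agent.Lib.MP_da270e_gt.SA.Base

/-!
The extended quadratic forms.
-/

set_option autoImplicit false
set_option maxSynthPendingDepth 3

namespace Pool.Agent.Lib.MP_da270e_gt.SA

open Set Real
open scoped ContDiff

variable {g : Met} {z v w : E}

theorem GG_symm (hg : IsMetric g) (z v w : E) : GG g z v w = GG g z w v := by
  unfold GG
  rw [hg.2.1 z, mul_comm]

theorem GG_tang (hv : inner ℝ z v = 0) (hw : inner ℝ z w = 0) : GG g z v w = g z v w := by
  simp [GG, hv, hw]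

theorem NG_tang (hw : inner ℝ z w = 0) : NG g z w = √(g z w w) := by
  rw [NG, GG_tang hw hw]

theorem GG_nonneg (hg : IsMetric g) (hz : ‖z‖ = 1) (w : E) : 0 ≤ GG g z w w := by
  refine add_nonneg (hg.nonneg hz ?_) (mul_self_nonneg _)
  rw [inner_sub_right, real_inner_smul_right, real_inner_self_eq_norm_sq, hz]
  ring

theorem NG_nonneg (g : Met) (z w : E) : 0 ≤ NG g z w := by
  exact Real.sqrt_nonneg _

theorem NG_sq (hg : IsMetric g) (hz : ‖z‖ = 1) (w : E) : NG g z w ^ 2 = GG g z w w := by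
  exact Real.sq_sqrt (GG_nonneg hg hz w)

/-- `GG g z v` as a continuous linear form -/
theorem exists_GG_form (g : Met) (z v : E) : ∃ l : E →L[ℝ] ℝ, ∀ w, l w = GG g z v w := by
  refine ⟨(g z (v - inner ℝ z v • z)).comp (ContinuousLinearMap.id ℝ E -
    (innerSL ℝ z).smulRight z) + inner ℝ z v • innerSL ℝ z, fun w => ?_⟩
  simp [GG]
  ring

/-- Cauchy-Schwarz (`discrim_le_zero` on `t ↦ GG (v + t w) (v + t w)`) -/
theorem GG_le (hg : IsMetric g) (hz : ‖z‖ = 1) (v w : E) : GG g z v w ≤ NG g z v * NG g z w := by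
  obtain ⟨l, hl⟩ := exists_GG_form g z v
  obtain ⟨l', hl'⟩ := exists_GG_form g z w
  have key : ∀ t : ℝ, 0 ≤ GG g z w w * (t * t) + 2 * GG g z v w * t + GG g z v v := by
    intro t
    obtain ⟨k, hk⟩ := exists_GG_form g z (v + t • w)
    have h0 := GG_nonneg hg hz (v + t • w)
    rw [← hk, map_add, map_smul, hk, hk, GG_symm hg z _ v, GG_symm hg z _ w, ← hl, ← hl',
      map_add, map_add, map_smul, map_smul, hl, hl, hl', hl', GG_symm hg z w v] at h0
    simp only [smul_eq_mul] at h0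
    linarith
  have hd := discrim_le_zero key
  unfold discrim at hd
  rw [NG, NG, ← Real.sqrt_mul (GG_nonneg hg hz v)]
  exact Real.le_sqrt_of_sq_le (by linarith)

theorem NG_add_le (hg : IsMetric g) (hz : ‖z‖ = 1) (v w : E) :
    NG g z (v + w) ≤ NG g z v + NG g z w := by
  obtain ⟨l, hl⟩ := exists_GG_form g z v
  obtain ⟨l', hl'⟩ := exists_GG_form g z w
  obtain ⟨k, hk⟩ := exists_GG_form g z (v + w)
  have h0 : GG g z (v + w) (v + w) = GG g z v v + 2 * GG g z v w + GG g z w w := by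
    rw [← hk, map_add, hk, hk, GG_symm hg z _ v, GG_symm hg z _ w, ← hl, ← hl',
      map_add, map_add, hl, hl, hl', hl', GG_symm hg z w v]
    ring
  have h1 := GG_le hg hz v w
  have h2 := NG_sq hg hz v
  have h3 := NG_sq hg hz w
  refine Real.sqrt_le_iff.2 ⟨add_nonneg (NG_nonneg g z v) (NG_nonneg g z w), ?_⟩
  rw [h0]
  nlinarith

theorem NG_smul (g : Met) (z : E) (a : ℝ) (w : E) : NG g z (a • w) = |a| * NG g z w := by
  have h0 : GG g z (a • w) (a • w) = a ^ 2 * GG g z w w := by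
    have h1 : a • w - inner ℝ z (a • w) • z = a • (w - inner ℝ z w • z) := by
      rw [real_inner_smul_right, smul_sub, smul_smul]
    unfold GG
    rw [h1, real_inner_smul_right, map_smul, map_smul]
    simp only [smul_apply, smul_eq_mul]
    ring
  rw [NG, NG, h0, Real.sqrt_mul (sq_nonneg a), Real.sqrt_sq_eq_abs]

theorem GG_hilbert (hg : IsMetric g) (z a b : E) (l : ℝ) :
    GG g z (a - l • (a + b)) (a - l • (a + b)) =
      (1 - l) * GG g z a a + l * GG g z b b - l * (1 - l) * GG g z (a + b) (a + b) := by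
  obtain ⟨p, hp⟩ := exists_GG_form g z a
  obtain ⟨q, hq⟩ := exists_GG_form g z b
  have e : ∀ (u : E) (s t : ℝ), GG g z u (s • a + t • b) = s * GG g z u a + t * GG g z u b := by
    intro u s t
    obtain ⟨k, hk⟩ := exists_GG_form g z u
    rw [← hk, map_add, map_smul, map_smul, hk, hk, smul_eq_mul, smul_eq_mul]
  have e2 : ∀ s t : ℝ, GG g z (s • a + t • b) (s • a + t • b) =
      s * s * GG g z a a + 2 * s * t * GG g z a b + t * t * GG g z b b := by
    intro s t
    rw [e, GG_symm hg z _ a, GG_symm hg z _ b, e, e, GG_symm hg z b a]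
    ring
  have h1 : a - l • (a + b) = (1 - l) • a + (-l) • b := by module
  have h2 : a + b = (1 : ℝ) • a + (1 : ℝ) • b := by module
  have h3 := e2 1 1
  rw [← h2] at h3
  rw [h1, e2, h3]
  ring

theorem continuous_NG (hg : IsMetric g) : Continuous fun x : E × E => NG g x.1 x.2 := by
  have hc : Continuous g := hg.1.continuous
  have h1 : Continuous fun x : E × E => inner ℝ x.1 x.2 := continuous_inner
  have h2 : Continuous fun x : E × E => x.2 - inner ℝ x.1 x.2 • x.1 :=
    continuous_snd.sub (h1.smul continuous_fst)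
  exact ((((hc.comp continuous_fst).clm_apply h2).clm_apply h2).add (h1.mul h1)).sqrt

theorem bd_pos (hg : IsMetric g) (hz : ‖z‖ = 1) (hw : w ≠ 0) : 0 < GG g z w w := by
  unfold GG
  by_cases h0 : w - inner ℝ z w • z = 0
  · have h1 : inner ℝ z w ≠ (0 : ℝ) := fun h => hw (by rwa [h, zero_smul, sub_zero] at h0)
    rw [h0, map_zero, zero_add]
    exact mul_self_pos.2 h1
  · have h1 : inner ℝ z (w - inner ℝ z w • z) = (0 : ℝ) := by
      rw [inner_sub_right, real_inner_smul_right, real_inner_self_eq_norm_sq, hz]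
      ring
    exact add_pos_of_pos_of_nonneg (hg.2.2 z _ hz h1 h0) (mul_self_nonneg _)

theorem bd_smooth (hg : IsMetric g) : ContDiff ℝ 1 fun x : E × E => GG g x.1 x.2 x.2 := by
  have h1 : ContDiff ℝ 1 fun x : E × E => g x.1 :=
    (hg.1.of_le (by exact_mod_cast le_top)).comp contDiff_fst
  have h2 : ContDiff ℝ 1 fun x : E × E => (inner ℝ x.1 x.2 : ℝ) :=
    contDiff_fst.inner ℝ contDiff_snd
  have h3 : ContDiff ℝ 1 fun x : E × E => x.2 - (inner ℝ x.1 x.2 : ℝ) • x.1 :=
    contDiff_snd.sub (h2.smul contDiff_fst)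
  exact ((h1.clm_apply h3).clm_apply h3).add (h2.mul h2)

theorem bd_unit (g : Met) (hz : ‖z‖ = 1) (w : E) :
    ∃ u : E, ‖u‖ = 1 ∧ ∀ y, NG g y w = ‖w‖ * NG g y u := by
  have key : ∀ u : E, w = ‖w‖ • u → ∀ y, NG g y w = ‖w‖ * NG g y u := fun u hu y => by
    have h := NG_smul g y ‖w‖ u
    rwa [← hu, abs_of_nonneg (norm_nonneg w)] at h
  by_cases hw : w = 0
  · exact ⟨z, hz, key z (by rw [hw, norm_zero, zero_smul])⟩
  · have h0 : ‖w‖ ≠ 0 := norm_ne_zero_iff.2 hw
    refine ⟨‖w‖⁻¹ • w, ?_, key _ ?_⟩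
    · rw [norm_smul, norm_inv, norm_norm, inv_mul_cancel₀ h0]
    · rw [smul_smul, mul_inv_cancel₀ h0, one_smul]

/-- `m`, `M` from the extreme values of `NG` on the product of the unit spheres and `NG_smul`.
For the Lipschitz bound: `(z, w) ↦ GG g z w w` is `C¹`, so Lipschitz on the product of the closed
unit balls (`ContDiffOn.exists_lipschitzOnWith` or a bound of the derivative), then
`|√A - √B| = |A - B| / (√A + √B)` with `√A + √B ≥ 2 m` for unit `w`. -/
theorem exists_bd (hg : IsMetric g) : ∃ m M C, Bd g m M C := by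
  have hS : IsCompact ((Metric.sphere (0 : E) 1) ×ˢ (Metric.sphere (0 : E) 1)) :=
    (isCompact_sphere _ _).prod (isCompact_sphere _ _)
  have hne : ((Metric.sphere (0 : E) 1) ×ˢ (Metric.sphere (0 : E) 1)).Nonempty :=
    (NormedSpace.sphere_nonempty.2 zero_le_one).prod (NormedSpace.sphere_nonempty.2 zero_le_one)
  have hmem : ∀ y u : E, ‖y‖ = 1 → ‖u‖ = 1 →
      (y, u) ∈ (Metric.sphere (0 : E) 1) ×ˢ (Metric.sphere (0 : E) 1) := fun y u hy hu =>
    ⟨mem_sphere_zero_iff_norm.2 hy, mem_sphere_zero_iff_norm.2 hu⟩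
  have hpos : ∀ x ∈ (Metric.sphere (0 : E) 1) ×ˢ (Metric.sphere (0 : E) 1),
      0 < GG g x.1 x.2 x.2 := fun x hx =>
    bd_pos hg (mem_sphere_zero_iff_norm.1 hx.1) (by
      have h := mem_sphere_zero_iff_norm.1 hx.2
      exact norm_pos_iff.1 (by rw [h]; exact one_pos))
  have hc : Continuous fun x : E × E => NG g x.1 x.2 := (bd_smooth hg).continuous.sqrt
  obtain ⟨x0, hx0, hmin⟩ := hS.exists_isMinOn hne hc.continuousOn
  obtain ⟨x1, _, hmax⟩ := hS.exists_isMaxOn hne hc.continuousOn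
  have hloc : LocallyLipschitzOn ((Metric.sphere (0 : E) 1) ×ˢ (Metric.sphere (0 : E) 1))
      fun x : E × E => NG g x.1 x.2 := fun x hx => by
    have h1 : ContDiffAt ℝ 1 (fun x : E × E => NG g x.1 x.2) x :=
      (bd_smooth hg).contDiffAt.sqrt (hpos x hx).ne'
    obtain ⟨K, t, ht, hK⟩ := h1.exists_lipschitzOnWith
    exact ⟨K, t, mem_nhdsWithin_of_mem_nhds ht, hK⟩
  obtain ⟨K, hK⟩ := hloc.exists_lipschitzOnWith_of_compact hS
  refine ⟨NG g x0.1 x0.2, NG g x1.1 x1.2, K, Real.sqrt_pos.2 (hpos x0 hx0), K.2, ?_, ?_, ?_⟩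
  · intro y w hy
    obtain ⟨u, hu, h⟩ := bd_unit g hy w
    rw [h y, mul_comm]
    exact mul_le_mul_of_nonneg_left (hmin (hmem y u hy hu)) (norm_nonneg w)
  · intro y w hy
    obtain ⟨u, hu, h⟩ := bd_unit g hy w
    rw [h y, mul_comm]
    exact mul_le_mul_of_nonneg_right (hmax (hmem y u hy hu)) (norm_nonneg w)
  · intro y y' w hy hy'
    obtain ⟨u, hu, h⟩ := bd_unit g hy w
    have h1 := hK.dist_le_mul _ (hmem y u hy hu) _ (hmem y' u hy' hu)
    rw [Prod.dist_eq, dist_self, max_eq_left dist_nonneg, Real.dist_eq, dist_eq_norm] at h1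
    rw [h y, h y', ← mul_sub, abs_mul, abs_of_nonneg (norm_nonneg w), mul_comm]
    exact mul_le_mul_of_nonneg_right h1 (norm_nonneg w)

/-- three orthonormal vectors span -/
theorem span3 {y a b : E} (hy : ‖y‖ = 1) (ha : ‖a‖ = 1) (hb : ‖b‖ = 1) (hya : inner ℝ y a = 0)
    (hyb : inner ℝ y b = 0) (hab : inner ℝ a b = 0) {u : E} (hu : inner ℝ y u = 0) :
    u = inner ℝ a u • a + inner ℝ b u • b := by
  have ho : Orthonormal ℝ ![y, a, b] := by
    refine ⟨fun i => by fin_cases i <;> simpa, fun i j hij => ?_⟩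
    fin_cases i <;> fin_cases j <;>
      first
        | exact absurd rfl hij
        | simpa
        | simpa [real_inner_comm]
  let B : OrthonormalBasis (Fin 3) ℝ E := (basisOfOrthonormalOfCardEqFinrank ho
    (by simp)).toOrthonormalBasis (by simpa using ho)
  have hB : (B : Fin 3 → E) = ![y, a, b] := by simp [B]
  have h := B.sum_repr' u
  rw [hB, Fin.sum_univ_three] at h
  simpa [hu] using h.symm

/-- unit tangent vectors in an orthonormal frame -/
theorem exists_angle {y a b : E} (hy : ‖y‖ = 1) (ha : ‖a‖ = 1) (hb : ‖b‖ = 1)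
    (hya : inner ℝ y a = 0) (hyb : inner ℝ y b = 0) (hab : inner ℝ a b = 0) {u : E}
    (hu : inner ℝ y u = 0) (h1 : ‖u‖ = 1) : ∃ φ : ℝ, u = arc a b φ := by
  have h := span3 hy ha hb hya hyb hab hu
  set p : ℝ := inner ℝ a u
  set q : ℝ := inner ℝ b u
  have h2 : p ^ 2 + q ^ 2 = 1 := by
    have h3 : inner ℝ u u = (1 : ℝ) := by rw [real_inner_self_eq_norm_sq, h1]; norm_num
    rw [h] at h3
    simp only [inner_add_left, inner_add_right, inner_smul_left, inner_smul_right,
      real_inner_self_eq_norm_sq, ha, hb, hab, real_inner_comm a b, conj_trivial] at h3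
    linarith
  have hn : ‖(⟨p, q⟩ : ℂ)‖ = 1 := by
    rw [Complex.norm_eq_sqrt_sq_add_sq, h2, Real.sqrt_one]
  have h0 : (⟨p, q⟩ : ℂ) ≠ 0 := fun e => by simp [e] at hn
  refine ⟨Complex.arg ⟨p, q⟩, ?_⟩
  rw [arc, Complex.cos_arg h0, Complex.sin_arg, hn, div_one, div_one]
  exact h

theorem inner_arc_arc {a b : E} (ha : ‖a‖ = 1) (hb : ‖b‖ = 1) (hab : inner ℝ a b = 0)
    (φ ψ : ℝ) : inner ℝ (arc a b φ) (arc a b ψ) = cos (φ - ψ) := by
  simp only [arc, inner_add_left, inner_add_right, inner_smul_left, inner_smul_right,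
    real_inner_self_eq_norm_sq, ha, hb, hab, real_inner_comm a b, conj_trivial, cos_sub]
  ring

theorem norm_arc_sub {a b : E} (ha : ‖a‖ = 1) (hb : ‖b‖ = 1) (hab : inner ℝ a b = 0)
    (φ ψ : ℝ) : ‖arc a b φ - arc a b ψ‖ ≤ |φ - ψ| := by
  refine le_of_sq_le_sq ?_ (abs_nonneg _)
  rw [sq_abs, ← real_inner_self_eq_norm_sq, inner_sub_left, inner_sub_right, inner_sub_right,
    inner_arc_arc ha hb hab, inner_arc_arc ha hb hab, inner_arc_arc ha hb hab,
    inner_arc_arc ha hb hab, sub_self, sub_self, cos_zero, ← neg_sub φ ψ, cos_neg]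
  linarith [Real.one_sub_sq_div_two_le_cos (x := φ - ψ)]

end Pool.Agent.Lib.MP_da270e_gt.SA
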