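import Pool.Agent.Lib.MP_da270e_gt.SA.Quad
import Pool.Agent.Lib.MP_da270e_gt.SA.Geo
import Pool.Agent.Lib.MP_da270e_gt.SA.COne

/-!
Metric geodesics are `C¹` with constant speed.
-/

set_option autoImplicit false
set_option maxSynthPendingDepth 3

namespace Pool.Agent.Lib.MP_da270e_gt.SA

open Set Real Filter Topology
open scoped ContDiff

variable {g : Met} {m M C : ℝ}

theorem dev_core9 {l P η A B D : ℝ} (l0 : 0 ≤ l) (l1 : l ≤ 1) (h0 : 0 ≤ η) (hP : 0 ≤ P)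
    (A0 : 0 ≤ A) (B0 : 0 ≤ B) (D0 : 0 ≤ D) (hA : A ≤ l * P * (1 + η))
    (hB : B ≤ (1 - l) * P * (1 + η)) (hD : P * (1 - η) ≤ D) :
    (1 - l) * A ^ 2 + l * B ^ 2 - l * (1 - l) * D ^ 2 ≤ P ^ 2 * (η * (4 + η)) / 4 := by
  have l2 : 0 ≤ 1 - l := sub_nonneg.2 l1
  have a1 : A ^ 2 ≤ (l * P * (1 + η)) ^ 2 := pow_le_pow_left₀ A0 hA 2
  have a2 : B ^ 2 ≤ ((1 - l) * P * (1 + η)) ^ 2 := pow_le_pow_left₀ B0 hB 2
  have a3 : P ^ 2 * (1 - 2 * η) ≤ D ^ 2 := by
    rcases le_total η 1 with h | h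
    · have : (P * (1 - η)) ^ 2 ≤ D ^ 2 :=
        pow_le_pow_left₀ (mul_nonneg hP (sub_nonneg.2 h)) hD 2
      nlinarith [sq_nonneg (P * η)]
    · have : P ^ 2 * (1 - 2 * η) ≤ 0 :=
        mul_nonpos_of_nonneg_of_nonpos (sq_nonneg P) (by linarith)
      exact this.trans (sq_nonneg D)
  have b1 := mul_le_mul_of_nonneg_left a1 l2
  have b2 := mul_le_mul_of_nonneg_left a2 l0
  have b3 := mul_le_mul_of_nonneg_left a3 (mul_nonneg l0 l2)
  have b4 : l * (1 - l) ≤ 1 / 4 := by nlinarith [sq_nonneg (l - 1 / 2)]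
  have b5 : 0 ≤ P ^ 2 * (η * (4 + η)) := by positivity
  have b6 := mul_le_mul_of_nonneg_right b4 b5
  have e : (1 - l) * (l * P * (1 + η)) ^ 2 + l * ((1 - l) * P * (1 + η)) ^ 2 -
      l * (1 - l) * (P ^ 2 * (1 - 2 * η)) = l * (1 - l) * (P ^ 2 * (η * (4 + η))) := by ring
  linarith

theorem dev_cmp9 (hc : Cmp g m M C) {z p q : E} (hz : ‖z‖ = 1) (hp : ‖p‖ = 1) (hq : ‖q‖ = 1)
    {R : ℝ} (h1 : ‖p - z‖ ≤ R) (h2 : ‖q - z‖ ≤ R) :
    |rho g p q - NG g z (q - p)| ≤ C * R / m * rho g p q := by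
  have hm := hc.pos
  have hR : 0 ≤ R := (norm_nonneg _).trans h1
  have hC := hc.C0
  have a1 : ‖q - p‖ ≤ rho g p q / m := by
    rw [le_div_iff₀ hm, mul_comm]
    exact hc.rlo p q hp hq
  refine (hc.cmp z p q R hz hp hq h1 h2).trans ?_
  calc C * R * ‖q - p‖ ≤ C * R * (rho g p q / m) := by gcongr
    _ = _ := by ring

/-- With `z = γ s`, `r = t - s`, `a = γ u - γ s`, `b = γ t - γ u`, `l = (u - s) / r`,
`η = C L r / m ^ 2 ≤ 2 C M / m ^ 2` (all three points are within `L r / m` of `z` by `rlo`):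
`NG a ≤ l r L (1 + η)`, `NG b ≤ (1 - l) r L (1 + η)`, `NG (a + b) ≥ r L (1 - η)`, hence
`GG (a + b) ≥ r ^ 2 L ^ 2 (1 - 2 η)`; `GG_hilbert` gives
`m ^ 2 ‖a - l (a + b)‖ ^ 2 ≤ r ^ 2 L ^ 2 η (4 + η) / 4`. -/
theorem AG.dev (hg : IsMetric g) (hc : Cmp g m M C) : ∃ K, 0 ≤ K ∧ ∀ (γ : ℝ → E) (y x : E),
    AG g (rho g y x) γ y x → Dev γ (K * (rho g y x * √(rho g y x))) := by
  have hm := hc.pos
  have hC := hc.C0
  set k := C / m ^ 2 * (4 + 2 * C * |M| / m ^ 2) / (4 * m ^ 2) with hk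
  have hk0 : 0 ≤ k := by positivity
  refine ⟨√k, sqrt_nonneg _, fun γ y x h s u t hs hsu hut ht => ?_⟩
  set L := rho g y x with hL
  have L0 : 0 ≤ L := rho_nonneg g y x
  have L2 : L ≤ 2 * |M| := by
    have hy : ‖y‖ = 1 := h.src ▸ h.unit 0 ⟨le_rfl, zero_le_one⟩
    have hx : ‖x‖ = 1 := h.tgt ▸ h.unit 1 ⟨zero_le_one, le_rfl⟩
    have a1 := hc.rhi y x hy hx
    have a2 : ‖x - y‖ ≤ 2 := (norm_sub_le _ _).trans (by rw [hx, hy]; norm_num)
    have a3 : M * ‖x - y‖ ≤ |M| * 2 :=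
      mul_le_mul (le_abs_self M) a2 (norm_nonneg _) (abs_nonneg M)
    linarith
  rcases (hsu.trans hut).eq_or_lt with rfl | hst
  · obtain rfl : s = u := le_antisymm hsu hut
    simp
  set r := t - s with hr
  have r0 : 0 < r := sub_pos.2 hst
  have r1 : r ≤ 1 := by linarith
  set l := (u - s) / r with hl
  have hlr : l * r = u - s := div_mul_cancel₀ _ r0.ne'
  have l0 : 0 ≤ l := div_nonneg (sub_nonneg.2 hsu) r0.le
  have l1 : l ≤ 1 := (div_le_one r0).2 (by linarith)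
  have hz : ‖γ s‖ = 1 := h.unit s ⟨hs, by linarith⟩
  have hu : ‖γ u‖ = 1 := h.unit u ⟨by linarith, by linarith⟩
  have hv : ‖γ t‖ = 1 := h.unit t ⟨by linarith, ht⟩
  have e1 : rho g (γ s) (γ u) = l * (r * L) := by
    rw [AG.eq hg h hs hsu (by linarith), ← hlr, mul_assoc]
  have e2 : rho g (γ u) (γ t) = (1 - l) * (r * L) := by
    rw [AG.eq hg h (by linarith) hut ht, show t - u = (1 - l) * r by linarith, mul_assoc]
  have e3 : rho g (γ s) (γ t) = r * L := AG.eq hg h hs hst.le ht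
  set P := r * L with hP
  have P0 : 0 ≤ P := mul_nonneg r0.le L0
  have n0 : ‖γ s - γ s‖ ≤ P / m := by rw [sub_self, norm_zero]; positivity
  have n1 : ‖γ u - γ s‖ ≤ P / m := by
    have := hc.rlo _ _ hz hu
    rw [le_div_iff₀ hm]
    nlinarith
  have n2 : ‖γ t - γ s‖ ≤ P / m := by
    have := hc.rlo _ _ hz hv
    rw [le_div_iff₀ hm]
    nlinarith
  have c1 := abs_le.1 (dev_cmp9 hc hz hz hu n0 n1)
  have c2 := abs_le.1 (dev_cmp9 hc hz hu hv n1 n2)
  have c3 := abs_le.1 (dev_cmp9 hc hz hz hv n0 n2)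
  rw [e1] at c1
  rw [e2] at c2
  rw [e3] at c3
  set η := C * (P / m) / m with hη
  have η0 : 0 ≤ η := by positivity
  have η1 : η = C / m ^ 2 * P := by rw [hη]; field_simp
  have η2 : η ≤ 2 * C * |M| / m ^ 2 := by
    have : P ≤ 2 * |M| := (mul_le_of_le_one_left L0 r1).trans L2
    rw [η1]
    calc C / m ^ 2 * P ≤ C / m ^ 2 * (2 * |M|) := by gcongr
      _ = _ := by ring
  have ab : γ u - γ s + (γ t - γ u) = γ t - γ s := by abel
  have hil := GG_hilbert hg (γ s) (γ u - γ s) (γ t - γ u) l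
  rw [ab, ← NG_sq hg hz, ← NG_sq hg hz, ← NG_sq hg hz, ← NG_sq hg hz] at hil
  have core := dev_core9 l0 l1 η0 P0 (NG_nonneg g (γ s) (γ u - γ s))
    (NG_nonneg g (γ s) (γ t - γ u)) (NG_nonneg g (γ s) (γ t - γ s)) (by linarith [c1.1])
    (by linarith [c2.1]) (by linarith [c3.2])
  rw [← hil] at core
  set v := γ u - γ s - l • (γ t - γ s) with hv'
  have d1 : (m * ‖v‖) ^ 2 ≤ NG g (γ s) v ^ 2 :=
    pow_le_pow_left₀ (by positivity) (hc.lo _ _ hz) 2
  have d2 : ‖v‖ ^ 2 ≤ k * P ^ 3 := by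
    have d3 : P ^ 2 * (η * (4 + η)) / 4 ≤ P ^ 2 * (η * (4 + 2 * C * |M| / m ^ 2)) / 4 := by gcongr
    have d4 : P ^ 2 * (η * (4 + 2 * C * |M| / m ^ 2)) / 4 = m ^ 2 * (k * P ^ 3) := by
      rw [η1, hk]
      field_simp
    have d5 : m ^ 2 * ‖v‖ ^ 2 ≤ m ^ 2 * (k * P ^ 3) := by
      rw [← mul_pow, ← d4]
      linarith
    exact le_of_mul_le_mul_left d5 (by positivity)
  have d6 : ‖v‖ ≤ √k * (L * √L) * (r * √r) := by
    refine abs_le_of_sq_le_sq' ?_ (by positivity) |>.2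
    have : (√k * (L * √L) * (r * √r)) ^ 2 = k * P ^ 3 := by
      rw [mul_pow, mul_pow, mul_pow, mul_pow, sq_sqrt hk0, sq_sqrt L0, sq_sqrt r0.le, hP]
      ring
    rw [this]
    exact d2
  have e4 : r • (γ u - γ s) - (u - s) • (γ t - γ s) = r • v := by
    rw [hv', smul_sub r (γ u - γ s), smul_smul, mul_comm r l, hlr]
  rw [e4, norm_smul, Real.norm_of_nonneg r0.le]
  calc r * ‖v‖ ≤ r * (√k * (L * √L) * (r * √r)) := by gcongr
    _ = _ := by ring

theorem exists_reg (hg : IsMetric g) (hc : Cmp g m M C) : ∃ K, 0 ≤ K ∧ Reg g K := by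
  obtain ⟨K, hK, hdev⟩ := AG.dev hg hc
  refine ⟨14 * K, by positivity, fun γ y x h => ?_⟩
  have hL := rho_nonneg g y x
  have hK' : 0 ≤ K * (rho g y x * √(rho g y x)) := by positivity
  obtain ⟨D, hD⟩ := (hdev γ y x h).exists_D hK'
  obtain ⟨c, hc1, hc2⟩ := c_one_of_D (K := 14 * (K * (rho g y x * √(rho g y x))))
    (by positivity) hD
  refine ⟨c, hc1, fun t ht => (hc2 t ht).1, fun t ht => ?_⟩
  have h0 : (0 : ℝ) ∈ Icc (0 : ℝ) 1 := ⟨le_rfl, zero_le_one⟩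
  have h1 := hD 0 h0 t ht
  rw [h.src, sub_zero, abs_of_nonneg ht.1] at h1
  rw [(hc2 0 h0).2, mul_assoc 14 K]
  exact h1

/-- for `s < 1` let `t ↓ s` in `|L - NG (c s) ((c t - c s) / (t - s))| ≤ C ‖c t - c s‖ ‖quotient‖`
(`cmp` with `z = p = c s`, `AG.eq`, `NG_smul`, `continuous_NG`, `NG_tang`); `s = 1` by continuity -/
theorem AG.speed (hg : IsMetric g) (hc : Cmp g m M C) {γ c : ℝ → E} {y x : E}
    (h : AG g (rho g y x) γ y x) (h1 : ContDiff ℝ 1 c) (h2 : ∀ t ∈ Icc (0 : ℝ) 1, c t = γ t) :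
    ∀ s ∈ Icc (0 : ℝ) 1, √(g (c s) (deriv c s) (deriv c s)) = rho g y x := by
  have hu : ∀ t ∈ Icc (0 : ℝ) 1, ‖c t‖ = 1 := fun t ht => by rw [h2 t ht]; exact h.unit t ht
  have hp : IsPath c (c 0) (c 1) := ⟨h1, hu, rfl, rfl⟩
  have hc0 : Continuous c := h1.continuous
  have hd0 : Continuous (deriv c) := h1.continuous_deriv le_rfl
  have hNG : Continuous fun s => NG g (c s) (deriv c s) :=
    (continuous_NG hg).comp (hc0.prodMk hd0)
  have key : ∀ s ∈ Ico (0 : ℝ) 1, NG g (c s) (deriv c s) = rho g y x := by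
    intro s hs
    have hs' : s ∈ Icc (0 : ℝ) 1 := Ico_subset_Icc_self hs
    have hd : HasDerivAt c (deriv c s) s := (h1.differentiable one_ne_zero s).hasDerivAt
    have hQ : Tendsto (slope c s) (𝓝[>] s) (𝓝 (deriv c s)) :=
      (hasDerivAt_iff_tendsto_slope.1 hd).mono_left (nhdsGT_le_nhdsNE s)
    have hA : Tendsto (fun t => |rho g y x - NG g (c s) (slope c s t)|) (𝓝[>] s)
        (𝓝 |rho g y x - NG g (c s) (deriv c s)|) := by
      have e : Continuous fun w : E => NG g (c s) w :=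
        (continuous_NG hg).comp (continuous_const.prodMk continuous_id)
      exact (tendsto_const_nhds.sub ((e.tendsto _).comp hQ)).abs
    have hB : Tendsto (fun t => C * ‖c t - c s‖ * ‖slope c s t‖) (𝓝[>] s) (𝓝 0) := by
      have e : Tendsto (fun t => ‖c t - c s‖) (𝓝[>] s) (𝓝 ‖c s - c s‖) :=
        (((hc0.tendsto s).sub tendsto_const_nhds).norm).mono_left nhdsWithin_le_nhds
      have e2 := (e.const_mul C).mul hQ.norm
      rwa [sub_self, norm_zero, mul_zero, zero_mul] at e2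
    have hle : |rho g y x - NG g (c s) (deriv c s)| ≤ 0 := by
      refine le_of_tendsto_of_tendsto hA hB ?_
      filter_upwards [Ioo_mem_nhdsGT hs.2] with t ht
      have ht' : t ∈ Icc (0 : ℝ) 1 := ⟨hs.1.trans ht.1.le, ht.2.le⟩
      have hts : 0 < t - s := sub_pos.2 ht.1
      have e1 := hc.cmp (c s) (c s) (c t) ‖c t - c s‖ (hu s hs') (hu s hs') (hu t ht')
        (by rw [sub_self, norm_zero]; exact norm_nonneg _) le_rfl
      have e2 : rho g (c s) (c t) = (t - s) * rho g y x := by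
        rw [h2 s hs', h2 t ht']
        exact AG.eq hg h hs.1 ht.1.le ht.2.le
      rw [e2] at e1
      rw [slope_def_module, NG_smul, norm_smul, Real.norm_eq_abs, abs_of_pos (inv_pos.2 hts)]
      have e3 : rho g y x - (t - s)⁻¹ * NG g (c s) (c t - c s) =
          (t - s)⁻¹ * ((t - s) * rho g y x - NG g (c s) (c t - c s)) := by
        field_simp
      rw [e3, abs_mul, abs_of_pos (inv_pos.2 hts)]
      calc (t - s)⁻¹ * |(t - s) * rho g y x - NG g (c s) (c t - c s)|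
          ≤ (t - s)⁻¹ * (C * ‖c t - c s‖ * ‖c t - c s‖) :=
            mul_le_mul_of_nonneg_left e1 (inv_pos.2 hts).le
        _ = C * ‖c t - c s‖ * ((t - s)⁻¹ * ‖c t - c s‖) := by ring
    exact (sub_eq_zero.1 (abs_nonpos_iff.1 hle)).symm
  intro s hs
  rw [← NG_tang (hp.tang hs)]
  have hcl : IsClosed {s : ℝ | NG g (c s) (deriv c s) = rho g y x} :=
    isClosed_eq hNG continuous_const
  have hsub : closure (Ico (0 : ℝ) 1) ⊆ {s : ℝ | NG g (c s) (deriv c s) = rho g y x} :=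
    closure_minimal key hcl
  rw [closure_Ico zero_ne_one] at hsub
  exact hsub hs

end Pool.Agent.Lib.MP_da270e_gt.SA
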