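import Pool.Agent.Lib.MP_da270e_gt.SA.Base

/-!
Spinor coordinates for a point of the sphere, a tangent frame and a second point.
-/

set_option autoImplicit false
set_option maxSynthPendingDepth 3

namespace Pool.Agent.Lib.MP_da270e_gt.SA

open Set Real
open scoped ComplexConjugate

/-- squared norm of the spinor -/
noncomputable def nn (u₁ u₂ : ℂ) : ℝ := Complex.normSq u₁ + Complex.normSq u₂

/-- the complex coordinate of `α` in the frame of the spinor -/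
noncomputable def ff (u₁ u₂ : ℂ) (α : E) : ℂ :=
  α 0 * (u₁ ^ 2 - u₂ ^ 2) + α 1 * (Complex.I * (u₁ ^ 2 + u₂ ^ 2)) + α 2 * (-2 * u₁ * u₂)

/-- the base point -/
noncomputable def yy (u₁ u₂ : ℂ) : E :=
  (nn u₁ u₂)⁻¹ • !₂[2 * (u₁ * conj u₂).re, -2 * (u₁ * conj u₂).im,
    Complex.normSq u₁ - Complex.normSq u₂]

/-- the tangent vector with coordinate `ζ` -/
noncomputable def vv (u₁ u₂ ζ : ℂ) : E :=
  !₂[(ζ * conj (u₁ ^ 2 - u₂ ^ 2)).re, (ζ * conj (Complex.I * (u₁ ^ 2 + u₂ ^ 2))).re,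
    (ζ * conj (-2 * u₁ * u₂)).re]

/-- the second point -/
noncomputable def xx (u₁ u₂ ζ : ℂ) : E :=
  (Complex.normSq ζ + nn u₁ u₂ ^ 2)⁻¹ •
    ((Complex.normSq ζ - nn u₁ u₂ ^ 2) • yy u₁ u₂ + (2 : ℝ) • vv u₁ u₂ ζ)

/-- the two coordinates of a product of three linear forms -/
noncomputable def t1 (u₁ u₂ : ℂ) (α : Fin 3 → E) : ℂ :=
  conj (ff u₁ u₂ (α 0)) * ff u₁ u₂ (α 1) * ff u₁ u₂ (α 2) +
    ff u₁ u₂ (α 0) * conj (ff u₁ u₂ (α 1)) * ff u₁ u₂ (α 2) +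
    ff u₁ u₂ (α 0) * ff u₁ u₂ (α 1) * conj (ff u₁ u₂ (α 2))

/-- the two coordinates of a product of three linear forms -/
noncomputable def t3 (u₁ u₂ : ℂ) (α : Fin 3 → E) : ℂ :=
  ff u₁ u₂ (α 0) * ff u₁ u₂ (α 1) * ff u₁ u₂ (α 2)

variable {u₁ u₂ : ℂ}

theorem nn_nonneg (u₁ u₂ : ℂ) : 0 ≤ nn u₁ u₂ := by
  exact add_nonneg (Complex.normSq_nonneg _) (Complex.normSq_nonneg _)

theorem nn_eq_zero : nn u₁ u₂ = 0 ↔ u₁ = 0 ∧ u₂ = 0 := by
  unfold nn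
  rw [add_eq_zero_iff_of_nonneg (Complex.normSq_nonneg _) (Complex.normSq_nonneg _),
    Complex.normSq_eq_zero, Complex.normSq_eq_zero]

theorem inner3_87 (a b : E) : inner ℝ a b = a 0 * b 0 + a 1 * b 1 + a 2 * b 2 := by
  simp only [PiLp.inner_apply, Fin.sum_univ_three, RCLike.inner_apply, conj_trivial]
  ring

/-- the base point without normalisation -/
noncomputable def YY87 (u₁ u₂ : ℂ) : E :=
  !₂[2 * (u₁ * conj u₂).re, -2 * (u₁ * conj u₂).im, Complex.normSq u₁ - Complex.normSq u₂]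

theorem yy_eq_87 (u₁ u₂ : ℂ) : yy u₁ u₂ = (nn u₁ u₂)⁻¹ • YY87 u₁ u₂ := rfl

theorem YY_YY_87 (u₁ u₂ : ℂ) : inner ℝ (YY87 u₁ u₂) (YY87 u₁ u₂) = nn u₁ u₂ ^ 2 := by
  rw [inner3_87]
  simp [YY87, nn, Complex.normSq_apply]
  ring

theorem YY_vv_87 (u₁ u₂ ζ : ℂ) : inner ℝ (YY87 u₁ u₂) (vv u₁ u₂ ζ) = 0 := by
  rw [inner3_87]
  simp [YY87, vv, Complex.normSq_apply, sq]
  ring

theorem vv_vv_87 (u₁ u₂ ζ : ℂ) :
    inner ℝ (vv u₁ u₂ ζ) (vv u₁ u₂ ζ) = Complex.normSq ζ * nn u₁ u₂ ^ 2 := by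
  rw [inner3_87]
  simp [vv, nn, Complex.normSq_apply, sq]
  ring

theorem ff_YY_87 (u₁ u₂ : ℂ) : ff u₁ u₂ (YY87 u₁ u₂) = 0 := by
  apply Complex.ext <;> simp [ff, YY87, Complex.normSq_apply, sq] <;> ring

theorem ff_vv_87 (u₁ u₂ ζ : ℂ) : ff u₁ u₂ (vv u₁ u₂ ζ) = ((nn u₁ u₂ ^ 2 : ℝ) : ℂ) * ζ := by
  apply Complex.ext <;> simp [ff, vv, nn, Complex.normSq_apply, sq] <;> ring

theorem ff_lin_87 (u₁ u₂ : ℂ) (c a b : ℝ) (x y : E) :
    ff u₁ u₂ (c • (a • x + b • y)) = c * (a * ff u₁ u₂ x + b * ff u₁ u₂ y) := by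
  simp only [ff, PiLp.smul_apply, PiLp.add_apply, smul_eq_mul]
  push_cast
  ring

theorem comb_87 (h : nn u₁ u₂ ≠ 0) (ζ : ℂ) (c a b : ℝ) :
    ‖c • (a • yy u₁ u₂ + b • vv u₁ u₂ ζ)‖ ^ 2 =
      c ^ 2 * (a ^ 2 + b ^ 2 * (Complex.normSq ζ * nn u₁ u₂ ^ 2)) := by
  have h2 := YY_vv_87 u₁ u₂ ζ
  have h3 : inner ℝ (vv u₁ u₂ ζ) (YY87 u₁ u₂) = 0 := by rw [real_inner_comm, h2]
  rw [← real_inner_self_eq_norm_sq, yy_eq_87]
  simp only [inner_smul_left, inner_smul_right, inner_add_left, inner_add_right, conj_trivial,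
    YY_YY_87, vv_vv_87, h2, h3]
  field_simp
  ring

theorem den_pos_87 (h : nn u₁ u₂ ≠ 0) (ζ : ℂ) : 0 < Complex.normSq ζ + nn u₁ u₂ ^ 2 :=
  add_pos_of_nonneg_of_pos (Complex.normSq_nonneg _) (by positivity)

theorem norm_yy (h : nn u₁ u₂ ≠ 0) : ‖yy u₁ u₂‖ = 1 := by
  have := comb_87 h 0 1 1 0
  rw [zero_smul, add_zero, one_smul, one_smul] at this
  exact (pow_eq_one_iff_of_nonneg (norm_nonneg _) two_ne_zero).1 (by rw [this]; ring)

theorem norm_xx (h : nn u₁ u₂ ≠ 0) (ζ : ℂ) : ‖xx u₁ u₂ ζ‖ = 1 := by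
  have h1 := (den_pos_87 h ζ).ne'
  refine (pow_eq_one_iff_of_nonneg (norm_nonneg _) two_ne_zero).1 ?_
  rw [xx, comb_87 h]
  field_simp
  ring

theorem norm_xx_sub (h : nn u₁ u₂ ≠ 0) (ζ : ℂ) : ‖xx u₁ u₂ ζ - yy u₁ u₂‖ ^ 2 =
    4 * nn u₁ u₂ ^ 2 / (Complex.normSq ζ + nn u₁ u₂ ^ 2) := by
  have h1 := (den_pos_87 h ζ).ne'
  have e : xx u₁ u₂ ζ - yy u₁ u₂ = (Complex.normSq ζ + nn u₁ u₂ ^ 2)⁻¹ •
      ((-2 * nn u₁ u₂ ^ 2) • yy u₁ u₂ + (2 : ℝ) • vv u₁ u₂ ζ) := by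
    have e1 : yy u₁ u₂ = (Complex.normSq ζ + nn u₁ u₂ ^ 2)⁻¹ •
        ((Complex.normSq ζ + nn u₁ u₂ ^ 2) • yy u₁ u₂) := (inv_smul_smul₀ h1 _).symm
    rw [xx]
    nth_rewrite 2 [e1]
    module
  rw [e, comb_87 h]
  field_simp
  ring

/-- completeness of the frame: in real coordinates a polynomial identity, with
`Y = nn • yy`: `nn ^ 2 ⟪α, v⟫ = re (conj (ff v) ff α) + ⟪α, Y⟫ ⟪v, Y⟫` -/
theorem ff_inner (h : nn u₁ u₂ ≠ 0) {v : E} (hv : inner ℝ (yy u₁ u₂) v = 0) (α : E) :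
    (conj (ff u₁ u₂ v) * ff u₁ u₂ α).re = nn u₁ u₂ ^ 2 * inner ℝ α v := by
  have h1 : inner ℝ (YY87 u₁ u₂) v = 0 := by
    rw [yy_eq_87, real_inner_smul_left] at hv
    exact (mul_eq_zero.1 hv).resolve_left (inv_ne_zero h)
  have h2 : (conj (ff u₁ u₂ v) * ff u₁ u₂ α).re +
      inner ℝ (YY87 u₁ u₂) α * inner ℝ (YY87 u₁ u₂) v = nn u₁ u₂ ^ 2 * inner ℝ α v := by
    simp only [inner3_87]
    simp [ff, YY87, nn, Complex.normSq_apply, sq]
    ring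
  rwa [h1, mul_zero, add_zero] at h2

theorem ff_xx (h : nn u₁ u₂ ≠ 0) (ζ : ℂ) : ff u₁ u₂ (xx u₁ u₂ ζ) =
    ((2 * nn u₁ u₂ ^ 2 / (Complex.normSq ζ + nn u₁ u₂ ^ 2) : ℝ) : ℂ) * ζ := by
  have e : ff u₁ u₂ (yy u₁ u₂) = 0 := by
    have := ff_lin_87 u₁ u₂ (nn u₁ u₂)⁻¹ 1 0 (YY87 u₁ u₂) 0
    rw [zero_smul, add_zero, one_smul, ff_YY_87] at this
    rw [yy_eq_87, this]
    simp
  rw [xx, ff_lin_87, e, ff_vv_87]
  push_cast
  ring

/-- `4 ∏ re (conj z * aᵢ) = re (conj z ^ 3 * t3) + |z| ^ 2 re (conj z * t1)` and `ff_inner` -/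
theorem cub_eq (h : nn u₁ u₂ ≠ 0) {v : E} (hv : inner ℝ (yy u₁ u₂) v = 0) (α : Fin 3 → E) :
    (conj (ff u₁ u₂ v) ^ 3 * t3 u₁ u₂ α).re +
      Complex.normSq (ff u₁ u₂ v) * (conj (ff u₁ u₂ v) * t1 u₁ u₂ α).re =
        4 * nn u₁ u₂ ^ 6 * cub α v := by
  have k : ∀ z a b c : ℂ, (conj z ^ 3 * (a * b * c)).re +
      Complex.normSq z * (conj z * (conj a * b * c + a * conj b * c + a * b * conj c)).re =
      4 * ((conj z * a).re * (conj z * b).re * (conj z * c).re) := fun z a b c => by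
    simp [Complex.normSq_apply, pow_succ]
    ring
  rw [t1, t3, k, ff_inner h hv, ff_inner h hv, ff_inner h hv, cub]
  ring

theorem nn_mul (l u₁ u₂ : ℂ) : nn (l * u₁) (l * u₂) = Complex.normSq l * nn u₁ u₂ := by
  unfold nn
  rw [Complex.normSq_mul, Complex.normSq_mul, mul_add]

theorem yy_mul {l : ℂ} (hl : l ≠ 0) (u₁ u₂ : ℂ) : yy (l * u₁) (l * u₂) = yy u₁ u₂ := by
  have hn : Complex.normSq l ≠ 0 := fun h => hl (Complex.normSq_eq_zero.1 h)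
  have e : l * u₁ * conj (l * u₂) = (Complex.normSq l : ℂ) * (u₁ * conj u₂) := by
    rw [map_mul, ← Complex.mul_conj l]; ring
  unfold yy
  rw [nn_mul, e, Complex.re_ofReal_mul, Complex.im_ofReal_mul, Complex.normSq_mul,
    Complex.normSq_mul, mul_inv]
  ext i
  fin_cases i <;> simp <;> field_simp

theorem vv_mul89 (l u₁ u₂ ζ : ℂ) :
    vv (l * u₁) (l * u₂) (l ^ 2 * ζ) = Complex.normSq l ^ 2 • vv u₁ u₂ ζ := by
  have e : ∀ w : ℂ, (l ^ 2 * ζ * conj (l ^ 2 * w)).re = Complex.normSq l ^ 2 * (ζ * conj w).re := by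
    intro w
    have : l ^ 2 * ζ * conj (l ^ 2 * w) = ((Complex.normSq l ^ 2 : ℝ) : ℂ) * (ζ * conj w) := by
      rw [Complex.ofReal_pow, map_mul, map_pow, ← Complex.mul_conj l]; ring
    rw [this, Complex.re_ofReal_mul]
  unfold vv
  rw [show (l * u₁) ^ 2 - (l * u₂) ^ 2 = l ^ 2 * (u₁ ^ 2 - u₂ ^ 2) by ring,
    show Complex.I * ((l * u₁) ^ 2 + (l * u₂) ^ 2) = l ^ 2 * (Complex.I * (u₁ ^ 2 + u₂ ^ 2)) by ring,
    show -2 * (l * u₁) * (l * u₂) = l ^ 2 * (-2 * u₁ * u₂) by ring, e, e, e]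
  ext i
  fin_cases i <;> simp

theorem ff_mul89 (l u₁ u₂ : ℂ) (α : E) : ff (l * u₁) (l * u₂) α = l ^ 2 * ff u₁ u₂ α := by
  unfold ff; ring

theorem xx_mul {l : ℂ} (hl : l ≠ 0) (u₁ u₂ ζ : ℂ) :
    xx (l * u₁) (l * u₂) (l ^ 2 * ζ) = xx u₁ u₂ ζ := by
  have hn : Complex.normSq l ≠ 0 := fun h => hl (Complex.normSq_eq_zero.1 h)
  unfold xx
  rw [yy_mul hl, vv_mul89, nn_mul, Complex.normSq_mul, map_pow, mul_pow, ← mul_add, ← mul_sub,
    mul_inv, mul_smul (Complex.normSq l ^ 2), smul_comm (2 : ℝ), ← smul_add, smul_smul]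
  congr 1
  field_simp

theorem t1_mul (l u₁ u₂ : ℂ) (α : Fin 3 → E) :
    t1 (l * u₁) (l * u₂) α = (Complex.normSq l : ℂ) ^ 2 * l ^ 2 * t1 u₁ u₂ α := by
  unfold t1
  simp only [ff_mul89, map_mul, map_pow]
  rw [← Complex.mul_conj l]; ring

theorem t3_mul (l u₁ u₂ : ℂ) (α : Fin 3 → E) : t3 (l * u₁) (l * u₂) α = l ^ 6 * t3 u₁ u₂ α := by
  unfold t3
  simp only [ff_mul89]; ring

theorem t1_zero (α : Fin 3 → E) : t1 0 0 α = 0 := by
  simp [t1, ff]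

theorem t3_zero (α : Fin 3 → E) : t3 0 0 α = 0 := by
  simp [t3, ff]

theorem continuous_nn : Continuous fun p : ℂ × ℂ × ℂ => nn p.1 p.2.1 := by
  unfold nn
  exact (Complex.continuous_normSq.comp continuous_fst).add
    (Complex.continuous_normSq.comp continuous_snd.fst)

theorem continuous_ff89 (α : E) : Continuous fun p : ℂ × ℂ × ℂ => ff p.1 p.2.1 α := by
  unfold ff; fun_prop

theorem continuous_t1 (α : Fin 3 → E) : Continuous fun p : ℂ × ℂ × ℂ => t1 p.1 p.2.1 α := by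
  have h := continuous_ff89
  have c := fun β => Complex.continuous_conj.comp (h β)
  unfold t1
  exact ((((c _).mul (h _)).mul (h _)).add (((h _).mul (c _)).mul (h _))).add
    (((h _).mul (h _)).mul (c _))

theorem continuous_t3 (α : Fin 3 → E) : Continuous fun p : ℂ × ℂ × ℂ => t3 p.1 p.2.1 α := by
  have h := continuous_ff89
  unfold t3
  exact ((h _).mul (h _)).mul (h _)

theorem cont3_89 {X : Type} [TopologicalSpace X] {a b c : X → ℝ} (ha : Continuous a)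
    (hb : Continuous b) (hc : Continuous c) : Continuous fun x => (!₂[a x, b x, c x] : E) := by
  refine (PiLp.continuous_toLp 2 _).comp (continuous_pi fun i => ?_)
  fin_cases i
  · exact ha
  · exact hb
  · exact hc

theorem continuousAt_yy {p : ℂ × ℂ × ℂ} (h : nn p.1 p.2.1 ≠ 0) :
    ContinuousAt (fun p : ℂ × ℂ × ℂ => yy p.1 p.2.1) p := by
  unfold yy
  refine (continuous_nn.continuousAt.inv₀ h).smul (Continuous.continuousAt ?_)
  have c := Complex.continuous_conj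
  have n := Complex.continuous_normSq
  refine cont3_89 ?_ ?_ ?_ <;> fun_prop

theorem continuousAt_xx {p : ℂ × ℂ × ℂ} (h : nn p.1 p.2.1 ≠ 0) :
    ContinuousAt (fun p : ℂ × ℂ × ℂ => xx p.1 p.2.1 p.2.2) p := by
  have c := Complex.continuous_conj
  have n : Continuous fun p : ℂ × ℂ × ℂ => Complex.normSq p.2.2 :=
    Complex.continuous_normSq.comp continuous_snd.snd
  have v : Continuous fun p : ℂ × ℂ × ℂ => vv p.1 p.2.1 p.2.2 := by
    unfold vv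
    refine cont3_89 ?_ ?_ ?_ <;> fun_prop
  have h0 : Complex.normSq p.2.2 + nn p.1 p.2.1 ^ 2 ≠ 0 := by
    have := Complex.normSq_nonneg p.2.2
    positivity
  unfold xx
  exact ((n.add (continuous_nn.pow 2)).continuousAt.inv₀ h0).smul
    (((n.sub (continuous_nn.pow 2)).continuousAt.smul (continuousAt_yy h)).add
      (v.continuousAt.const_smul (2 : ℝ)))

theorem contDiff_xx : ContDiff ℝ 1 (xx 1 0) := by
  have re : ContDiff ℝ 1 fun z : ℂ => z.re := Complex.reCLM.contDiff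
  have im : ContDiff ℝ 1 fun z : ℂ => z.im := Complex.imCLM.contDiff
  have n : ContDiff ℝ 1 fun z : ℂ => Complex.normSq z := by
    simp only [Complex.normSq_apply]
    exact (re.mul re).add (im.mul im)
  have v : ContDiff ℝ 1 (vv 1 0) := by
    refine contDiff_euclidean.2 fun i => ?_
    fin_cases i
    · exact re.comp (contDiff_id.mul contDiff_const)
    · exact re.comp (contDiff_id.mul contDiff_const)
    · exact re.comp (contDiff_id.mul contDiff_const)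
  have h0 : ∀ z : ℂ, Complex.normSq z + nn 1 0 ^ 2 ≠ 0 := by
    intro z
    have := Complex.normSq_nonneg z
    have e : nn 1 0 = 1 := by simp [nn]
    rw [e]
    positivity
  unfold xx
  exact ((n.add contDiff_const).inv h0).smul
    (((n.sub contDiff_const).smul contDiff_const).add (v.const_smul (2 : ℝ)))

end Pool.Agent.Lib.MP_da270e_gt.SA
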