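import Mathlib
import Pool.Agent.Lib.MP_da270e_gt.Stmt

/-!
Angles between segments and critical points.
-/

set_option autoImplicit false

namespace Pool.Agent.Lib.MP_da270e_gt.Stmt

/-- The angle at `p`, for the metric `g`, between the tangent vectors `v` and `w`. -/
noncomputable def ang (g : E → Fin 3 → Fin 3 → ℝ) (p v w : E) : ℝ :=
  Real.arccos (form g p v w / (√(form g p v v) * √(form g p w w)))

/-- `y` is critical with respect to `x`: every tangent direction at `y` makes an angle at most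
`π / 2` with some segment from `y` to `x`. -/
def Critical (g : E → Fin 3 → Fin 3 → ℝ) (x y : E) : Prop :=
  ∀ τ : E, inner ℝ y τ = 0 → τ ≠ 0 →
    ∃ c : ℝ → E, IsSegment g c y x ∧ ang g y (deriv c 0) τ ≤ Real.pi / 2

/-- `x ≠ y` and two segments from `y` to `x` make an angle at least `θ` at `y`. -/
def Wide (g : E → Fin 3 → Fin 3 → ℝ) (θ : ℝ) (x y : E) : Prop :=
  x ≠ y ∧ ∃ c₁ c₂ : ℝ → E, IsSegment g c₁ y x ∧ IsSegment g c₂ y x ∧
    θ ≤ ang g y (deriv c₁ 0) (deriv c₂ 0)

end Pool.Agent.Lib.MP_da270e_gt.Stmt
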